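import Mathlib
/-!
# Conjugation invariant balls in a normal abelian subgroup of finite index
-/
namespace Pool.Agent.SLA
open scoped Pointwise

variable {G : Type} [Group G]

theorem list_prod_mem_pow {S : Set G} (l : List G) (h : ∀ x ∈ l, x ∈ S) :
    l.prod ∈ S ^ l.length := by
  induction l with
  | nil => simp
  | cons a l ih =>
    rw [List.prod_cons, List.length_cons, pow_succ']
    exact Set.mul_mem_mul (h a (by simp)) (ih fun x hx => h x (by simp [hx]))

theorem finite_pow {S : Set G} (h : S.Finite) (n : ℕ) : (S ^ n).Finite := by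
  induction n with
  | zero => simp
  | succ n ih =>
    rw [pow_succ]
    exact ih.mul h

theorem conj_pow {S : Set G} (h : ∀ g : G, ∀ x ∈ S, g * x * g⁻¹ ∈ S) (n : ℕ) :
    ∀ g : G, ∀ x ∈ S ^ n, g * x * g⁻¹ ∈ S ^ n := by
  induction n with
  | zero =>
    intro g x hx
    simp only [pow_zero, Set.mem_one] at hx ⊢
    subst hx
    simp
  | succ n ih =>
    intro g x hx
    rw [pow_succ] at hx ⊢
    obtain ⟨a, ha, b, hb, rfl⟩ := Set.mem_mul.1 hx
    refine Set.mem_mul.2 ⟨g * a * g⁻¹, ih g a ha, g * b * g⁻¹, h g b hb, ?_⟩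
    group

theorem exists_balls (N : Subgroup G) [N.Normal] [N.FiniteIndex]
    (hab : ∀ a ∈ N, ∀ b ∈ N, a * b = b * a) (hfg : N.FG) :
    ∃ S : Set G, S.Finite ∧ 1 ∈ S ∧ S ⊆ (N : Set G) ∧ (∀ g : G, ∀ x ∈ S, g * x * g⁻¹ ∈ S) ∧
      ∀ z ∈ N, ∃ n : ℕ, z ∈ S ^ n := by
  classical
  obtain ⟨X, hX⟩ := hfg
  have hXN : ∀ x ∈ X, x ∈ N := fun x hx => by
    rw [← hX]
    exact Subgroup.subset_closure hx
  have hN : N.Normal := inferInstance
  set Y : Set G := {x | x ∈ X ∨ x⁻¹ ∈ X} with hY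
  have hYf : Y.Finite := by
    have : Y = (X : Set G) ∪ (X : Set G)⁻¹ := by
      ext x
      simp [hY]
    rw [this]
    exact X.finite_toSet.union X.finite_toSet.inv
  have hYN : ∀ x ∈ Y, x ∈ N := by
    rintro x (hx | hx)
    · exact hXN x hx
    · simpa using N.inv_mem (hXN _ hx)
  refine ⟨insert 1 ((fun p : (G ⧸ N) × G => p.1.out * p.2 * p.1.out⁻¹) '' (Set.univ ×ˢ Y)),
    ?_, by simp, ?_, ?_, ?_⟩
  · exact (((Set.toFinite _).prod hYf).image _).insert _
  · rintro x (rfl | ⟨⟨j, y⟩, ⟨_, hy⟩, rfl⟩)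
    · exact N.one_mem
    · exact hN.conj_mem _ (hYN y hy) _
  · rintro g x (rfl | ⟨⟨j, y⟩, ⟨_, hy⟩, rfl⟩)
    · left
      simp
    · right
      refine ⟨((g * j.out : G), y), ⟨trivial, hy⟩, ?_⟩
      simp only
      set i : G := ((g * j.out : G) : G ⧸ N).out with hi
      have hn : i⁻¹ * (g * j.out) ∈ N := by
        rw [← QuotientGroup.eq]
        simp [hi]
      have hc := hab _ hn _ (hYN y hy)
      have : g * (j.out * y * j.out⁻¹) * g⁻¹ =
          i * ((i⁻¹ * (g * j.out)) * y * (i⁻¹ * (g * j.out))⁻¹) * i⁻¹ := by group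
      rw [this, hc]
      group
  · intro z hz
    have hz2 : z ∈ (Subgroup.closure (X : Set G)).toSubmonoid := by
      rw [hX]
      exact hz
    rw [Subgroup.closure_toSubmonoid] at hz2
    obtain ⟨l, hl, rfl⟩ := Submonoid.exists_list_of_mem_closure hz2
    refine ⟨l.length, list_prod_mem_pow l fun x hx => ?_⟩
    right
    have hxY : x ∈ Y := by simpa [hY] using hl x hx
    set i : G := ((1 : G) : G ⧸ N).out with hi
    have hn : i ∈ N := by
      have : ((1 : G) : G ⧸ N) = (i : G ⧸ N) := by simp [hi]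
      rw [QuotientGroup.eq] at this
      simpa using this
    refine ⟨((1 : G), x), ⟨trivial, hxY⟩, ?_⟩
    simp only
    rw [← hi, hab i hn x (hYN x hxY)]
    group

end Pool.Agent.SLA
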