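import Mathlib
/-!
# Dickson's lemma, in the form used for ShortLex-least strings
-/
namespace Pool.Agent.SLA

theorem dickson {X ι : Type*} [Finite ι] (f : X → ι → ℕ) :
    ∃ F : Set X, F.Finite ∧ ∀ x, ∃ y ∈ F, f y ≤ f x := by
  classical
  set s : Set (ι → ℕ) := Set.range f with hs
  have hp : s.IsPWO := Set.isPWO_of_wellQuasiOrderedLE s
  set m : Set (ι → ℕ) := {x | Minimal (· ∈ s) x} with hm
  have hfin : m.Finite := by
    apply IsAntichain.finite_of_partiallyWellOrderedOn (r := (· ≤ ·))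
    · exact setOfPred_minimal_antichain _
    · exact hp.mono (fun x hx => hx.prop)
  rcases isEmpty_or_nonempty X with hX | hX
  · exact ⟨∅, Set.finite_empty, fun x => (hX.false x).elim⟩
  have hch : ∀ y : ι → ℕ, y ∈ s → ∃ x, f x = y := fun y hy => hy
  choose! g hg using hch
  refine ⟨g '' m, hfin.image g, fun x => ?_⟩
  obtain ⟨b, hb1, hb2⟩ := hp.exists_le_minimal (a := f x) ⟨x, rfl⟩
  refine ⟨g b, ⟨b, hb2, rfl⟩, ?_⟩
  rw [hg b hb2.prop]
  exact hb1

theorem dickson_label {X ι Λ : Type*} [Finite ι] [Finite Λ] (f : X → ι → ℕ) (c : X → Λ) :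
    ∃ F : Set X, F.Finite ∧ ∀ x, ∃ y ∈ F, c y = c x ∧ f y ≤ f x := by
  classical
  obtain ⟨F, hF, h⟩ := dickson
    (fun x => Sum.elim (f x) (fun l : Λ => if c x = l then 1 else 0) : X → ι ⊕ Λ → ℕ)
  refine ⟨F, hF, fun x => ?_⟩
  obtain ⟨y, hy, hle⟩ := h x
  refine ⟨y, hy, ?_, fun i => ?_⟩
  · have := hle (Sum.inr (c y))
    simp only [Sum.elim_inr, if_true] at this
    by_contra hne
    rw [if_neg (fun h => hne h.symm)] at this
    omega
  · exact hle (Sum.inl i)

end Pool.Agent.SLA
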