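import Mathlib
import Pool.Agent.SLX.Defs
/-!
# Automatic and ShortLex-automatic groups (definitions of MP_6a3c10_al)
-/
namespace Pool.Agent.SLA
open Pool.Agent.SLX

/-- The padded pair of two strings, as a string of pairs of letters: the shorter of the two
strings is filled up at its end with the padding symbol `none`. -/
def pad {A : Type} : List A → List A → List (Option A × Option A)
  | [], [] => []
  | a :: u, [] => (some a, none) :: pad u []
  | [], b :: v => (none, some b) :: pad [] v
  | a :: u, b :: v => (some a, some b) :: pad u v

/-- `L` is the language of an automatic structure for the group `G` with the letters `π a`: `L` is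
regular, every element of `G` is represented in `L`, and for every string `a` of length at most 1
the set of padded pairs `(u, v)` with `u`, `v` in `L` and `u a = v` in `G` is regular. -/
def IsAutomaticStructure {A G : Type} [Group G] (π : A → G) (L : Language A) : Prop :=
  L.IsRegular ∧ (∀ g : G, ∃ u ∈ L, val π u = g) ∧
    ∀ a : List A, a.length ≤ 1 → Language.IsRegular
      {p : List (Option A × Option A) |
        ∃ u ∈ L, ∃ v ∈ L, val π (u ++ a) = val π v ∧ p = pad u v}

/-- `G` is automatic. -/
def Automatic (G : Type) [Group G] : Prop :=
  ∃ (A : Type) (_ : Finite A) (π : A → G) (L : Language A), IsAutomaticStructure π L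

/-- The set of the ShortLex-least representatives of the elements of `G`. -/
def leastLang {A G : Type} [LinearOrder A] [Group G] (π : A → G) : Language A :=
  {u | ∀ v : List A, val π v = val π u → ¬ List.Shortlex (· < ·) v u}

/-- `G` is ShortLex-automatic with respect to some finite ordered monoid generating set. -/
def ShortLexAutomatic (G : Type) [Group G] : Prop :=
  ∃ (A : Type) (_ : Finite A) (_ : LinearOrder A) (π : A → G),
    IsAutomaticStructure π (leastLang π)

theorem ShortLexAutomatic.automatic {G : Type} [Group G] (h : ShortLexAutomatic G) :
    Automatic G := by
  obtain ⟨A, hA, hl, π, h⟩ := h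
  exact ⟨A, hA, π, _, h⟩

end Pool.Agent.SLA
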