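import Mathlib
import Pool.Agent.SLA.Defs
/-!
# The fellow traveller criterion
-/
namespace Pool.Agent.SLA
open Pool.Agent.SLX

theorem regular_of_data {B S : Type*} (L : Language B) (d : List B → S) (F : Set S)
    (hF : F.Finite) (hd : ∀ x y, x ++ y ∈ L → d x ∈ F)
    (h : ∀ x x', d x = d x' → ∀ y, x ++ y ∈ L → x' ++ y ∈ L) : L.IsRegular := by
  classical
  apply Language.IsRegular.of_finite_range_leftQuotient
  have key : Set.range L.leftQuotient ⊆
      insert (∅ : Set (List B)) ((fun s => {y | ∃ x, d x = s ∧ x ++ y ∈ L}) '' F) := by
    rintro _ ⟨x, rfl⟩
    by_cases hx : ∃ y, x ++ y ∈ L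
    · right
      obtain ⟨y, hy⟩ := hx
      refine ⟨d x, hd x y hy, ?_⟩
      ext z
      constructor
      · rintro ⟨x', h1, h2⟩
        exact h x' x h1 z h2
      · intro hz
        exact ⟨x, rfl, hz⟩
    · left
      ext z
      constructor
      · intro hz
        exact hx ⟨z, hz⟩
      · intro hz
        exact hz.elim
  exact ((hF.image _).insert _).subset key

section pad
variable {A : Type}

theorem fst_pad (u v : List A) : (pad u v).filterMap Prod.fst = u := by
  induction u, v using pad.induct with
  | case1 => simp [pad]
  | case2 a u ih => simp [pad, ih]
  | case3 b v ih => simp [pad, ih]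
  | case4 a u b v ih => simp [pad, ih]

theorem snd_pad (u v : List A) : (pad u v).filterMap Prod.snd = v := by
  induction u, v using pad.induct with
  | case1 => simp [pad]
  | case2 a u ih => simp [pad, ih]
  | case3 b v ih => simp [pad, ih]
  | case4 a u b v ih => simp [pad, ih]

theorem take_pad (u v : List A) (n : ℕ) : (pad u v).take n = pad (u.take n) (v.take n) := by
  induction u, v using pad.induct generalizing n with
  | case1 => simp [pad]
  | case2 a u ih => 
    cases n with
    | zero => simp [pad]
    | succ n => simp [pad, ih]
  | case3 b v ih => 
    cases n with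
    | zero => simp [pad]
    | succ n => simp [pad, ih]
  | case4 a u b v ih => 
    cases n with
    | zero => simp [pad]
    | succ n => simp [pad, ih]

theorem drop_pad (u v : List A) (n : ℕ) : (pad u v).drop n = pad (u.drop n) (v.drop n) := by
  induction u, v using pad.induct generalizing n with
  | case1 => simp [pad]
  | case2 a u ih => 
    cases n with
    | zero => simp [pad]
    | succ n => simp [pad, ih]
  | case3 b v ih => 
    cases n with
    | zero => simp [pad]
    | succ n => simp [pad, ih]
  | case4 a u b v ih => 
    cases n with
    | zero => simp [pad]
    | succ n => simp [pad, ih]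

theorem pad_append (u v u' v' : List A) (h1 : u.length < v.length → u' = [])
    (h2 : v.length < u.length → v' = []) : pad (u ++ u') (v ++ v') = pad u v ++ pad u' v' := by
  induction u, v using pad.induct with
  | case1 => simp [pad]
  | case2 a u ih => 
    have hv : v' = [] := h2 (by simp)
    subst hv
    simp only [List.cons_append, pad, List.append_nil, List.nil_append]
    have := ih (by simp) (by simp)
    simp only [List.append_nil] at this
    rw [this]
  | case3 b v ih =>
    have hv : u' = [] := h1 (by simp)
    subst hv
    simp only [List.cons_append, pad, List.append_nil, List.nil_append]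
    have := ih (by simp) (by simp)
    simp only [List.append_nil] at this
    rw [this]
  | case4 a u b v ih =>
    simp only [List.cons_append, pad]
    rw [ih (by simpa using h1) (by simpa using h2)]

end pad

theorem val_append {A G : Type} [Group G] (π : A → G) (u v : List A) :
    val π (u ++ v) = val π u * val π v := by
  simp [val]

theorem regular_mult {A G : Type} [Group G] (π : A → G) (L : Language A) (hL : L.IsRegular)
    (g : G) (D : Set G) (hD : D.Finite)
    (h : ∀ u ∈ L, ∀ v ∈ L, val π u * g = val π v →
      ∀ t, (val π (u.take t))⁻¹ * val π (v.take t) ∈ D) :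
    Language.IsRegular {p : List (Option A × Option A) |
        ∃ u ∈ L, ∃ v ∈ L, val π u * g = val π v ∧ p = pad u v} := by
  classical
  have hR := hL.finite_range_leftQuotient
  refine regular_of_data (S := Prop × Prop × Prop × Set (List A) × Set (List A) × G) _
    (fun x => (x = pad (x.filterMap Prod.fst) (x.filterMap Prod.snd),
      (x.filterMap Prod.fst).length < (x.filterMap Prod.snd).length,
      (x.filterMap Prod.snd).length < (x.filterMap Prod.fst).length,
      L.leftQuotient (x.filterMap Prod.fst), L.leftQuotient (x.filterMap Prod.snd),
      (val π (x.filterMap Prod.fst))⁻¹ * val π (x.filterMap Prod.snd)))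
    (Set.univ ×ˢ Set.univ ×ˢ Set.univ ×ˢ (Set.range L.leftQuotient) ×ˢ
      (Set.range L.leftQuotient) ×ˢ D) ?_ ?_ ?_
  · exact Set.toFinite _ |>.prod ((Set.toFinite _).prod ((Set.toFinite _).prod
      (hR.prod (hR.prod hD))))
  · rintro x y ⟨u, hu, v, hv, huv, hxy⟩
    have hx : x = pad (u.take x.length) (v.take x.length) := by
      rw [← take_pad, ← hxy]
      simp
    have h1 : x.filterMap Prod.fst = u.take x.length := by
      conv_lhs => rw [hx]
      rw [fst_pad]
    have h2 : x.filterMap Prod.snd = v.take x.length := by
      conv_lhs => rw [hx]
      rw [snd_pad]
    refine ⟨trivial, trivial, trivial, ⟨_, rfl⟩, ⟨_, rfl⟩, ?_⟩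
    simp only [h1, h2]
    exact h u hu v hv huv _
  · rintro x x' hxx y ⟨u, hu, v, hv, huv, hxy⟩
    have hx : x = pad (u.take x.length) (v.take x.length) := by
      rw [← take_pad, ← hxy]
      simp
    have hy : y = pad (u.drop x.length) (v.drop x.length) := by
      rw [← drop_pad, ← hxy]
      simp
    have h1 : x.filterMap Prod.fst = u.take x.length := by
      conv_lhs => rw [hx]
      rw [fst_pad]
    have h2 : x.filterMap Prod.snd = v.take x.length := by
      conv_lhs => rw [hx]
      rw [snd_pad]
    simp only [h1, h2, Prod.mk.injEq] at hxx
    obtain ⟨e1, e2, e3, e4, e5, e6⟩ := hxx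
    set u' := x'.filterMap Prod.fst with hu'
    set v' := x'.filterMap Prod.snd with hv'
    have hx' : x' = pad u' v' := by
      rw [← e1]
      exact hx
    refine ⟨u' ++ u.drop x.length, ?_, v' ++ v.drop x.length, ?_, ?_, ?_⟩
    · have : u.drop x.length ∈ L.leftQuotient u' := by
        rw [← e4]
        change _ ++ _ ∈ L
        rw [List.take_append_drop]
        exact hu
      exact this
    · have : v.drop x.length ∈ L.leftQuotient v' := by
        rw [← e5]
        change _ ++ _ ∈ L
        rw [List.take_append_drop]
        exact hv
      exact this
    · rw [val_append, val_append]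
      have a1 : val π u = val π (u.take x.length) * val π (u.drop x.length) := by
        rw [← val_append, List.take_append_drop]
      have a2 : val π v = val π (v.take x.length) * val π (v.drop x.length) := by
        rw [← val_append, List.take_append_drop]
      rw [a1, a2] at huv
      have a3 : val π (u.drop x.length) * g =
          (val π (u.take x.length))⁻¹ * val π (v.take x.length) * val π (v.drop x.length) := by
        rw [mul_assoc _ _ (val π (v.drop x.length)), ← huv]
        group
      rw [mul_assoc, a3, e6]
      group
    · rw [pad_append _ _ _ _ ?_ ?_, ← hx', ← hy]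
      · intro hlt
        have : (u.take x.length).length < (v.take x.length).length := by
          rw [e2]
          exact hlt
        simp only [List.length_take] at this
        apply List.drop_eq_nil_of_le
        omega
      · intro hlt
        have : (v.take x.length).length < (u.take x.length).length := by
          rw [e3]
          exact hlt
        simp only [List.length_take] at this
        apply List.drop_eq_nil_of_le
        omega

end Pool.Agent.SLA
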