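import Mathlib
import Pool.Agent.SLA.FT
/-!
# ShortLex-least strings
-/
namespace Pool.Agent.SLA
open Pool.Agent.SLX

section gen
variable {A G : Type} [LinearOrder A] [Group G] (π : A → G)

theorem lex_append_right {r : A → A → Prop} {x y : List A} (h : List.Lex r x y)
    (hl : x.length = y.length) (z : List A) : List.Lex r (x ++ z) (y ++ z) := by
  induction h with
  | nil => simp at hl
  | cons _ ih =>
    simp only [List.cons_append]
    exact List.Lex.cons (ih (by simpa using hl))
  | rel h =>
    simp only [List.cons_append]
    exact List.Lex.rel h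

theorem shortlex_append_right {x y : List A} (h : List.Shortlex (· < ·) x y) (z : List A) :
    List.Shortlex (· < ·) (x ++ z) (y ++ z) := by
  rcases List.shortlex_def.1 h with h | ⟨h1, h2⟩
  · apply List.Shortlex.of_length_lt
    simp only [List.length_append]
    omega
  · apply List.Shortlex.of_lex
    · simp only [List.length_append]
      omega
    · exact lex_append_right h2 h1 z

theorem lex_insert (a : A) {x y : List A} (h : List.Lex (· < ·) x y)
    (hl : x.length = y.length) :
    List.Lex (· < ·) (x.orderedInsert (· ≤ ·) a) (y.orderedInsert (· ≤ ·) a) := by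
  induction h with
  | nil => simp at hl
  | @cons b l1 l2 _ ih =>
    simp only [List.orderedInsert_cons]
    by_cases hab : a ≤ b
    · simp only [hab, if_true]
      exact List.Lex.cons (List.Lex.cons (by assumption))
    · simp only [hab, if_false]
      exact List.Lex.cons (ih (by simpa using hl))
  | @rel b l1 c l2 h =>
    simp only [List.orderedInsert_cons]
    by_cases hab : a ≤ b
    · simp only [hab, hab.trans h.le, if_true]
      exact List.Lex.cons (List.Lex.rel h)
    · by_cases hac : a ≤ c
      · simp only [hab, hac, if_true, if_false]
        exact List.Lex.rel (not_le.1 hab)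
      · simp only [hab, hac, if_false]
        exact List.Lex.rel h

theorem shortlex_insert (a : A) {x y : List A} (h : List.Shortlex (· < ·) x y) :
    List.Shortlex (· < ·) (x.orderedInsert (· ≤ ·) a) (y.orderedInsert (· ≤ ·) a) := by
  rcases List.shortlex_def.1 h with h | ⟨h1, h2⟩
  · apply List.Shortlex.of_length_lt
    simp only [List.orderedInsert_length]
    omega
  · apply List.Shortlex.of_lex
    · simp only [List.orderedInsert_length]
      omega
    · exact lex_insert a h2 h1

theorem exists_least [Finite A] (w : List A) : ∃ u ∈ leastLang π, val π u = val π w := by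
  have hwf : WellFounded (List.Shortlex ((· < ·) : A → A → Prop)) :=
    List.Shortlex.wf (Finite.wellFounded_of_trans_of_irrefl _)
  obtain ⟨u, hu, hmin⟩ := hwf.has_min {v : List A | val π v = val π w} ⟨w, rfl⟩
  refine ⟨u, fun v hv => hmin v ?_, hu⟩
  change val π v = val π w
  rw [hv]
  exact hu

theorem least_unique {u v : List A} (hu : u ∈ leastLang π) (hv : v ∈ leastLang π)
    (h : val π u = val π v) : u = v := by
  have h1 := hu v h.symm
  have h2 := hv u h
  by_contra hne
  rcases trichotomous_of (List.Shortlex ((· < ·) : A → A → Prop)) u v with h3 | h3 | h3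
  · exact h2 h3
  · exact hne h3
  · exact h1 h3

theorem least_suffix {x y : List A} (h : x ++ y ∈ leastLang π) : y ∈ leastLang π := by
  intro v hv hlt
  refine h (x ++ v) ?_ (List.Shortlex.append_left hlt x)
  rw [val_append, val_append, hv]

theorem least_prefix {x y : List A} (h : x ++ y ∈ leastLang π) : x ∈ leastLang π := by
  intro v hv hlt
  refine h (v ++ y) ?_ (shortlex_append_right hlt y)
  rw [val_append, val_append, hv]

end gen

/-- The set-up: the letters outside `T` map into a commutative group `N`, and strings starting
with a letter of `T` may be replaced by strings starting with a smaller letter outside `T`. -/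
structure Setup {A G N : Type} [LinearOrder A] [Group G] [CommGroup N] (π : A → G) (ι : N →* G)
    (ν : A → N) (T : A → Prop) : Prop where
  hν : ∀ a, ¬ T a → π a = ι (ν a)
  hν1 : ∀ a, T a → ν a = 1
  hlt : ∀ a b, ¬ T a → T b → a < b
  hT : ∀ (a : A) (w : List A), T a → w ≠ [] →
    ∃ (b : A) (w' : List A), ¬ T b ∧ w'.length = w.length ∧ val π (b :: w') = val π (a :: w)
  surj : ∀ g : G, ∃ w : List A, val π w = g

namespace Setup
variable {A G N : Type} [LinearOrder A] [Group G] [CommGroup N] {π : A → G} {ι : N →* G}
    {ν : A → N} {T : A → Prop}

theorem comm (S : Setup π ι ν T) {a b : A} (ha : ¬ T a) (hb : ¬ T b) :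
    π a * π b = π b * π a := by
  rw [S.hν a ha, S.hν b hb, ← map_mul, ← map_mul, mul_comm]

theorem last (S : Setup π ι ν T) {x w : List A} {a : A} (h : x ++ a :: w ∈ leastLang π)
    (ha : T a) : w = [] := by
  by_contra hw
  obtain ⟨b, w', hb, hl, hv⟩ := S.hT a w ha hw
  refine least_suffix π h (b :: w') hv (List.Shortlex.of_lex (by simp [hl]) ?_)
  exact List.Lex.rel (S.hlt b a hb ha)

theorem sorted (S : Setup π ι ν T) {u : List A} (h : u ∈ leastLang π) :
    u.Pairwise (· ≤ ·) := by
  rw [← List.isChain_iff_pairwise]
  induction u with
  | nil => exact List.isChain_nil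
  | cons a u ih =>
    cases u with
    | nil => exact List.isChain_singleton a
    | cons b u =>
      rw [List.isChain_cons_cons]
      refine ⟨?_, ih (least_suffix π (x := [a]) h)⟩
      by_contra hab
      push Not at hab
      have ha : ¬ T a := by
        intro ha
        have := S.last (x := []) h ha
        simp at this
      have hb : ¬ T b := by
        intro hb
        exact absurd (S.hlt a b ha hb) (not_lt.2 hab.le)
      have h2 : [a, b] ∈ leastLang π := least_prefix π (x := [a, b]) (y := u) h
      refine h2 [b, a] ?_ (List.Shortlex.of_lex rfl (List.Lex.rel hab))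
      simp only [val, List.map_cons, List.map_nil, List.prod_cons, List.prod_nil, mul_one]
      exact S.comm hb ha

theorem val_insert (S : Setup π ι ν T) (a : A) (ha : ¬ T a) (v : List A) :
    val π (v.orderedInsert (· ≤ ·) a) = π a * val π v := by
  induction v with
  | nil => simp [val]
  | cons b v ih =>
    rw [List.orderedInsert_cons]
    by_cases hab : a ≤ b
    · simp [hab, val]
    · have hb : ¬ T b := fun hb => hab (S.hlt a b ha hb).le
      simp only [hab, if_false]
      have h1 : val π (b :: List.orderedInsert (· ≤ ·) a v) =
          π b * val π (List.orderedInsert (· ≤ ·) a v) := by simp [val]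
      have h2 : val π (b :: v) = π b * val π v := by simp [val]
      rw [h1, ih, h2, ← mul_assoc, ← mul_assoc, S.comm ha hb]

theorem remove [Finite A] (S : Setup π ι ν T) {x y : List A} {a : A}
    (h : x ++ a :: y ∈ leastLang π) : x ++ y ∈ leastLang π := by
  by_cases ha : T a
  · rw [S.last h ha, List.append_nil]
    exact least_prefix π h
  · have hs := S.sorted h
    have hs' : (x ++ y).Pairwise (· ≤ ·) :=
      hs.sublist ((List.sublist_cons_self a y).append_left x)
    have hins : (x ++ y).orderedInsert (· ≤ ·) a = x ++ a :: y := by
      apply List.Perm.eq_of_pairwise (le := (· ≤ ·))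
      · intro p q _ _ h1 h2
        exact le_antisymm h1 h2
      · exact hs'.orderedInsert a _
      · exact hs
      · exact (List.perm_orderedInsert (· ≤ ·) a _).trans List.perm_middle.symm
    intro v hv hlt
    refine h (v.orderedInsert (· ≤ ·) a) ?_ ?_
    · rw [S.val_insert a ha, hv, ← S.val_insert a ha, hins]
    · rw [← hins]
      exact shortlex_insert a hlt

theorem sub_aux [Finite A] (S : Setup π ι ν T) {u' u : List A} (hs : List.Sublist u' u) :
    ∀ x : List A, x ++ u ∈ leastLang π → x ++ u' ∈ leastLang π := by
  induction hs with
  | slnil => exact fun x h => h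
  | @cons l1 l2 a _ ih =>
    intro x h
    exact ih x (S.remove h)
  | @cons_cons l1 l2 a _ ih =>
    intro x h
    have := ih (x ++ [a]) (by simpa using h)
    simpa using this

theorem sub [Finite A] (S : Setup π ι ν T) {u' u : List A} (hs : List.Sublist u' u)
    (h : u ∈ leastLang π) : u' ∈ leastLang π := S.sub_aux hs [] h

theorem val_form (S : Setup π ι ν T) [DecidablePred T] {u : List A} (h : u ∈ leastLang π) :
    val π u = ι ((u.map ν).prod) * val π (u.filter T) := by
  induction u with
  | nil => simp [val]
  | cons a u ih =>
    by_cases ha : T a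
    · have : u = [] := S.last (x := []) h ha
      subst this
      simp [val, S.hν1 a ha, ha]
    · have h1 : val π (a :: u) = π a * val π u := by simp [val]
      rw [h1, ih (least_suffix π (x := [a]) h), S.hν a ha, List.filter_cons_of_neg (by simpa using ha)]
      simp [mul_assoc]

end Setup

end Pool.Agent.SLA
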