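import Mathlib
import Pool.Agent.SLA.Least
import Pool.Agent.SLA.Dickson
/-!
# Regularity of the ShortLex-least strings and the fellow traveller property
-/
namespace Pool.Agent.SLA
open Pool.Agent.SLX

section lists
variable {A : Type} [LinearOrder A]

theorem le_sublist {f u : List A} (hf : f.Pairwise (· ≤ ·)) (hu : u.Pairwise (· ≤ ·))
    (h : ∀ a, f.count a ≤ u.count a) : List.Sublist f u :=
  List.sublist_of_subperm_of_pairwise (r := (· ≤ ·)) (List.subperm_ext_iff.2 fun a _ => h a) hf hu

theorem count_take {u : List A} (hs : u.Pairwise (· ≤ ·)) (a : A) (t : ℕ) :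
    (u.take t).count a = min (u.count a) (t - u.countP (· < a)) := by
  induction u generalizing t with
  | nil => simp
  | cons b u ih =>
    rw [List.pairwise_cons] at hs
    cases t with
    | zero => simp
    | succ t =>
      have h1 := ih hs.2 t
      rw [List.take_succ_cons]
      rcases lt_trichotomy b a with hba | hba | hba
      · rw [List.count_cons_of_ne hba.ne, List.count_cons_of_ne hba.ne,
          List.countP_cons_of_pos (by simpa using hba), h1]
        congr 1
        omega
      · subst hba
        have h0 : u.countP (· < b) = 0 := by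
          rw [List.countP_eq_zero]
          intro c hc
          simpa using hs.1 c hc
        rw [List.count_cons_self, List.count_cons_self, List.countP_cons_of_neg (by simp), h1, h0]
        omega
      · have h0 : u.count a = 0 := by
          rw [List.count_eq_zero]
          intro hc
          exact absurd (hs.1 a hc) (not_le.2 hba)
        rw [List.count_cons_of_ne hba.ne', List.count_cons_of_ne hba.ne', h1, h0]
        omega

theorem countP_bound [Fintype A] {u v : List A} {C : ℕ}
    (h : ∀ a, u.count a ≤ v.count a + C) (p : A → Bool) :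
    u.countP p ≤ v.countP p + Fintype.card A * C := by
  classical
  have key : ∀ w : List A, w.countP p = ∑ a, (w.filter p).count a := by
    intro w
    rw [List.countP_eq_length_filter]
    have := Multiset.sum_count_eq_card (s := Finset.univ) (m := ((w.filter p : List A) : Multiset A))
      (by simp)
    simpa using this.symm
  rw [key u, key v, ← smul_eq_mul, ← Finset.card_univ, ← Finset.sum_const, ← Finset.sum_add_distrib]
  apply Finset.sum_le_sum
  intro a _
  by_cases ha : p a = true
  · rw [List.count_filter ha, List.count_filter ha]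
    exact h a
  · rw [List.count_eq_zero.2 (fun hm => ha (List.mem_filter.1 hm).2)]
    exact Nat.zero_le _

theorem prod_map_count [Fintype A] {N : Type} [CommGroup N] (ν : A → N) (u : List A) :
    (u.map ν).prod = ∏ a, ν a ^ u.count a := by
  induction u with
  | nil => simp
  | cons b u ih =>
    simp only [List.map_cons, List.prod_cons, ih, List.count_cons, pow_add, Finset.prod_mul_distrib]
    rw [mul_comm]
    congr 1
    rw [Finset.prod_eq_single b]
    · simp
    · intro c _ hc
      simp [hc.symm]
    · simp

end lists

namespace Setup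
variable {A G N : Type} [LinearOrder A] [Group G] [CommGroup N] {π : A → G} {ι : N →* G}
    {ν : A → N} {T : A → Prop}

theorem regular_least [Finite A] (S : Setup π ι ν T) : (leastLang π).IsRegular := by
  classical
  have := Fintype.ofFinite A
  obtain ⟨F, hF, hd⟩ := dickson (X := {w : List A // w.Pairwise (· ≤ ·) ∧ w ∉ leastLang π})
    (fun w a => w.1.count a)
  set B := hF.toFinset.sup (fun f => f.1.length) with hB
  have hB' : ∀ f ∈ F, ∀ a, f.1.count a ≤ B := by
    intro f hf a
    have h1 : f.1.length ≤ B := Finset.le_sup (f := fun f : {w : List A // w.Pairwise (· ≤ ·) ∧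
      w ∉ leastLang π} => f.1.length) (hF.mem_toFinset.2 hf)
    exact List.count_le_length.trans h1
  refine regular_of_data (S := Prop × Option A × (A → ℕ)) _
    (fun x => (x.Pairwise (· ≤ ·), x.getLast?, fun a => min (x.count a) B))
    (Set.univ ×ˢ Set.univ ×ˢ Set.Icc 0 (fun _ => B)) ?_ ?_ ?_
  · exact (Set.toFinite _).prod ((Set.toFinite _).prod (Set.finite_Icc _ _))
  · intro x y _
    refine ⟨trivial, trivial, fun a => Nat.zero_le _, fun a => min_le_right _ _⟩
  · intro x x' hxx y hxy
    simp only [Prod.mk.injEq] at hxx
    obtain ⟨e1, e2, e3⟩ := hxx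
    have hs := S.sorted hxy
    have hs' := List.pairwise_append.1 hs
    have hx' : x'.Pairwise (· ≤ ·) := by
      rw [← e1]
      exact hs'.1
    have hss : (x' ++ y).Pairwise (· ≤ ·) := by
      rw [List.pairwise_append]
      refine ⟨hx', hs'.2.1, fun a ha b hb => ?_⟩
      rcases hl : x'.getLast? with _ | l
      · rw [List.getLast?_eq_none_iff] at hl
        subst hl
        simp at ha
      · rw [hl] at e2
        have hl2 : l ∈ x := List.mem_of_getLast? e2
        obtain ⟨ys, hys⟩ := List.getLast?_eq_some_iff.1 hl
        have hal : a ≤ l := by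
          rw [hys] at ha hx'
          rcases List.mem_append.1 ha with h | h
          · exact (List.pairwise_append.1 hx').2.2 a h l (by simp)
          · rw [List.mem_singleton.1 h]
        exact hal.trans (hs'.2.2 l hl2 b hb)
    by_contra hcon
    obtain ⟨f, hf, hle⟩ := hd ⟨x' ++ y, hss, hcon⟩
    refine f.2.2 (S.sub (le_sublist f.2.1 hs fun a => ?_) hxy)
    have h1 := hle a
    have h2 := hB' f hf a
    have h3 := congrFun e3 a
    simp only [List.count_append] at h1 h3 ⊢
    omega

theorem filter_len (S : Setup π ι ν T) [DecidablePred T] {u : List A} (h : u ∈ leastLang π) :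
    (u.filter T).length ≤ 1 := by
  induction u with
  | nil => simp
  | cons a u ih =>
    by_cases ha : T a
    · have : u = [] := S.last (x := []) h ha
      subst this
      simp [ha]
    · rw [List.filter_cons_of_neg (by simpa using ha)]
      exact ih (least_suffix π (x := [a]) h)

theorem eq_of_head {l l' : List A} (h : l.length ≤ 1) (h' : l'.length ≤ 1)
    (hh : l.head? = l'.head?) : l = l' := by
  rcases l with _ | ⟨a, _ | ⟨b, l⟩⟩
  · rcases l' with _ | ⟨a', l'⟩
    · rfl
    · simp at hh
  · rcases l' with _ | ⟨a', _ | ⟨b', l'⟩⟩
    · simp at hh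
    · simpa using hh
    · simp at h'
  · simp at h

theorem bound [Finite A] (S : Setup π ι ν T) (g : G) : ∃ C : ℕ, ∀ u ∈ leastLang π,
    ∀ v ∈ leastLang π, val π u * g = val π v →
      ∀ a, u.count a ≤ v.count a + C ∧ v.count a ≤ u.count a + C := by
  classical
  have := Fintype.ofFinite A
  obtain ⟨F, hF, hd⟩ := dickson_label (ι := A ⊕ A) (Λ := Option A × Option A)
    (X := {p : List A × List A // p.1 ∈ leastLang π ∧ p.2 ∈ leastLang π ∧
      val π p.1 * g = val π p.2})
    (fun p => Sum.elim (fun a => p.1.1.count a) (fun a => p.1.2.count a))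
    (fun p => ((p.1.1.filter T).head?, (p.1.2.filter T).head?))
  refine ⟨hF.toFinset.sup (fun p => p.1.1.length + p.1.2.length), fun u hu v hv huv a => ?_⟩
  obtain ⟨⟨⟨f, f'⟩, hf, hf', hff⟩, hmem, hlab, hle⟩ := hd ⟨(u, v), hu, hv, huv⟩
  have hC : f.length + f'.length ≤ hF.toFinset.sup (fun p => p.1.1.length + p.1.2.length) :=
    Finset.le_sup (f := fun p : {p : List A × List A // p.1 ∈ leastLang π ∧ p.2 ∈ leastLang π ∧
      val π p.1 * g = val π p.2} => p.1.1.length + p.1.2.length) (hF.mem_toFinset.2 hmem)
  simp only [Prod.mk.injEq] at hlab hf hf' hff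
  have hTu : f.filter T = u.filter T := eq_of_head (S.filter_len hf) (S.filter_len hu) hlab.1
  have hTv : f'.filter T = v.filter T := eq_of_head (S.filter_len hf') (S.filter_len hv) hlab.2
  have pu : (f ++ u.diff f).Perm u :=
    List.subperm_append_diff_self_of_count_le (fun a _ => hle (Sum.inl a))
  have pv : (f' ++ v.diff f').Perm v :=
    List.subperm_append_diff_self_of_count_le (fun a _ => hle (Sum.inr a))
  have hK : u.diff f ∈ leastLang π := S.sub (List.diff_sublist _ _) hu
  have hK' : v.diff f' ∈ leastLang π := S.sub (List.diff_sublist _ _) hv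
  have hKT : (u.diff f).filter T = [] := by
    have h1 := (pu.filter T).length_eq
    rw [List.filter_append, List.length_append, hTu] at h1
    exact List.eq_nil_of_length_eq_zero (by omega)
  have hKT' : (v.diff f').filter T = [] := by
    have h1 := (pv.filter T).length_eq
    rw [List.filter_append, List.length_append, hTv] at h1
    exact List.eq_nil_of_length_eq_zero (by omega)
  have qu : (u.map ν).prod = ((u.diff f).map ν).prod * (f.map ν).prod := by
    rw [← (pu.map ν).prod_eq, List.map_append, List.prod_append, mul_comm]
  have qv : (v.map ν).prod = ((v.diff f').map ν).prod * (f'.map ν).prod := by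
    rw [← (pv.map ν).prod_eq, List.map_append, List.prod_append, mul_comm]
  have e1 := huv
  rw [S.val_form hu, S.val_form hv, qu, qv, map_mul, map_mul] at e1
  have e2 := hff
  rw [S.val_form hf, S.val_form hf', hTu, hTv] at e2
  have e3 : ι ((u.diff f).map ν).prod = ι ((v.diff f').map ν).prod := by
    have e4 : ι ((u.diff f).map ν).prod * (ι (f.map ν).prod * val π (u.filter T) * g) =
        ι ((v.diff f').map ν).prod * (ι (f'.map ν).prod * val π (v.filter T)) := by
      simpa only [mul_assoc] using e1
    rw [e2] at e4
    exact mul_right_cancel e4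
  have hKK : u.diff f = v.diff f' := by
    apply least_unique π hK hK'
    rw [S.val_form hK, S.val_form hK', hKT, hKT', e3]
  have c1 := pu.count_eq a
  have c2 := pv.count_eq a
  rw [List.count_append] at c1 c2
  rw [hKK] at c1
  have c3 : f.count a ≤ f.length := List.count_le_length
  have c4 : f'.count a ≤ f'.length := List.count_le_length
  omega

theorem ft_bound [Finite A] (S : Setup π ι ν T) (C : ℕ) : ∃ D : Set G, D.Finite ∧
    ∀ u ∈ leastLang π, ∀ v ∈ leastLang π,
      (∀ a, u.count a ≤ v.count a + C ∧ v.count a ≤ u.count a + C) →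
      ∀ t, (val π (u.take t))⁻¹ * val π (v.take t) ∈ D := by
  classical
  have := Fintype.ofFinite A
  set C' : ℕ := C + Fintype.card A * C with hC'
  have hE : {e : List A | e.length ≤ 1}.Finite := List.finite_length_le A 1
  refine ⟨(fun p : List A × (A → ℤ) × List A =>
      (val π p.1)⁻¹ * ι (∏ a, ν a ^ p.2.1 a) * val π p.2.2) ''
      ({e : List A | e.length ≤ 1} ×ˢ (Set.Icc (fun _ => -(C' : ℤ)) (fun _ => (C' : ℤ))) ×ˢ
        {e : List A | e.length ≤ 1}), ?_, ?_⟩
  · exact (hE.prod ((Set.finite_Icc _ _).prod hE)).image _
  · intro u hu v hv huv t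
    have hut : u.take t ∈ leastLang π := S.sub (List.take_sublist _ _) hu
    have hvt : v.take t ∈ leastLang π := S.sub (List.take_sublist _ _) hv
    refine ⟨((u.take t).filter T, fun a => ((v.take t).count a : ℤ) - ((u.take t).count a : ℤ),
      (v.take t).filter T), ⟨S.filter_len hut, ?_, S.filter_len hvt⟩, ?_⟩
    · have key : ∀ a, (v.take t).count a ≤ (u.take t).count a + C' ∧
          (u.take t).count a ≤ (v.take t).count a + C' := by
        intro a
        rw [count_take (S.sorted hu), count_take (S.sorted hv)]
        have h1 := huv a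
        have h2 := countP_bound (fun a => (huv a).1) (fun b => decide (b < a))
        have h3 := countP_bound (fun a => (huv a).2) (fun b => decide (b < a))
        rw [hC']
        constructor <;> omega
      refine ⟨fun a => ?_, fun a => ?_⟩
      · have := (key a).2
        simp only
        omega
      · have := (key a).1
        simp only
        omega
    · simp only
      rw [S.val_form hut, S.val_form hvt, prod_map_count, prod_map_count]
      have e1 : (∏ a, ν a ^ (((v.take t).count a : ℤ) - ((u.take t).count a : ℤ))) =
          (∏ a, ν a ^ (u.take t).count a)⁻¹ * ∏ a, ν a ^ (v.take t).count a := by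
        rw [← Finset.prod_inv_distrib, ← Finset.prod_mul_distrib]
        apply Finset.prod_congr rfl
        intro a _
        rw [zpow_sub, zpow_natCast, zpow_natCast, mul_comm]
      rw [e1, map_mul, map_inv]
      group

theorem isAutomaticStructure [Finite A] (S : Setup π ι ν T) :
    IsAutomaticStructure π (leastLang π) := by
  refine ⟨S.regular_least, fun g => ?_, fun a _ => ?_⟩
  · obtain ⟨w, hw⟩ := S.surj g
    obtain ⟨u, hu, huw⟩ := exists_least π w
    exact ⟨u, hu, huw.trans hw⟩
  · obtain ⟨C, hC⟩ := S.bound (val π a)
    obtain ⟨D, hD, h⟩ := S.ft_bound C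
    have := regular_mult π (leastLang π) S.regular_least (val π a) D hD
      (fun u hu v hv huv => h u hu v hv (hC u hu v hv huv))
    simpa only [val_append] using this

end Setup

end Pool.Agent.SLA
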