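import Mathlib
import Pool.Agent.SLA.Bound
import Pool.Agent.SLA.Balls
/-!
# Finitely generated virtually abelian groups are ShortLex-automatic for some generating set
-/
namespace Pool.Agent.SLA
open Pool.Agent.SLX
open scoped Pointwise

section words
variable {A G : Type} [Group G] {π : A → G} {T : A → Prop} {S : Set G} {k c : ℕ}

/-- strings without letters of `T` -/
theorem free_mem (hS : ∀ a, ¬ T a → π a ∈ S ^ k) (w : List A) (hw : ∀ a ∈ w, ¬ T a) :
    val π w ∈ S ^ (k * w.length) := by
  induction w with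
  | nil => simp [val]
  | cons a w ih =>
    have h1 : val π (a :: w) = π a * val π w := by simp [val]
    rw [h1, List.length_cons, mul_add, mul_one, add_comm, pow_add]
    exact Set.mul_mem_mul (hS a (hw a (by simp))) (ih fun b hb => hw b (by simp [hb]))

theorem exists_free (hS : ∀ s ∈ S ^ k, ∃ a, ¬ T a ∧ π a = s) (n : ℕ) :
    ∀ z ∈ S ^ (k * n), ∃ w : List A, w.length = n ∧ (∀ a ∈ w, ¬ T a) ∧ val π w = z := by
  induction n with
  | zero =>
    intro z hz
    simp only [mul_zero, pow_zero, Set.mem_one] at hz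
    subst hz
    exact ⟨[], rfl, by simp, by simp [val]⟩
  | succ n ih =>
    intro z hz
    rw [mul_add, mul_one, add_comm, pow_add] at hz
    obtain ⟨s, hs, y, hy, rfl⟩ := Set.mem_mul.1 hz
    obtain ⟨a, ha, rfl⟩ := hS s hs
    obtain ⟨w, h1, h2, rfl⟩ := ih y hy
    refine ⟨a :: w, by simp [h1], ?_, by simp [val]⟩
    intro b hb
    rcases List.mem_cons.1 hb with rfl | hb
    · exact ha
    · exact h2 b hb

end words

theorem exists_alphabet {G : Type} (P Q : Set G) (hP : P.Finite) (hQ : Q.Finite) :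
    ∃ (A : Type) (_ : Finite A) (_ : LinearOrder A) (π : A → G) (T : A → Prop),
      (∀ a, ¬ T a → π a ∈ P) ∧ (∀ s ∈ P, ∃ a, ¬ T a ∧ π a = s) ∧ (∀ a, T a → π a ∈ Q) ∧
      (∀ s ∈ Q, ∃ a, T a ∧ π a = s) ∧ ∀ a b, ¬ T a → T b → a < b := by
  classical
  have hP' : Finite ↥P := hP.to_subtype
  have hQ' : Finite ↥Q := hQ.to_subtype
  refine ⟨Fin (Nat.card ↥P) ⊕ₗ Fin (Nat.card ↥Q), inferInstance, inferInstance,
    fun a => Sum.elim (fun i => (((Finite.equivFin ↥P).symm i : ↥P) : G))
      (fun i => (((Finite.equivFin ↥Q).symm i : ↥Q) : G)) (ofLex a),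
    fun a => ∃ i, a = toLex (Sum.inr i), ?_, ?_, ?_, ?_, ?_⟩
  · intro a ha
    obtain ⟨i | i, rfl⟩ := toLex.surjective a
    · exact ((Finite.equivFin ↥P).symm i).2
    · exact absurd ⟨i, rfl⟩ ha
  · intro s hs
    refine ⟨toLex (Sum.inl (Finite.equivFin ↥P ⟨s, hs⟩)), ?_, ?_⟩
    · rintro ⟨i, hi⟩
      exact absurd (toLex.injective hi) (by simp)
    · change (((Finite.equivFin ↥P).symm (Finite.equivFin ↥P ⟨s, hs⟩) : ↥P) : G) = s
      rw [Equiv.symm_apply_apply]
  · rintro a ⟨i, rfl⟩
    exact ((Finite.equivFin ↥Q).symm i).2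
  · intro s hs
    refine ⟨toLex (Sum.inr (Finite.equivFin ↥Q ⟨s, hs⟩)), ⟨_, rfl⟩, ?_⟩
    change (((Finite.equivFin ↥Q).symm (Finite.equivFin ↥Q ⟨s, hs⟩) : ↥Q) : G) = s
    rw [Equiv.symm_apply_apply]
  · rintro a b ha ⟨j, rfl⟩
    obtain ⟨i | i, rfl⟩ := toLex.surjective a
    · exact Sum.Lex.inl_lt_inr i j
    · exact absurd ⟨i, rfl⟩ ha

theorem main_aux {G : Type} [Group G] (N : Subgroup G) [N.Normal] [N.FiniteIndex]
    (hab : ∀ a ∈ N, ∀ b ∈ N, a * b = b * a) (hfg : N.FG) : ShortLexAutomatic G := by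
  classical
  obtain ⟨S, hSf, hS1, hSN, hSc, hSg⟩ := exists_balls N hab hfg
  have hSNn : ∀ n : ℕ, ∀ x ∈ S ^ n, x ∈ N := by
    intro n
    induction n with
    | zero =>
      intro x hx
      simp only [pow_zero, Set.mem_one] at hx
      subst hx
      exact N.one_mem
    | succ n ih =>
      intro x hx
      rw [pow_succ] at hx
      obtain ⟨a, ha, b, hb, rfl⟩ := Set.mem_mul.1 hx
      exact N.mul_mem (ih a ha) (hSN hb)
  have hmono : ∀ {m n : ℕ}, m ≤ n → S ^ m ⊆ S ^ n := fun h => Set.pow_subset_pow_right hS1 h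
  -- the transversal
  set t : G ⧸ N → G := fun j => if j = 1 then 1 else j.out with ht
  have ht1 : t 1 = 1 := by simp [ht]
  have htq : ∀ j : G ⧸ N, ((t j : G) : G ⧸ N) = j := by
    intro j
    by_cases hj : j = 1
    · simp [ht, hj]
    · simp [ht, hj]
  have hmemN : ∀ g : G, g * (t (g : G ⧸ N))⁻¹ ∈ N := by
    intro g
    rw [← QuotientGroup.eq_one_iff]
    simp [htq]
  have hcoset : ∀ z ∈ N, ∀ g : G, ((z * g : G) : G ⧸ N) = (g : G ⧸ N) := by
    intro z hz g
    rw [QuotientGroup.mk_mul, (QuotientGroup.eq_one_iff z).2 hz, one_mul]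
  -- the cocycle
  have hc : ∀ p : (G ⧸ N) × (G ⧸ N), ∃ n : ℕ, t p.1 * t p.2 * (t (p.1 * p.2))⁻¹ ∈ S ^ n := by
    intro p
    apply hSg
    have := hmemN (t p.1 * t p.2)
    rwa [QuotientGroup.mk_mul, htq, htq] at this
  choose cf hcf using hc
  have : Finite (G ⧸ N) := inferInstance
  have := Fintype.ofFinite (G ⧸ N)
  set c : ℕ := Finset.univ.sup cf with hcdef
  have hcc : ∀ i j : G ⧸ N, t i * t j * (t (i * j))⁻¹ ∈ S ^ c := fun i j =>
    hmono (Finset.le_sup (f := cf) (Finset.mem_univ (i, j))) (hcf (i, j))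
  set k : ℕ := c + 1 with hk
  -- the alphabet
  obtain ⟨A, hAf, hAl, π, T, hA1, hA2, hA3', hA4', hA5⟩ := exists_alphabet (S ^ k)
    {g | ∃ x ∈ S, ∃ i : G ⧸ N, i ≠ 1 ∧ g = x * t i} (finite_pow hSf k) (by
      have : {g | ∃ x ∈ S, ∃ i : G ⧸ N, i ≠ 1 ∧ g = x * t i} ⊆
          (fun p : G × (G ⧸ N) => p.1 * t p.2) '' (S ×ˢ Set.univ) := by
        rintro g ⟨x, hx, i, _, rfl⟩
        exact ⟨(x, i), ⟨hx, trivial⟩, rfl⟩
      exact ((hSf.prod (Set.toFinite _)).image _).subset this)
  have hA3 : ∀ a : A, T a → ∃ x ∈ S, ∃ i : G ⧸ N, i ≠ 1 ∧ π a = x * t i := hA3'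
  have hA4 : ∀ x ∈ S, ∀ i : G ⧸ N, i ≠ 1 → ∃ a : A, T a ∧ π a = x * t i :=
    fun x hx i hi => hA4' _ ⟨x, hx, i, hi, rfl⟩
  let hNc : CommGroup N := { N.toGroup with
    mul_comm := fun a b => Subtype.ext (hab a.1 a.2 b.1 b.2) }
  let ν : A → N := fun a => if h : T a then 1 else ⟨π a, hSNn k _ (hA1 a h)⟩
  have hval : ∀ (a : A) (w : List A), val π (a :: w) = π a * val π w := by
    intro a w
    simp [val]
  -- strings with a letter of `T`
  have hTw : ∀ w : List A, (∃ a ∈ w, T a) →
      val π w * (t ((val π w : G) : G ⧸ N))⁻¹ ∈ S ^ (k * w.length - c) := by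
    intro w
    induction w with
    | nil => simp
    | cons a w ih =>
      intro hw
      rw [hval, List.length_cons]
      by_cases ha : T a
      · obtain ⟨x, hx, i, hi, hπ⟩ := hA3 a ha
        by_cases hw' : ∃ b ∈ w, T b
        · have h1 := ih hw'
          set z : G := val π w * (t ((val π w : G) : G ⧸ N))⁻¹ with hz
          set j : G ⧸ N := ((val π w : G) : G ⧸ N) with hj
          have hvw : val π w = z * t j := by simp [hz]
          have hzN : z ∈ N := hSNn _ _ h1
          have hq : ((π a * val π w : G) : G ⧸ N) = i * j := by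
            rw [hπ, mul_assoc, hcoset x (hSN hx), QuotientGroup.mk_mul, htq]
          rw [hq, hπ, hvw]
          have e1 : x * t i * (z * t j) * (t (i * j))⁻¹ =
              x * (t i * z * (t i)⁻¹) * (t i * t j * (t (i * j))⁻¹) := by group
          rw [e1]
          have hlen : 0 < w.length := by
            obtain ⟨b, hb, _⟩ := hw'
            exact List.length_pos_of_mem hb
          have h2 : x * (t i * z * (t i)⁻¹) * (t i * t j * (t (i * j))⁻¹) ∈
              S ^ 1 * S ^ (k * w.length - c) * S ^ c :=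
            Set.mul_mem_mul (Set.mul_mem_mul (by simpa using hx) (conj_pow hSc _ _ _ h1)) (hcc i j)
          rw [← pow_add, ← pow_add] at h2
          refine hmono ?_ h2
          have h3 : k * 1 ≤ k * w.length := Nat.mul_le_mul_left _ hlen
          rw [mul_add]
          omega
        · push Not at hw'
          have h1 := free_mem hA1 w hw'
          have hzN : val π w ∈ N := hSNn _ _ h1
          have hq : ((π a * val π w : G) : G ⧸ N) = i := by
            rw [hπ, mul_assoc, hcoset x (hSN hx), QuotientGroup.mk_mul, htq,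
              (QuotientGroup.eq_one_iff _).2 hzN, mul_one]
          rw [hq, hπ]
          have e1 : x * t i * val π w * (t i)⁻¹ = x * (t i * val π w * (t i)⁻¹) := by group
          rw [e1]
          have h2 : x * (t i * val π w * (t i)⁻¹) ∈ S ^ 1 * S ^ (k * w.length) :=
            Set.mul_mem_mul (by simpa using hx) (conj_pow hSc _ _ _ h1)
          rw [← pow_add] at h2
          refine hmono ?_ h2
          rw [mul_add]
          omega
      · have hw' : ∃ b ∈ w, T b := by
          obtain ⟨b, hb, hTb⟩ := hw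
          rcases List.mem_cons.1 hb with rfl | hb
          · exact absurd hTb ha
          · exact ⟨b, hb, hTb⟩
        have h1 := ih hw'
        have h2 := hA1 a ha
        rw [hcoset _ (hSNn _ _ h2), mul_assoc]
        have h3 := Set.mul_mem_mul h2 h1
        rw [← pow_add] at h3
        refine hmono ?_ h3
        have hlen : 0 < w.length := by
          obtain ⟨b, hb, _⟩ := hw'
          exact List.length_pos_of_mem hb
        have h4 : k * 1 ≤ k * w.length := Nat.mul_le_mul_left _ hlen
        rw [mul_add]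
        omega
  -- existence of good strings
  have hex : ∀ n : ℕ, ∀ z ∈ S ^ (k * n + 1), ∀ j : G ⧸ N, j ≠ 1 → ∃ (w : List A) (b : A),
      w.length = n ∧ (∀ a ∈ w, ¬ T a) ∧ val π (w ++ [b]) = z * t j := by
    intro n z hz j hj
    rw [pow_add, pow_one] at hz
    obtain ⟨y, hy, x, hx, rfl⟩ := Set.mem_mul.1 hz
    obtain ⟨w, h1, h2, h3⟩ := exists_free hA2 n y hy
    obtain ⟨b, hb, hb2⟩ := hA4 x hx j hj
    refine ⟨w, b, h1, h2, ?_⟩
    rw [val_append, h3]
    simp [val, hb2, mul_assoc]
  have hset : Setup π N.subtype ν T := by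
    refine ⟨?_, ?_, ?_, ?_, ?_⟩
    · intro a ha
      simp [ν, ha]
    · intro a ha
      simp [ν, ha]
    · exact hA5
    · intro a w ha hw
      have hlen : 0 < w.length := List.length_pos_of_ne_nil hw
      have h1 := hTw (a :: w) ⟨a, by simp, ha⟩
      rw [List.length_cons] at h1
      set g : G := val π (a :: w) with hg
      have h2 : k * (w.length + 1) - c = k * w.length + 1 := by
        rw [mul_add]
        omega
      rw [h2] at h1
      by_cases hq : (g : G ⧸ N) = 1
      · rw [hq, ht1, inv_one, mul_one] at h1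
        have h3 : g ∈ S ^ (k * (w.length + 1)) := hmono (by rw [mul_add]; omega) h1
        obtain ⟨w', h4, h5, h6⟩ := exists_free hA2 _ g h3
        rcases w' with _ | ⟨b, w'⟩
        · simp at h4
        · exact ⟨b, w', h5 b (by simp), by simpa using h4, h6⟩
      · obtain ⟨w', b, h4, h5, h6⟩ := hex _ _ h1 _ hq
        rcases w' with _ | ⟨b', w'⟩
        · simp only [List.length_nil] at h4
          omega
        · refine ⟨b', w' ++ [b], h5 b' (by simp), ?_, ?_⟩
          · simp only [List.length_cons] at h4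
            simp [h4]
          · rw [← List.cons_append, h6]
            simp
    · intro g
      obtain ⟨m, hm⟩ := hSg _ (hmemN g)
      by_cases hq : (g : G ⧸ N) = 1
      · rw [hq, ht1, inv_one, mul_one] at hm
        have h3 : g ∈ S ^ (k * m) := hmono (Nat.le_mul_of_pos_left _ (by omega)) hm
        obtain ⟨w, _, _, h6⟩ := exists_free hA2 _ g h3
        exact ⟨w, h6⟩
      · have h3 : g * (t (g : G ⧸ N))⁻¹ ∈ S ^ (k * m + 1) :=
          hmono ((Nat.le_mul_of_pos_left m (by omega : 0 < k)).trans (Nat.le_succ _)) hm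
        obtain ⟨w, b, _, _, h6⟩ := hex _ _ h3 _ hq
        exact ⟨w ++ [b], by rw [h6]; simp⟩
  exact ⟨A, hAf, hAl, π, hset.isAutomaticStructure⟩

/-- **Finitely generated virtually abelian groups are ShortLex-automatic** with respect to some
finite ordered monoid generating set. -/
theorem main {G : Type} [Group G] (hG : Group.FG G) (H : Subgroup G) (hH : H.FiniteIndex)
    (hab : ∀ a ∈ H, ∀ b ∈ H, a * b = b * a) : ShortLexAutomatic G := by
  have := hH
  have := hG
  have hfi : H.normalCore.FiniteIndex := inferInstance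
  have hfg : H.normalCore.FG := by
    rw [← Group.fg_iff_subgroup_fg]
    exact Subgroup.fg_of_index_ne_zero H.normalCore
  exact main_aux H.normalCore
    (fun a ha b hb => hab a (H.normalCore_le ha) b (H.normalCore_le hb)) hfg

/-- A group with a finite complete ShortLex system and an abelian subgroup of finite index is
ShortLex-automatic with respect to some finite ordered monoid generating set. -/
theorem of_system {G : Type} [Group G] (h : HasSystem G) (H : Subgroup G) (hH : H.FiniteIndex)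
    (hab : ∀ a ∈ H, ∀ b ∈ H, a * b = b * a) : ShortLexAutomatic G := by
  refine main ?_ H hH hab
  obtain ⟨A, hA, hl, π, E, hE⟩ := h
  rw [Group.fg_iff]
  refine ⟨Set.range π, ?_, Set.finite_range π⟩
  rw [eq_top_iff]
  intro g _
  obtain ⟨w, hw⟩ := hE.surj g
  rw [← hw]
  apply Subgroup.list_prod_mem
  intro x hx
  obtain ⟨a, _, rfl⟩ := List.mem_map.1 hx
  exact Subgroup.subset_closure ⟨a, rfl⟩

end Pool.Agent.SLA
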