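import Pool.Agent.VS.FreeQuot
/-!
# Finite direct products of ShortLex-automatic groups are automatic
-/
namespace Pool.Agent.SLA
open Pool.Agent.SLX

/-- A finite direct product of ShortLex-automatic groups is automatic. -/
theorem automatic_piS {κ : Type} [Finite κ] (K : κ → Type) [∀ i, Group (K i)]
    (h : ∀ i, ShortLexAutomatic (K i)) : Automatic (∀ i, K i) := by
  revert K
  refine Finite.induction_empty_option
    (P := fun κ : Type => ∀ (K : κ → Type) [∀ i, Group (K i)],
      (∀ i, ShortLexAutomatic (K i)) → Automatic (∀ i, K i)) ?_ ?_ ?_ κ
  · intro α β e ih K _ h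
    refine automatic_of_equiv (MulEquiv.symm (MulEquiv.ofBijective
      (MonoidHom.pi (fun a => Pi.evalMonoidHom K (e a))) ⟨?_, ?_⟩))
      (ih (fun a => K (e a)) (fun a => h (e a)))
    · intro f g hfg
      funext i
      obtain ⟨a, rfl⟩ := e.surjective i
      exact congrFun hfg a
    · intro f
      refine ⟨fun i => cast (by rw [e.apply_symm_apply]) (f (e.symm i)), ?_⟩
      funext a
      have key : ∀ (i : α) (hi : i = a) (hc : K (e i) = K (e a)), cast hc (f i) = f a := by
        rintro i rfl _
        rfl
      exact key _ (e.symm_apply_apply a) _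
  · intro K _ _
    exact (SLA.main (inferInstance) ⊤ inferInstance
      (fun a _ b _ => Subsingleton.elim _ _)).automatic
  · intro α _ ih K _ h
    refine automatic_of_equiv (MulEquiv.symm (MulEquiv.ofBijective
      (MonoidHom.prod (Pi.evalMonoidHom K none)
        (MonoidHom.pi (fun a => Pi.evalMonoidHom K (some a)))) ⟨?_, ?_⟩))
      (automatic_prod (h none) (ih (fun a => K (some a)) (fun a => h (some a))))
    · intro f g hfg
      funext i
      cases i with
      | none => exact congrArg Prod.fst hfg
      | some a => exact congrFun (congrArg Prod.snd hfg) a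
    · rintro ⟨x, f⟩
      refine ⟨fun i => match i with
        | none => x
        | some a => f a, rfl⟩

theorem sla_zm (m : ℕ) : ShortLexAutomatic (Fin m → Multiplicative ℤ) := by
  have hc : ∀ a b : (Fin m → Multiplicative ℤ), a * b = b * a := fun a b => mul_comm a b
  exact SLA.main (inferInstance) ⊤ inferInstance (fun a _ b _ => hc a b)

/-- The direct product of a free abelian group and finitely many free groups of finite rank is
automatic. -/
theorem automatic_piS_free {κ : Type} [Finite κ] (m : ℕ) (n : κ → ℕ) :
    Automatic ((Fin m → Multiplicative ℤ) × ∀ i, FreeGroup (Fin (n i))) :=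
  automatic_prod (sla_zm m) (automatic_piS _ (fun i => free_sla (n i)))

end Pool.Agent.SLA
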