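import Mathlib
import Pool.Agent.SLA.FT
/-!
# Automatic structures and the fellow traveller property
-/
namespace Pool.Agent.SLA
open Pool.Agent.SLX
open scoped Pointwise

/-- The fellow traveller property of a language. -/
def FTP {A G : Type} [Group G] (π : A → G) (L : Language A) : Prop :=
  ∀ g : G, ∃ D : Set G, D.Finite ∧ ∀ u ∈ L, ∀ v ∈ L, val π u * g = val π v →
    ∀ t, (val π (u.take t))⁻¹ * val π (v.take t) ∈ D

theorem ft_of_mult {A G : Type} [Group G] (π : A → G) (L : Language A) (g : G)
    (h : Language.IsRegular {p : List (Option A × Option A) |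
        ∃ u ∈ L, ∃ v ∈ L, val π u * g = val π v ∧ p = pad u v}) :
    ∃ D : Set G, D.Finite ∧ ∀ u ∈ L, ∀ v ∈ L, val π u * g = val π v →
      ∀ t, (val π (u.take t))⁻¹ * val π (v.take t) ∈ D := by
  classical
  set K : Language (Option A × Option A) :=
    {p : List (Option A × Option A) | ∃ u ∈ L, ∃ v ∈ L, val π u * g = val π v ∧ p = pad u v}
    with hK
  have hfin := h.finite_range_leftQuotient
  refine ⟨(fun q : Language (Option A × Option A) =>
    if hq : ∃ y, y ∈ q then val π (hq.choose.filterMap Prod.fst) * g *
      (val π (hq.choose.filterMap Prod.snd))⁻¹ else 1) '' (Set.range K.leftQuotient),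
    hfin.image _, ?_⟩
  intro u hu v hv huv t
  refine ⟨K.leftQuotient ((pad u v).take t), ⟨_, rfl⟩, ?_⟩
  have hq : ∃ y, y ∈ K.leftQuotient ((pad u v).take t) := by
    refine ⟨(pad u v).drop t, ?_⟩
    change (pad u v).take t ++ (pad u v).drop t ∈ K
    rw [List.take_append_drop]
    exact ⟨u, hu, v, hv, huv, rfl⟩
  simp only [hq, dif_pos]
  set y := hq.choose with hy
  have hyq : (pad u v).take t ++ y ∈ K := hq.choose_spec
  obtain ⟨u', hu', v', hv', huv', hp⟩ := hyq
  have h1 : (pad u v).take t = pad (u.take t) (v.take t) := take_pad u v t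
  have hu1 : u' = u.take t ++ y.filterMap Prod.fst := by
    have := congrArg (List.filterMap Prod.fst) hp
    rw [fst_pad, List.filterMap_append, h1, fst_pad] at this
    exact this.symm
  have hv1 : v' = v.take t ++ y.filterMap Prod.snd := by
    have := congrArg (List.filterMap Prod.snd) hp
    rw [snd_pad, List.filterMap_append, h1, snd_pad] at this
    exact this.symm
  rw [hu1, hv1, val_append, val_append] at huv'
  have h2 : val π (List.filterMap Prod.fst y) * g =
      (val π (u.take t))⁻¹ * (val π (v.take t) * val π (List.filterMap Prod.snd y)) := by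
    rw [← huv']
    group
  rw [h2]
  group

theorem ftp_of_structure {A G : Type} [Group G] {π : A → G} {L : Language A}
    (h : IsAutomaticStructure π L) : FTP π L := by
  obtain ⟨_, hs, hm⟩ := h
  have key : ∀ w : List A, ∃ D : Set G, D.Finite ∧ ∀ u ∈ L, ∀ v ∈ L,
      val π u * val π w = val π v → ∀ t, (val π (u.take t))⁻¹ * val π (v.take t) ∈ D := by
    intro w
    induction w with
    | nil =>
      apply ft_of_mult
      simpa only [val_append] using hm [] (by simp)
    | cons a w ih =>
      obtain ⟨D2, hD2, h2⟩ := ih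
      obtain ⟨D1, hD1, h1⟩ := ft_of_mult π L (val π [a])
        (by simpa only [val_append] using hm [a] (by simp))
      refine ⟨D1 * D2, hD1.mul hD2, ?_⟩
      intro u hu v hv huv t
      obtain ⟨x, hx, hxv⟩ := hs (val π u * val π [a])
      have e1 := h1 u hu x hx hxv.symm t
      have e2 := h2 x hx v hv (by
        rw [hxv, mul_assoc, ← huv]
        congr 1
        rw [← val_append]
        rfl) t
      refine Set.mem_mul.2 ⟨_, e1, _, e2, ?_⟩
      group
  intro g
  obtain ⟨w, _, hw⟩ := hs g
  obtain ⟨D, hD, h⟩ := key w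
  exact ⟨D, hD, by rw [← hw]; exact h⟩

theorem structure_of_ftp {A G : Type} [Group G] {π : A → G} {L : Language A}
    (hL : L.IsRegular) (hs : ∀ g : G, ∃ u ∈ L, val π u = g) (h : FTP π L) :
    IsAutomaticStructure π L := by
  refine ⟨hL, hs, fun a _ => ?_⟩
  obtain ⟨D, hD, h'⟩ := h (val π a)
  have := regular_mult π L hL (val π a) D hD h'
  simpa only [val_append] using this

end Pool.Agent.SLA
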