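import Mathlib
import Pool.Agent.SLA.Conv
/-!
# Direct products of automatic groups
-/
namespace Pool.Agent.SLA
open Pool.Agent.SLX
open scoped Pointwise

/-- lengths of words for nearby elements are close -/
def LBP {A G : Type} [Group G] (π : A → G) (L : Language A) : Prop :=
  ∀ g : G, ∃ c : ℕ, ∀ u ∈ L, ∀ v ∈ L, val π u * g = val π v →
    u.length ≤ v.length + c ∧ v.length ≤ u.length + c

theorem least_length_le {A G : Type} [LinearOrder A] [Group G] {π : A → G} {u w : List A}
    (hu : u ∈ leastLang π) (h : val π w = val π u) : u.length ≤ w.length := by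
  by_contra hlt
  push Not at hlt
  exact hu w h (List.Shortlex.of_length_lt hlt)

theorem lbp_least {A G : Type} [LinearOrder A] [Group G] {π : A → G}
    (hs : ∀ g : G, ∃ u ∈ leastLang π, val π u = g) : LBP π (leastLang π) := by
  intro g
  obtain ⟨w, _, hw⟩ := hs g
  obtain ⟨w', _, hw'⟩ := hs g⁻¹
  refine ⟨w.length + w'.length, fun u hu v hv huv => ⟨?_, ?_⟩⟩
  · have h1 := least_length_le hu (w := v ++ w') (by
      rw [val_append, hw', ← huv]
      group)
    rw [List.length_append] at h1
    omega
  · have h1 := least_length_le hv (w := u ++ w) (by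
      rw [val_append, hw, huv])
    rw [List.length_append] at h1
    omega

theorem words_finite {A G : Type} [Finite A] [Group G] (π : A → G) (c : ℕ) :
    (val π '' {w : List A | w.length ≤ c}).Finite :=
  (List.finite_length_le A c).image _

section prod
variable {A B G K : Type} [Group G] [Group K]

/-- the letters of the product -/
def prodLet (π : A → G) (ρ : B → K) : A ⊕ B → G × K :=
  Sum.elim (fun a => (π a, 1)) (fun b => (1, ρ b))

theorem val_inl (π : A → G) (ρ : B → K) (u : List A) :
    val (prodLet π ρ) (u.map Sum.inl) = (val π u, 1) := by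
  induction u with
  | nil => rfl
  | cons a u ih =>
    have h1 : val (prodLet π ρ) ((a :: u).map Sum.inl) =
      (π a, 1) * val (prodLet π ρ) (u.map Sum.inl) := by simp [val, prodLet]
    have h2 : val π (a :: u) = π a * val π u := by simp [val]
    rw [h1, ih, h2]
    simp

theorem val_inr (π : A → G) (ρ : B → K) (u : List B) :
    val (prodLet π ρ) (u.map Sum.inr) = (1, val ρ u) := by
  induction u with
  | nil => rfl
  | cons a u ih =>
    have h1 : val (prodLet π ρ) ((a :: u).map Sum.inr) =
      (1, ρ a) * val (prodLet π ρ) (u.map Sum.inr) := by simp [val, prodLet]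
    have h2 : val ρ (a :: u) = ρ a * val ρ u := by simp [val]
    rw [h1, ih, h2]
    simp

theorem filter_inl (z : List A) :
    (z.map (Sum.inl : A → A ⊕ B)).filterMap Sum.getLeft? = z := by
  induction z with
  | nil => rfl
  | cons a z ih => simp [ih]

theorem filter_inl' (z : List A) :
    (z.map (Sum.inl : A → A ⊕ B)).filterMap Sum.getRight? = [] := by
  induction z with
  | nil => rfl
  | cons a z ih => simp [ih]

theorem filter_inr (z : List B) :
    (z.map (Sum.inr : B → A ⊕ B)).filterMap Sum.getRight? = z := by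
  induction z with
  | nil => rfl
  | cons a z ih => simp [ih]

theorem filter_inr' (z : List B) :
    (z.map (Sum.inr : B → A ⊕ B)).filterMap Sum.getLeft? = [] := by
  induction z with
  | nil => rfl
  | cons a z ih => simp [ih]

/-- the product language -/
def prodLang (L : Language A) (M : Language B) : Language (A ⊕ B) :=
  {w : List (A ⊕ B) | ∃ u ∈ L, ∃ v ∈ M, w = u.map Sum.inl ++ v.map Sum.inr}

theorem prodLang_regular {L : Language A} {M : Language B} (hL : L.IsRegular)
    (hM : M.IsRegular) : (prodLang L M).IsRegular := by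
  classical
  refine regular_of_data (S := Prop × Prop × Set (List A) × Prop × Set (List B)) _
    (fun x => ((∃ x1 : List A, x = x1.map Sum.inl),
      (∃ (x1 : List A) (x2 : List B), x = x1.map Sum.inl ++ x2.map Sum.inr),
      L.leftQuotient (x.filterMap Sum.getLeft?), x.filterMap Sum.getLeft? ∈ L,
      M.leftQuotient (x.filterMap Sum.getRight?)))
    (Set.univ ×ˢ Set.univ ×ˢ Set.range L.leftQuotient ×ˢ Set.univ ×ˢ Set.range M.leftQuotient)
    ?_ ?_ ?_
  · exact (Set.toFinite _).prod ((Set.toFinite _).prod (hL.finite_range_leftQuotient.prod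
      ((Set.toFinite _).prod hM.finite_range_leftQuotient)))
  · intro x y _
    exact ⟨trivial, trivial, ⟨_, rfl⟩, trivial, ⟨_, rfl⟩⟩
  · rintro x x' hxx y ⟨u, hu, v, hv, hxy⟩
    simp only [Prod.mk.injEq] at hxx
    obtain ⟨e1, e2, e3, e4, e5⟩ := hxx
    rcases List.append_eq_append_iff.1 hxy with ⟨a, h1, h2⟩ | ⟨a, h1, h2⟩
    · -- `x` is a prefix of the first part
      obtain ⟨x1, y1, hu1, hx1, hy1⟩ := List.append_eq_map_iff.1 h1.symm
      obtain ⟨x1', hx1'⟩ : ∃ x1' : List A, x' = x1'.map Sum.inl := by
        rw [← e1]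
        exact ⟨x1, hx1.symm⟩
      rw [← hx1, hx1', filter_inl, filter_inl] at e3
      have h3 : y1 ∈ L.leftQuotient x1 := by
        change x1 ++ y1 ∈ L
        rw [← hu1]
        exact hu
      rw [e3] at h3
      refine ⟨x1' ++ y1, h3, v, hv, ?_⟩
      rw [h2, hx1', ← hy1, List.map_append, List.append_assoc]
    · -- `x` ends in the second part
      obtain ⟨v1, v2, hv1, hx2, hy2⟩ := List.append_eq_map_iff.1 h2.symm
      have hx : x = u.map Sum.inl ++ v1.map Sum.inr := by rw [h1, hx2]
      obtain ⟨x1', x2', hx'⟩ : ∃ (x1 : List A) (x2 : List B),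
          x' = x1.map Sum.inl ++ x2.map Sum.inr := by
        rw [← e2]
        exact ⟨u, v1, hx⟩
      rw [hx, hx', List.filterMap_append, List.filterMap_append, filter_inl, filter_inl,
        filter_inr', filter_inr', List.append_nil, List.append_nil] at e4
      rw [hx, hx', List.filterMap_append, List.filterMap_append, filter_inl', filter_inl',
        filter_inr, filter_inr, List.nil_append, List.nil_append] at e5
      have h3 : v2 ∈ M.leftQuotient v1 := by
        change v1 ++ v2 ∈ M
        rw [← hv1]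
        exact hv
      rw [e5] at h3
      refine ⟨x1', ?_, x2' ++ v2, h3, ?_⟩
      · rw [← e4]
        exact hu
      · rw [hx', ← hy2, List.map_append, List.append_assoc]

theorem prod_ftp [Finite A] [Finite B] {π : A → G} {ρ : B → K} {L : Language A}
    {M : Language B} (h1 : FTP π L) (h2 : LBP π L) (h3 : FTP ρ M) :
    FTP (prodLet π ρ) (prodLang L M) := by
  classical
  rintro ⟨g, k⟩
  obtain ⟨D1, hD1, hd1⟩ := h1 g
  obtain ⟨c, hc⟩ := h2 g
  obtain ⟨D2, hD2, hd2⟩ := h3 k
  set W : Set K := val ρ '' {w : List B | w.length ≤ c} with hW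
  have hWf : W.Finite := words_finite ρ c
  have hW1 : (1 : K) ∈ W := ⟨[], by simp, by simp [val]⟩
  refine ⟨D1 ×ˢ (W⁻¹ * D2 * W), hD1.prod ((hWf.inv.mul hD2).mul hWf), ?_⟩
  rintro w ⟨u, hu, v, hv, rfl⟩ w' ⟨u', hu', v', hv', rfl⟩ hww n
  rw [val_append, val_append, val_inl, val_inl, val_inr, val_inr] at hww
  simp only [Prod.mk_mul_mk, Prod.mk.injEq, mul_one, one_mul] at hww
  obtain ⟨hg, hk⟩ := hww
  have e1 := hd1 u hu u' hu' hg n
  obtain ⟨l1, l2⟩ := hc u hu u' hu' hg
  have key : ∀ (u : List A) (v : List B), val (prodLet π ρ)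
      ((u.map Sum.inl ++ v.map Sum.inr).take n) =
      (val π (u.take n), val ρ (v.take (n - u.length))) := by
    intro u v
    rw [List.take_append, val_append, ← List.map_take, ← List.map_take, val_inl, val_inr,
      List.length_map]
    simp
  rw [key, key]
  refine ⟨e1, ?_⟩
  show (val ρ (v.take (n - u.length)))⁻¹ * val ρ (v'.take (n - u'.length)) ∈ W⁻¹ * D2 * W
  set s := n - u.length with hs
  set s' := n - u'.length with hs'
  rcases le_total s s' with hle | hle
  · -- `s' = s + d`, `d ≤ c`
    have e2 := hd2 v hv v' hv' hk s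
    have h4 : v'.take s' = v'.take s ++ (v'.drop s).take (s' - s) := by
      have : s' = s + (s' - s) := by omega
      conv_lhs => rw [this, List.take_add]
    rw [h4, val_append]
    refine Set.mem_mul.2 ⟨(val ρ (v.take s))⁻¹ * val ρ (v'.take s), Set.mem_mul.2
      ⟨1, ?_, _, e2, one_mul _⟩, _, ⟨(v'.drop s).take (s' - s), ?_, rfl⟩, ?_⟩
    · rw [Set.mem_inv, inv_one]
      exact hW1
    · simp only [Set.mem_ofPred_eq, List.length_take]
      omega
    · group
  · have e2 := hd2 v hv v' hv' hk s'
    have h4 : v.take s = v.take s' ++ (v.drop s').take (s - s') := by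
      have : s = s' + (s - s') := by omega
      conv_lhs => rw [this, List.take_add]
    rw [h4, val_append]
    refine Set.mem_mul.2 ⟨(val ρ ((v.drop s').take (s - s')))⁻¹ *
      ((val ρ (v.take s'))⁻¹ * val ρ (v'.take s')), Set.mem_mul.2
      ⟨_, Set.inv_mem_inv.2 ⟨(v.drop s').take (s - s'), ?_, rfl⟩, _, e2, rfl⟩, 1, hW1, ?_⟩
    · simp only [Set.mem_ofPred_eq, List.length_take]
      omega
    · group

end prod

/-- The direct product of a ShortLex-automatic group and an automatic group is automatic. -/
theorem automatic_prod {G K : Type} [Group G] [Group K] (hG : ShortLexAutomatic G)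
    (hK : Automatic K) : Automatic (G × K) := by
  obtain ⟨A, hA, hl, π, hst⟩ := hG
  obtain ⟨B, hB, ρ, M, hst'⟩ := hK
  have f1 := ftp_of_structure hst
  have f2 := ftp_of_structure hst'
  obtain ⟨r1, s1, _⟩ := hst
  obtain ⟨r2, s2, _⟩ := hst'
  refine ⟨A ⊕ B, inferInstance, prodLet π ρ, prodLang (leastLang π) M,
    structure_of_ftp (prodLang_regular r1 r2) ?_ (prod_ftp f1 (lbp_least s1) f2)⟩
  rintro ⟨g, k⟩
  obtain ⟨u, hu, hug⟩ := s1 g
  obtain ⟨v, hv, hvk⟩ := s2 k
  refine ⟨u.map Sum.inl ++ v.map Sum.inr, ⟨u, hu, v, hv, rfl⟩, ?_⟩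
  rw [val_append, val_inl, val_inr, hug, hvk]
  simp

end Pool.Agent.SLA
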