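import Mathlib
import Pool.Agent.SLA.Conv
/-!
# Finite index overgroups of automatic groups are automatic
-/
namespace Pool.Agent.SLA
open Pool.Agent.SLX
open scoped Pointwise

theorem automatic_of_fi {G : Type} [Group G] (H : Subgroup G) [H.FiniteIndex]
    (h : Automatic H) : Automatic G := by
  classical
  obtain ⟨A, hA, π, L, hst⟩ := h
  have hft := ftp_of_structure hst
  obtain ⟨hL, hs, _⟩ := hst
  set t : G ⧸ H → G := fun q => (q.out)⁻¹ with ht
  have htH : ∀ g : G, g * (t ((g⁻¹ : G) : G ⧸ H))⁻¹ ∈ H := by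
    intro g
    have h1 : ((g⁻¹ : G) : G ⧸ H) = ((((g⁻¹ : G) : G ⧸ H).out : G) : G ⧸ H) :=
      (QuotientGroup.out_eq' _).symm
    rw [QuotientGroup.eq] at h1
    simpa [ht] using h1
  let π' : A ⊕ (G ⧸ H) → G := Sum.elim (fun a => (π a : G)) t
  set L' : Language (A ⊕ (G ⧸ H)) :=
    {w : List (A ⊕ (G ⧸ H)) | ∃ u ∈ L, ∃ q, w = u.map Sum.inl ++ [Sum.inr q]} with hL'
  have hval : ∀ u : List A, val π' (u.map Sum.inl) = ((val π u : H) : G) := by
    intro u
    induction u with
    | nil => simp [val]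
    | cons a u ih =>
      have h1 : val π' ((a :: u).map Sum.inl) = (π a : G) * val π' (u.map Sum.inl) := by
        simp [val, π']
      have h2 : val π (a :: u) = π a * val π u := by simp [val]
      rw [h1, ih, h2, Subgroup.coe_mul]
  have hval1 : ∀ q : G ⧸ H, val π' [Sum.inr q] = t q := by
    intro q
    simp [val, π']
  have hfin : Finite (A ⊕ (G ⧸ H)) := inferInstance
  refine ⟨A ⊕ (G ⧸ H), hfin, π', L', structure_of_ftp ?_ ?_ ?_⟩
  · -- regular
    refine regular_of_data (S := Prop × Prop × Set (List A)) L'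
      (fun x => (∃ x1 : List A, x = x1.map Sum.inl, x ∈ L',
        L.leftQuotient (x.filterMap Sum.getLeft?)))
      (Set.univ ×ˢ Set.univ ×ˢ Set.range L.leftQuotient) ?_ ?_ ?_
    · exact (Set.toFinite _).prod ((Set.toFinite _).prod hL.finite_range_leftQuotient)
    · intro x y _
      exact ⟨trivial, trivial, _, rfl⟩
    · rintro x x' hxx y ⟨u, hu, q, hxy⟩
      simp only [Prod.mk.injEq] at hxx
      obtain ⟨e1, e2, e3⟩ := hxx
      rcases y.eq_nil_or_concat with hy | ⟨y', b, hy⟩
      · subst hy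
        rw [List.append_nil] at hxy ⊢
        have : x ∈ L' := ⟨u, hu, q, hxy⟩
        rwa [e2] at this
      · rw [List.concat_eq_append] at hy
        subst hy
        rw [← List.append_assoc] at hxy
        have h1 : x ++ y' = u.map Sum.inl ∧ b = Sum.inr q := by
          have := List.append_inj' hxy rfl
          exact ⟨this.1, by simpa using this.2⟩
        obtain ⟨h1, rfl⟩ := h1
        obtain ⟨x1, y1, hu1, hx1, hy1⟩ := List.append_eq_map_iff.1 h1
        obtain ⟨x1', hx1'⟩ : ∃ x1' : List A, x' = x1'.map Sum.inl := by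
          rw [← e1]
          exact ⟨x1, hx1.symm⟩
        have hf : ∀ z : List A, (z.map (Sum.inl : A → A ⊕ (G ⧸ H))).filterMap Sum.getLeft? = z := by
          intro z
          rw [List.filterMap_map]
          induction z with
          | nil => rfl
          | cons a z ih =>
            simp only [List.filterMap_cons, Function.comp, Sum.getLeft?_inl]
            congr 1
        rw [← hx1, hx1', hf, hf] at e3
        have h2 : y1 ∈ L.leftQuotient x1 := by
          change x1 ++ y1 ∈ L
          rw [← hu1]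
          exact hu
        rw [e3] at h2
        refine ⟨x1' ++ y1, h2, q, ?_⟩
        rw [hx1', ← hy1, List.map_append, List.append_assoc]
  · -- surjective
    intro g
    obtain ⟨u, hu, hug⟩ := hs ⟨_, htH g⟩
    refine ⟨u.map Sum.inl ++ [Sum.inr ((g⁻¹ : G) : G ⧸ H)], ⟨u, hu, _, rfl⟩, ?_⟩
    rw [val_append, hval, hval1, hug]
    simp
  · -- fellow travellers
    intro g
    have hD : ∀ p : (G ⧸ H) × (G ⧸ H), ∃ D : Set G, D.Finite ∧ ∀ u ∈ L, ∀ v ∈ L,
        ((val π u : H) : G) * (t p.1 * g * (t p.2)⁻¹) = ((val π v : H) : G) →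
        ∀ n, (((val π (u.take n) : H) : G))⁻¹ * ((val π (v.take n) : H) : G) ∈ D := by
      intro p
      by_cases hp : t p.1 * g * (t p.2)⁻¹ ∈ H
      · obtain ⟨D, hD, h⟩ := hft ⟨_, hp⟩
        refine ⟨(fun x : H => (x : G)) '' D, hD.image _, ?_⟩
        intro u hu v hv huv n
        refine ⟨_, h u hu v hv (Subtype.ext huv) n, rfl⟩
      · refine ⟨∅, Set.finite_empty, ?_⟩
        intro u hu v hv huv n
        exfalso
        apply hp
        have : t p.1 * g * (t p.2)⁻¹ = ((val π u : H) : G)⁻¹ * ((val π v : H) : G) := by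
          rw [← huv]
          group
        rw [this]
        exact H.mul_mem (H.inv_mem (val π u).2) (val π v).2
    choose D hDf hDm using hD
    set E : Set G := insert 1 (Set.range t) with hE
    have hEf : E.Finite := (Set.finite_range t).insert 1
    refine ⟨E⁻¹ * (⋃ p, D p) * E, ((hEf.inv).mul (Set.finite_iUnion hDf)).mul hEf, ?_⟩
    rintro w ⟨u, hu, q, rfl⟩ w' ⟨v, hv, q', rfl⟩ hww n
    rw [val_append, val_append, hval, hval, hval1, hval1] at hww
    have h1 := hDm (q, q') u hu v hv (by
      show ((val π u : H) : G) * (t q * g * (t q')⁻¹) = ((val π v : H) : G)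
      rw [← mul_assoc, ← mul_assoc, hww]
      group) n
    have key : ∀ (z : List A) (q : G ⧸ H), ∃ e ∈ E,
        val π' ((z.map Sum.inl ++ [Sum.inr q]).take n) = ((val π (z.take n) : H) : G) * e := by
      intro z q
      rw [List.take_append, val_append, ← List.map_take, hval]
      rcases Nat.eq_zero_or_pos (n - (z.map (Sum.inl : A → A ⊕ (G ⧸ H))).length) with h0 | h0
      · rw [h0, List.take_zero]
        exact ⟨1, Or.inl rfl, by simp [val]⟩
      · have h4 : List.take (n - (z.map (Sum.inl : A → A ⊕ (G ⧸ H))).length)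
            [(Sum.inr q : A ⊕ (G ⧸ H))] = [Sum.inr q] := List.take_of_length_le h0
        rw [h4, hval1]
        exact ⟨t q, Or.inr ⟨q, rfl⟩, rfl⟩
    obtain ⟨e, he, h2⟩ := key u q
    obtain ⟨e', he', h3⟩ := key v q'
    rw [h2, h3]
    refine Set.mem_mul.2 ⟨e⁻¹ * (((val π (u.take n) : H) : G)⁻¹ * ((val π (v.take n) : H) : G)),
      Set.mem_mul.2 ⟨e⁻¹, Set.inv_mem_inv.2 he, _, Set.mem_iUnion.2 ⟨(q, q'), h1⟩, rfl⟩, e', he',
      ?_⟩
    group

theorem automatic_of_equiv {G G' : Type} [Group G] [Group G'] (e : G ≃* G')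
    (h : Automatic G) : Automatic G' := by
  obtain ⟨A, hA, π, L, h1, h2, h3⟩ := h
  have hval : ∀ u : List A, val (fun a => e (π a)) u = e (val π u) := by
    intro u
    simp [val, map_list_prod, List.map_map, Function.comp_def]
  refine ⟨A, hA, fun a => e (π a), L, h1, fun g => ?_, fun a ha => ?_⟩
  · obtain ⟨u, hu, hug⟩ := h2 (e.symm g)
    exact ⟨u, hu, by rw [hval, hug]; simp⟩
  · have := h3 a ha
    convert this using 2
    ext p
    simp only [hval, EmbeddingLike.apply_eq_iff_eq]

end Pool.Agent.SLA
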