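import Mathlib
import Pool.Agent.SLA.Conv
import Pool.Agent.SLA.Least
/-!
# Automatic structures with unique representatives
-/
namespace Pool.Agent.SLA
open Pool.Agent.SLX
open scoped Pointwise

theorem lex_append_cases {A : Type} [LinearOrder A] {y x r z : List A} (h : y.length = x.length)
    (hl : List.Lex (· < ·) (y ++ r) (x ++ z)) :
    List.Lex (· < ·) y x ∨ (y = x ∧ List.Lex (· < ·) r z) := by
  induction y generalizing x with
  | nil =>
    cases x with
    | nil => exact Or.inr ⟨rfl, hl⟩
    | cons b x => simp at h
  | cons a y ih =>
    cases x with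
    | nil => simp at h
    | cons b x =>
      simp only [List.cons_append] at hl
      cases hl with
      | rel h1 => exact Or.inl (List.Lex.rel h1)
      | cons h1 =>
        rcases ih (by simpa using h) h1 with h2 | ⟨h2, h3⟩
        · exact Or.inl (List.Lex.cons h2)
        · exact Or.inr ⟨by rw [h2], h3⟩

theorem lex_append_both {A : Type} [LinearOrder A] {y x : List A} (h : y.length = x.length)
    (hl : List.Lex (· < ·) y x) (r z : List A) : List.Lex (· < ·) (y ++ r) (x ++ z) := by
  induction hl with
  | nil => simp at h
  | cons _ ih =>
    simp only [List.cons_append]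
    exact List.Lex.cons (ih (by simpa using h))
  | rel h1 =>
    simp only [List.cons_append]
    exact List.Lex.rel h1

/-- The language with only one string. -/
def singL {B : Type} (w : List B) : Language B := ({w} : Set (List B))

theorem reg_sing {B : Type} (w : List B) : (singL w).IsRegular := by
  refine regular_of_data (S := List B) _ (fun x => x) {x | x <+: w} ?_ ?_ ?_
  · have : {x | x <+: w} = {x | x ∈ w.inits} := by
      ext x
      simp
    rw [this]
    exact List.finite_toSet _
  · intro x y h
    have h1 : x ++ y = w := h
    exact ⟨y, h1⟩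
  · intro x x' h y hy
    have h1 : x = x' := h
    rw [← h1]
    exact hy

/-- The representatives in `L` that are ShortLex-least among those in `L` form a regular
language. -/
theorem uni_regular {A G : Type} [LinearOrder A] [Group G] {π : A → G} {L : Language A}
    (hL : L.IsRegular) (hft : FTP π L) : Language.IsRegular
      {u : List A | u ∈ L ∧ ∀ v ∈ L, val π v = val π u → ¬ List.Shortlex (· < ·) v u} := by
  classical
  obtain ⟨D, hD, hDD⟩ := hft 1
  have hfin := hL.finite_range_leftQuotient
  set T : List A → Set (G × Language A × Prop × Prop) := fun x =>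
    {τ | ∃ y : List A, y.length ≤ x.length ∧ (val π x)⁻¹ * val π y ∈ D ∧
      τ = ((val π x)⁻¹ * val π y, L.leftQuotient y, y.length < x.length,
        List.Lex (· < ·) y x)} with hT
  set F : Set (G × Language A × Prop × Prop) :=
    D ×ˢ (Set.range L.leftQuotient) ×ˢ (Set.univ : Set (Prop × Prop)) with hF
  have hFfin : F.Finite := hD.prod (hfin.prod (Set.toFinite _))
  refine regular_of_data (S := Language A × Set (G × Language A × Prop × Prop)) _
    (fun x => (L.leftQuotient x, T x)) ((Set.range L.leftQuotient) ×ˢ (𝒫 F))
    (hfin.prod hFfin.powerset) ?_ ?_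
  · intro x y _
    refine Set.mk_mem_prod ⟨x, rfl⟩ ?_
    rintro τ ⟨y, _, h2, rfl⟩
    exact ⟨h2, ⟨y, rfl⟩, Set.mem_univ _⟩
  · rintro x x' hd z ⟨hz, hmin⟩
    have e1 : L.leftQuotient x = L.leftQuotient x' := congrArg Prod.fst hd
    have e2 : T x = T x' := congrArg Prod.snd hd
    have hz' : x' ++ z ∈ L := by
      have h1 : z ∈ L.leftQuotient x := hz
      rw [e1] at h1
      exact h1
    refine ⟨hz', ?_⟩
    intro v hv hval hlt
    have hd1 : ∀ t, (val π (List.take t (x' ++ z)))⁻¹ * val π (v.take t) ∈ D :=
      hDD _ hz' v hv (by rw [hval, mul_one])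
    by_cases hlen : v.length < x'.length
    · have h1 := hd1 x'.length
      rw [List.take_append_of_le_length le_rfl, List.take_length,
        List.take_of_length_le hlen.le] at h1
      have h2 : ((val π x')⁻¹ * val π v, L.leftQuotient v, v.length < x'.length,
          List.Lex (· < ·) v x') ∈ T x' := ⟨v, hlen.le, h1, rfl⟩
      rw [← e2] at h2
      obtain ⟨y, hy1, hy2, hy3⟩ := h2
      simp only [Prod.mk.injEq] at hy3
      obtain ⟨a1, a2, a3, _⟩ := hy3
      have hyL : y ∈ L := by
        have h3 : [] ∈ L.leftQuotient v := by
          change v ++ [] ∈ L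
          rw [List.append_nil]
          exact hv
        rw [a2] at h3
        have h4 : y ++ [] ∈ L := h3
        rwa [List.append_nil] at h4
      have hylen : y.length < x.length := by
        rw [← a3]
        exact hlen
      refine hmin y hyL ?_ ?_
      · have : val π y = val π x * ((val π x')⁻¹ * val π v) := by
          rw [a1]
          group
        rw [this, hval, val_append, val_append]
        group
      · apply List.Shortlex.of_length_lt
        rw [List.length_append]
        omega
    · push Not at hlen
      obtain ⟨y', r, rfl, hy'⟩ : ∃ y' r, v = y' ++ r ∧ y'.length = x'.length :=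
        ⟨v.take x'.length, v.drop x'.length, (List.take_append_drop _ _).symm, by
          rw [List.length_take]; omega⟩
      have h1 := hd1 x'.length
      rw [List.take_append_of_le_length le_rfl, List.take_length,
        List.take_append_of_le_length hy'.ge, List.take_of_length_le hy'.le] at h1
      by_cases hyx : y' = x'
      · subst hyx
        have hr : List.Shortlex (· < ·) r z := by
          rcases List.shortlex_def.1 hlt with h3 | ⟨h3, h4⟩
          · apply List.Shortlex.of_length_lt
            rw [List.length_append, List.length_append] at h3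
            omega
          · apply List.Shortlex.of_lex
            · rw [List.length_append, List.length_append] at h3
              omega
            · rcases lex_append_cases rfl h4 with h5 | ⟨_, h5⟩
              · exact absurd h5 (irrefl _)
              · exact h5
        refine hmin (x ++ r) ?_ ?_ (List.Shortlex.append_left hr x)
        · have h3 : r ∈ L.leftQuotient y' := hv
          rw [← e1] at h3
          exact h3
        · rw [val_append, val_append] at hval
          rw [val_append, val_append, mul_left_cancel hval]
      · have h2 : ((val π x')⁻¹ * val π y', L.leftQuotient y', y'.length < x'.length,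
            List.Lex (· < ·) y' x') ∈ T x' := ⟨y', hy'.le, h1, rfl⟩
        rw [← e2] at h2
        obtain ⟨y, hy1, hy2, hy3⟩ := h2
        simp only [Prod.mk.injEq] at hy3
        obtain ⟨a1, a2, a3, a4⟩ := hy3
        have hylen : y.length = x.length := by
          have : ¬ y.length < x.length := by
            rw [← a3]
            omega
          omega
        have hyL : y ++ r ∈ L := by
          have h3 : r ∈ L.leftQuotient y' := hv
          rw [a2] at h3
          exact h3
        refine hmin (y ++ r) hyL ?_ ?_
        · have h3 : val π y = val π x * ((val π x')⁻¹ * val π y') := by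
            rw [a1]
            group
          rw [val_append, h3, val_append]
          rw [val_append, val_append] at hval
          have h4 : val π r = (val π y')⁻¹ * (val π x' * val π z) := by
            rw [← hval]
            group
          rw [h4]
          group
        · rcases List.shortlex_def.1 hlt with h3 | ⟨h3, h4⟩
          · apply List.Shortlex.of_length_lt
            rw [List.length_append, List.length_append] at h3 ⊢
            omega
          · apply List.Shortlex.of_lex
            · rw [List.length_append, List.length_append] at h3 ⊢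
              omega
            · rcases lex_append_cases hy' h4 with h5 | ⟨h5, _⟩
              · refine lex_append_both hylen ?_ r z
                rw [← a4]
                exact h5
              · exact absurd h5 hyx

/-- Every automatic group has an automatic structure with unique representatives such that the
identity is represented by the empty string. -/
theorem exists_unique_structure {G : Type} [Group G] (h : Automatic G) :
    ∃ (A : Type) (_ : Finite A) (π : A → G) (L : Language A), IsAutomaticStructure π L ∧
      [] ∈ L ∧ ∀ u ∈ L, ∀ v ∈ L, val π u = val π v → u = v := by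
  classical
  obtain ⟨A, hA, π, L, hst⟩ := h
  have hft := ftp_of_structure hst
  obtain ⟨hL, hs, _⟩ := hst
  have : Fintype A := Fintype.ofFinite A
  let _ : LinearOrder A := LinearOrder.lift' (Fintype.equivFin A) (Fintype.equivFin A).injective
  set L1 : Language A :=
    {u : List A | u ∈ L ∧ ∀ v ∈ L, val π v = val π u → ¬ List.Shortlex (· < ·) v u} with hL1
  have h1 : L1.IsRegular := uni_regular hL hft
  have hex : ∀ g : G, ∃ u ∈ L1, val π u = g := by
    intro g
    have hwf : WellFounded (List.Shortlex ((· < ·) : A → A → Prop)) :=
      List.Shortlex.wf (Finite.wellFounded_of_trans_of_irrefl _)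
    obtain ⟨u0, hu0, hu0g⟩ := hs g
    obtain ⟨u, hu, hmin⟩ := hwf.has_min {v : List A | v ∈ L ∧ val π v = g} ⟨u0, hu0, hu0g⟩
    refine ⟨u, ⟨hu.1, fun v hv hvu => hmin v ⟨hv, ?_⟩⟩, hu.2⟩
    rw [hvu]
    exact hu.2
  have huniq : ∀ u ∈ L1, ∀ v ∈ L1, val π u = val π v → u = v := by
    intro u hu v hv huv
    have h2 := hu.2 v hv.1 huv.symm
    have h3 := hv.2 u hu.1 huv
    by_contra hne
    rcases trichotomous_of (List.Shortlex ((· < ·) : A → A → Prop)) u v with h4 | h4 | h4
    · exact h3 h4
    · exact hne h4
    · exact h2 h4
  obtain ⟨u0, hu0, hu01⟩ := hex 1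
  set L2 : Language A := singL [] + (L1 ⊓ (singL u0)ᶜ) with hL2
  have hmem : ∀ u, u ∈ L2 ↔ u = [] ∨ (u ∈ L1 ∧ u ≠ u0) := fun u => Iff.rfl
  have hreg2 : L2.IsRegular :=
    Language.IsRegular.add (reg_sing []) (Language.IsRegular.inf h1 (reg_sing u0).compl)
  have hrep : ∀ u ∈ L2, ∃ u' ∈ L1, val π u' = val π u ∧
      ∀ t, (val π (u.take t))⁻¹ * val π (u'.take t) ∈
        (insert (1 : G) ((fun w : List A => val π w) '' {w | w ∈ u0.inits})) := by
    intro u hu
    rcases (hmem u).1 hu with rfl | ⟨h2, _⟩
    · refine ⟨u0, hu0, by rw [hu01]; rfl, fun t => ?_⟩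
      right
      refine ⟨u0.take t, ?_, ?_⟩
      · show u0.take t ∈ u0.inits
        rw [List.mem_inits]
        exact List.take_prefix _ _
      · rw [List.take_nil]
        show _ = (1 : G)⁻¹ * _
        rw [inv_one, one_mul]
    · refine ⟨u, h2, rfl, fun t => ?_⟩
      left
      group
  refine ⟨A, hA, π, L2, structure_of_ftp hreg2 ?_ ?_, (hmem _).2 (Or.inl rfl), ?_⟩
  · intro g
    by_cases hg : g = 1
    · exact ⟨[], (hmem _).2 (Or.inl rfl), by rw [hg]; rfl⟩
    · obtain ⟨u, hu, hug⟩ := hex g
      refine ⟨u, (hmem _).2 (Or.inr ⟨hu, ?_⟩), hug⟩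
      rintro rfl
      exact hg (by rw [← hug, hu01])
  · intro g
    obtain ⟨D, hD, hDD⟩ := hft g
    set E : Set G := insert (1 : G) ((fun w : List A => val π w) '' {w | w ∈ u0.inits}) with hE
    have hEfin : E.Finite := ((List.finite_toSet _).image _).insert _
    refine ⟨E * D * E⁻¹, (hEfin.mul hD).mul hEfin.inv, ?_⟩
    intro u hu v hv huv t
    obtain ⟨u', hu', hu1, hu2⟩ := hrep u hu
    obtain ⟨v', hv', hv1, hv2⟩ := hrep v hv
    have h3 := hDD u' hu'.1 v' hv'.1 (by rw [hu1, hv1, huv]) t
    have h4 : (val π (u.take t))⁻¹ * val π (v.take t) =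
        ((val π (u.take t))⁻¹ * val π (u'.take t)) *
          ((val π (u'.take t))⁻¹ * val π (v'.take t)) *
            ((val π (v.take t))⁻¹ * val π (v'.take t))⁻¹ := by group
    rw [h4]
    exact Set.mul_mem_mul (Set.mul_mem_mul (hu2 t) h3) (Set.inv_mem_inv.2 (hv2 t))
  · intro u hu v hv huv
    rcases (hmem u).1 hu with rfl | ⟨h2, h3⟩
    · rcases (hmem v).1 hv with rfl | ⟨h4, h5⟩
      · rfl
      · exact absurd (huniq v h4 u0 hu0 (by rw [hu01, ← huv]; rfl)) h5
    · rcases (hmem v).1 hv with rfl | ⟨h4, h5⟩
      · exact absurd (huniq u h2 u0 hu0 (by rw [hu01, huv]; rfl)) h3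
      · exact huniq u h2 v h4 huv

end Pool.Agent.SLA
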