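import Mathlib
import Pool.Agent.SLA.Prod
import Pool.Agent.SLA.Uni
/-!
# Direct products of two automatic groups
-/
namespace Pool.Agent.SLA
open Pool.Agent.SLX
open scoped Pointwise

/-- In an automatic structure with unique representatives, the lengths of the representatives
of two elements that differ by a fixed element on the right are close. -/
theorem lbp_unique {A G : Type} [Group G] {π : A → G} {L : Language A}
    (hL : L.IsRegular) (hft : FTP π L)
    (huniq : ∀ u ∈ L, ∀ v ∈ L, val π u = val π v → u = v) : LBP π L := by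
  classical
  have key : ∀ g : G, ∃ c : ℕ, ∀ u ∈ L, ∀ v ∈ L, val π u * g = val π v →
      v.length ≤ u.length + c := by
    intro g
    obtain ⟨D, hD, hd⟩ := hft g
    have hfin := hL.finite_range_leftQuotient
    have hch : ∀ p : G × Language A, ∃ n : ℕ, ∀ x : List A, L.leftQuotient x = p.2 →
        ∀ z, x ++ z ∈ L → p.1 * val π z = g → z.length ≤ n := by
      intro p
      by_cases h : ∃ x z, L.leftQuotient x = p.2 ∧ x ++ z ∈ L ∧ p.1 * val π z = g
      · obtain ⟨x0, z0, h1, h2, h3⟩ := h
        refine ⟨z0.length, fun x hx z hz hg => ?_⟩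
        have h4 : z0 ∈ L.leftQuotient x0 := h2
        rw [h1, ← hx] at h4
        have h5 : x ++ z0 ∈ L := h4
        have h6 := huniq _ hz _ h5 (by
          rw [val_append, val_append, mul_left_cancel (hg.trans h3.symm)])
        rw [List.append_cancel_left h6]
      · exact ⟨0, fun x hx z hz hg => absurd ⟨x, z, hx, hz, hg⟩ h⟩
    choose n hn using hch
    obtain ⟨c, hc⟩ := ((hD.prod hfin).image n).bddAbove
    refine ⟨c, fun u hu v hv huv => ?_⟩
    by_cases hlen : v.length ≤ u.length
    · omega
    push Not at hlen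
    have h1 := hd u hu v hv huv u.length
    rw [List.take_length] at h1
    have h2 : v.take u.length ++ v.drop u.length = v := List.take_append_drop _ _
    have h3 := hn ((val π u)⁻¹ * val π (v.take u.length), L.leftQuotient (v.take u.length))
      (v.take u.length) rfl (v.drop u.length) (by rw [h2]; exact hv) (by
        change (val π u)⁻¹ * val π (v.take u.length) * val π (v.drop u.length) = g
        rw [mul_assoc, ← val_append, h2, ← huv]
        group)
    have h4 : n ((val π u)⁻¹ * val π (v.take u.length), L.leftQuotient (v.take u.length)) ≤ c :=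
      hc ⟨_, ⟨h1, ⟨_, rfl⟩⟩, rfl⟩
    rw [List.length_drop] at h3
    omega
  intro g
  obtain ⟨c1, h1⟩ := key g
  obtain ⟨c2, h2⟩ := key g⁻¹
  refine ⟨c1 + c2, fun u hu v hv huv => ⟨?_, ?_⟩⟩
  · have := h2 v hv u hu (by rw [← huv]; group)
    omega
  · have := h1 u hu v hv huv
    omega

/-- The direct product of two automatic groups is automatic. -/
theorem automatic_prod' {G K : Type} [Group G] [Group K] (hG : Automatic G)
    (hK : Automatic K) : Automatic (G × K) := by
  obtain ⟨A, hA, π, L, hst, _, huniq⟩ := exists_unique_structure hG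
  obtain ⟨B, hB, ρ, M, hst'⟩ := hK
  have f1 := ftp_of_structure hst
  have f2 := ftp_of_structure hst'
  obtain ⟨r1, s1, _⟩ := hst
  obtain ⟨r2, s2, _⟩ := hst'
  refine ⟨A ⊕ B, inferInstance, prodLet π ρ, prodLang L M,
    structure_of_ftp (prodLang_regular r1 r2) ?_ (prod_ftp f1 (lbp_unique r1 f1 huniq) f2)⟩
  rintro ⟨g, k⟩
  obtain ⟨u, hu, hug⟩ := s1 g
  obtain ⟨v, hv, hvk⟩ := s2 k
  refine ⟨u.map Sum.inl ++ v.map Sum.inr, ⟨u, hu, v, hv, rfl⟩, ?_⟩
  rw [val_append, val_inl, val_inr, hug, hvk]
  simp

end Pool.Agent.SLA
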