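import Mathlib
import Pool.Agent.SLA.FT
/-!
# Closure properties of regular languages
-/
namespace Pool.Agent.SLA

theorem reg_mul {B : Type} {L1 L2 : Language B} (h1 : L1.IsRegular) (h2 : L2.IsRegular) :
    (L1 * L2).IsRegular := by
  classical
  have f1 := h1.finite_range_leftQuotient
  have f2 := h2.finite_range_leftQuotient
  refine regular_of_data (S := Set (List B) × Set (Set (List B))) _
    (fun x => (L1.leftQuotient x, {Q | ∃ u v, x = u ++ v ∧ u ∈ L1 ∧ Q = L2.leftQuotient v}))
    ((Set.range L1.leftQuotient) ×ˢ (𝒫 (Set.range L2.leftQuotient))) (f1.prod f2.powerset) ?_ ?_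
  · rintro x y _
    refine Set.mk_mem_prod ⟨x, rfl⟩ ?_
    rintro Q ⟨u, v, _, _, rfl⟩
    exact ⟨v, rfl⟩
  · intro x x' hd y hy
    have e1 : L1.leftQuotient x = L1.leftQuotient x' := congrArg Prod.fst hd
    have e2 : {Q | ∃ u v, x = u ++ v ∧ u ∈ L1 ∧ Q = L2.leftQuotient v} =
        {Q | ∃ u v, x' = u ++ v ∧ u ∈ L1 ∧ Q = L2.leftQuotient v} := congrArg Prod.snd hd
    obtain ⟨a, ha, b, hb, hab⟩ := Language.mem_mul.1 hy
    rcases List.append_eq_append_iff.1 hab with ⟨c, hc1, hc2⟩ | ⟨c, hc1, hc2⟩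
    · -- `x = a ++ c`, `b = c ++ y`
      have h3 : L2.leftQuotient c ∈
          {Q | ∃ u v, x = u ++ v ∧ u ∈ L1 ∧ Q = L2.leftQuotient v} := ⟨a, c, hc1, ha, rfl⟩
      rw [e2] at h3
      obtain ⟨a', c', h4, h5, h6⟩ := h3
      have h7 : y ∈ L2.leftQuotient c := by
        show c ++ y ∈ L2
        rw [← hc2]
        exact hb
      rw [h6] at h7
      refine Language.mem_mul.2 ⟨a', h5, c' ++ y, h7, ?_⟩
      rw [h4, List.append_assoc]
    · -- `a = x ++ c`, `y = c ++ b`
      have h3 : c ∈ L1.leftQuotient x := by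
        show x ++ c ∈ L1
        rw [← hc1]
        exact ha
      rw [e1] at h3
      refine Language.mem_mul.2 ⟨x' ++ c, h3, b, hb, ?_⟩
      rw [hc2, List.append_assoc]

/-- The image of a language under a map of the letters. -/
def lmap {B B' : Type} (f : B → B') (L : Language B) : Language B' := {w | ∃ v ∈ L, w = v.map f}

theorem reg_map {B B' : Type} {f : B → B'} (hf : Function.Injective f) {L : Language B}
    (h : L.IsRegular) : (lmap f L).IsRegular := by
  classical
  have f1 := h.finite_range_leftQuotient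
  have hm : Function.Injective (List.map f) := List.map_injective_iff.2 hf
  refine regular_of_data (S := Set (List B)) _
    (fun x => {y | ∃ v, x = v.map f ∧ v ++ y ∈ L})
    (Set.range L.leftQuotient) f1 ?_ ?_
  · rintro x y ⟨w, hw, hxy⟩
    obtain ⟨v, t, h1, h2, h3⟩ := List.append_eq_map_iff.1 hxy
    refine ⟨v, ?_⟩
    ext z
    constructor
    · intro hz
      exact ⟨v, h2.symm, hz⟩
    · rintro ⟨v', h4, h5⟩
      have h6 : v = v' := hm (by rw [h2, h4])
      rw [h6]
      exact h5
  · intro x x' hd y hy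
    obtain ⟨w, hw, hxy⟩ := hy
    obtain ⟨v, t, h1, h2, h3⟩ := List.append_eq_map_iff.1 hxy
    have h4 : t ∈ {y | ∃ v, x = v.map f ∧ v ++ y ∈ L} := ⟨v, h2.symm, by rw [← h1]; exact hw⟩
    have h5 : {y | ∃ v, x = v.map f ∧ v ++ y ∈ L} = {y | ∃ v, x' = v.map f ∧ v ++ y ∈ L} := hd
    rw [h5] at h4
    obtain ⟨v', h6, h7⟩ := h4
    refine ⟨v' ++ t, h7, ?_⟩
    rw [List.map_append, ← h6, h3]

theorem reg_zero {B : Type} : (0 : Language B).IsRegular := by
  refine regular_of_data (S := Unit) _ (fun _ => ()) Set.univ (Set.toFinite _) ?_ ?_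
  · intro x y _
    trivial
  · intro x x' _ y hy
    exact absurd hy (Language.notMem_zero _)

theorem reg_top {B : Type} : Language.IsRegular (Set.univ : Set (List B)) := by
  refine regular_of_data (S := Unit) _ (fun _ => ()) Set.univ (Set.toFinite _) ?_ ?_
  · intro x y _
    trivial
  · intro x x' _ y hy
    exact Set.mem_univ _

theorem reg_iUnion {B ι : Type} [Finite ι] (L : ι → Language B) (h : ∀ i, (L i).IsRegular) :
    Language.IsRegular {w | ∃ i, w ∈ L i} := by
  classical
  have : Fintype ι := Fintype.ofFinite ι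
  have key : ∀ s : Finset ι, ∃ K : Language B, K.IsRegular ∧ ∀ w, w ∈ K ↔ ∃ i ∈ s, w ∈ L i := by
    intro s
    induction s using Finset.induction_on with
    | empty =>
      refine ⟨0, reg_zero, fun w => ?_⟩
      constructor
      · intro hw
        exact absurd hw (Language.notMem_zero _)
      · rintro ⟨i, hi, _⟩
        exact absurd hi (Finset.notMem_empty _)
    | insert a s ha ih =>
      obtain ⟨K, hK, hKw⟩ := ih
      refine ⟨L a + K, Language.IsRegular.add (h a) hK, fun w => ?_⟩
      rw [Language.mem_add, hKw]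
      constructor
      · rintro (hw | ⟨i, hi, hw⟩)
        · exact ⟨a, Finset.mem_insert_self _ _, hw⟩
        · exact ⟨i, Finset.mem_insert_of_mem hi, hw⟩
      · rintro ⟨i, hi, hw⟩
        rcases Finset.mem_insert.1 hi with rfl | hi
        · exact Or.inl hw
        · exact Or.inr ⟨i, hi, hw⟩
  obtain ⟨K, hK, hKw⟩ := key Finset.univ
  have e : ({w | ∃ i, w ∈ L i} : Set (List B)) = K := by
    ext w
    constructor
    · rintro ⟨i, hw⟩
      exact (hKw w).2 ⟨i, Finset.mem_univ i, hw⟩
    · intro hw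
      obtain ⟨i, _, hi⟩ := (hKw w).1 hw
      exact ⟨i, hi⟩
  rw [e]
  exact hK

end Pool.Agent.SLA
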