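import Mathlib
import Pool.Agent.SLA.Reg
import Pool.Agent.SLA.Least
/-!
# Free products of ShortLex-automatic groups
-/
namespace Pool.Agent.SLA
open Pool.Agent.SLX Monoid Monoid.CoprodI

/-- A letter of one of the alphabets `A i`. -/
structure Ltr {ι : Type} (A : ι → Type) where
  /-- the index -/
  fst : ι
  /-- the letter -/
  snd : A fst

section
variable {ι : Type} {M : ι → Type} [∀ i, Group (M i)] {A : ι → Type} [∀ i, LinearOrder (A i)]
    [LinearOrder (Ltr A)] (π : ∀ i, A i → M i)

/-- The letters of a free product. -/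
def fpi : (Ltr A) → CoprodI M := fun s => of (π s.1 s.2)

/-- All factors with letters of one type are least. -/
def fpL : Language (Ltr A) :=
  {v | ∀ (i : ι) (t : List (A i)) (x z : List (Ltr A)), v = x ++ t.map (Ltr.mk i) ++ z →
    t ∈ leastLang (π i)}

/-- The string of a reduced word. -/
def fpW (nf : ∀ i, M i → List (A i)) (w : Word M) : List (Ltr A) :=
  w.toList.flatMap fun s => (nf s.1 s.2).map (Ltr.mk s.1)

omit [∀ i, LinearOrder (A i)] [LinearOrder (Ltr A)] in
theorem fp_val_map (i : ι) (t : List (A i)) :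
    val (fpi π) (t.map (Ltr.mk i)) = of (val (π i) t) := by
  simp only [val, List.map_map]
  rw [map_list_prod, List.map_map]
  rfl

theorem nil_least (i : ι) : ([] : List (A i)) ∈ leastLang (π i) := by
  intro v hv hlt
  rcases List.shortlex_def.1 hlt with h | ⟨h1, h2⟩
  · simp at h
  · cases h2

theorem fpL_prefix {x y : List (Ltr A)} (h : x ++ y ∈ fpL π) : x ∈ fpL π := by
  intro i t a b hx
  refine h i t a (b ++ y) ?_
  rw [hx]
  simp only [List.append_assoc]

theorem fpL_suffix {x y : List (Ltr A)} (h : x ++ y ∈ fpL π) : y ∈ fpL π := by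
  intro i t a b hy
  refine h i t (x ++ a) b ?_
  rw [hy]
  simp only [List.append_assoc]

/-- Strings whose one type factors are least are determined by their value. -/
theorem fp_form [DecidableEq ι] [∀ i, DecidableEq (M i)] (nf : ∀ i, M i → List (A i))
    (hnf : ∀ i m, nf i m ∈ leastLang (π i)) (hval : ∀ i m, val (π i) (nf i m) = m)
    (v : List (Ltr A)) (hv : v ∈ fpL π) :
    fpW nf (val (fpi π) v • (Word.empty : Word M)) = v := by
  have hrc : ∀ (i : ι) (p : Word.Pair M i), fpW nf (Word.rcons p) =
      (nf i p.head).map (Ltr.mk i) ++ fpW nf p.tail := by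
    intro i p
    by_cases hp : p.head = 1
    · rw [Word.rcons, dif_pos hp, hp]
      have h1 : nf i 1 = [] := least_unique (π i) (hnf i 1) (nil_least π i) (hval i 1)
      rw [h1]
      rfl
    · rw [Word.rcons, dif_neg hp]
      rfl
  induction v with
  | nil =>
    rw [show val (fpi π) ([] : List (Ltr A)) = 1 from rfl, one_smul]
    rfl
  | cons s v ih =>
    obtain ⟨i, a⟩ := s
    have ih' := ih (fpL_suffix π (x := [⟨i, a⟩]) hv)
    have e1 : val (fpi π) (⟨i, a⟩ :: v) = of (π i a) * val (fpi π) v := rfl
    rw [e1, mul_smul]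
    set w : Word M := val (fpi π) v • (Word.empty : Word M) with hw
    rw [Word.of_smul_def, hrc]
    have e2 : Word.rcons (Word.equivPair i w) = w := by
      rw [← Word.equivPair_symm, Equiv.symm_apply_apply]
    have e3 : v = (nf i (Word.equivPair i w).head).map (Ltr.mk i) ++
        fpW nf (Word.equivPair i w).tail := by
      rw [← hrc, e2, ih']
    have e4 : (a :: nf i (Word.equivPair i w).head) ∈ leastLang (π i) := by
      refine hv i _ [] (fpW nf (Word.equivPair i w).tail) ?_
      rw [List.map_cons, List.nil_append, List.cons_append, ← e3]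
    have e5 : nf i (π i a * (Word.equivPair i w).head) =
        a :: nf i (Word.equivPair i w).head := by
      refine least_unique (π i) (hnf i _) e4 ?_
      rw [hval]
      show _ = π i a * val (π i) (nf i (Word.equivPair i w).head)
      rw [hval]
    show (nf i (π i a * (Word.equivPair i w).head)).map (Ltr.mk i) ++
      fpW nf (Word.equivPair i w).tail = _
    rw [e5, List.map_cons, List.cons_append, ← e3]

variable (hmono : ∀ (i : ι) (a b : A i), a < b → (⟨i, a⟩ : Ltr A) < ⟨i, b⟩)
include hmono

theorem fp_lex {i : ι} {s t : List (A i)} (h : List.Shortlex (· < ·) s t) :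
    List.Shortlex (· < ·) (s.map (Ltr.mk i)) (t.map (Ltr.mk i)) := by
  have key : ∀ {s t : List (A i)}, List.Lex (· < ·) s t →
      List.Lex (· < ·) (s.map (Ltr.mk i)) (t.map (Ltr.mk i)) := by
    intro s t h
    induction h with
    | nil => exact List.Lex.nil
    | cons _ ih => exact List.Lex.cons ih
    | rel h => exact List.Lex.rel (hmono i _ _ h)
  rcases List.shortlex_def.1 h with h | ⟨h1, h2⟩
  · apply List.Shortlex.of_length_lt
    simpa using h
  · apply List.Shortlex.of_lex
    · simpa using h1
    · exact key h2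

theorem fp_least_sub {v : List (Ltr A)} (hv : v ∈ leastLang (fpi π)) : v ∈ fpL π := by
  intro i t x z hx
  rw [hx] at hv
  have h1 : t.map (Ltr.mk i) ∈ leastLang (fpi π) :=
    least_suffix (fpi π) (least_prefix (fpi π) hv)
  intro s hs hlt
  refine h1 (s.map (Ltr.mk i)) ?_ (fp_lex hmono hlt)
  rw [fp_val_map, fp_val_map, hs]

theorem fp_eq [Finite (Ltr A)] (hfin : ∀ i, Finite (A i))
    (hsurj : ∀ i (m : M i), ∃ w, val (π i) w = m) :
    fpL π = leastLang (fpi π) ∧ (∀ u ∈ fpL π, ∀ v ∈ fpL π, val (fpi π) u = val (fpi π) v → u = v) := by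
  classical
  have hex : ∀ i (m : M i), ∃ u ∈ leastLang (π i), val (π i) u = m := by
    intro i m
    obtain ⟨w, hw⟩ := hsurj i m
    have := hfin i
    obtain ⟨u, h1, h2⟩ := exists_least (π i) w
    exact ⟨u, h1, by rw [h2, hw]⟩
  choose nf hnf hval using hex
  have huniq : ∀ u ∈ fpL π, ∀ v ∈ fpL π, val (fpi π) u = val (fpi π) v → u = v := by
    intro u hu v hv h
    rw [← fp_form π nf hnf hval u hu, ← fp_form π nf hnf hval v hv, h]
  refine ⟨?_, huniq⟩
  ext v
  constructor
  · intro hv
    obtain ⟨u, h1, h2⟩ := exists_least (fpi π) v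
    have h3 := huniq u (fp_least_sub π hmono h1) v hv h2
    rw [← h3]
    exact h1
  · exact fp_least_sub π hmono

end

end Pool.Agent.SLA
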