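import Mathlib
import Pool.Agent.SLA.FreeProd
/-!
# Free products of ShortLex-automatic groups are ShortLex-automatic
-/
namespace Pool.Agent.SLA
open Pool.Agent.SLX Monoid Monoid.CoprodI

theorem pad_self {B : Type} (p : List B) : pad p p = p.map (fun a => (some a, some a)) := by
  induction p with
  | nil => simp [pad]
  | cons a p ih =>
    rw [pad, ih]
    rfl

theorem pad_map {B B' : Type} (f : B → B') (u v : List B) :
    pad (u.map f) (v.map f) = (pad u v).map (Prod.map (Option.map f) (Option.map f)) := by
  induction u, v using pad.induct with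
  | case1 => simp [pad]
  | case2 a u ih =>
    simp only [List.map_nil] at ih
    simp only [pad, List.map_cons, List.map_nil, ih]
    rfl
  | case3 b v ih =>
    simp only [List.map_nil] at ih
    simp only [pad, List.map_cons, List.map_nil, ih]
    rfl
  | case4 a u b v ih =>
    simp only [pad, List.map_cons, ih]
    rfl

theorem nil_or_snoc {B : Type} (l : List B) : l = [] ∨ ∃ (l' : List B) (b : B), l = l' ++ [b] := by
  rcases List.eq_nil_or_concat l with h | ⟨l', b, h⟩
  · exact Or.inl h
  · exact Or.inr ⟨l', b, by rw [h, List.concat_eq_append]⟩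

/-- The language of all strings. -/
def univL (B : Type) : Language B := (Set.univ : Set (List B))

section
variable {ι : Type} {M : ι → Type} [∀ i, Group (M i)] {A : ι → Type} [∀ i, LinearOrder (A i)]
    (π : ∀ i, A i → M i)

omit [∀ i, LinearOrder (A i)] in
theorem mk_inj (i : ι) : Function.Injective (Ltr.mk i : A i → Ltr A) := by
  intro a b h
  cases h
  rfl

theorem fp_regular [Finite ι] [LinearOrder (Ltr A)] (hreg : ∀ i, (leastLang (π i)).IsRegular) :
    (fpL π).IsRegular := by
  apply Language.IsRegular.of_compl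
  have e : ((fpL π)ᶜ : Language (Ltr A)) = {w | ∃ i : ι, w ∈ univL (Ltr A) *
      lmap (Ltr.mk i) ((leastLang (π i))ᶜ : Language (A i)) * univL (Ltr A)} := by
    ext w
    constructor
    · intro hw
      have hw' : ¬ (∀ (i : ι) (t : List (A i)) (x z : List (Ltr A)),
          w = x ++ t.map (Ltr.mk i) ++ z → t ∈ leastLang (π i)) := hw
      push Not at hw'
      obtain ⟨i, t, x, z, h1, h2⟩ := hw'
      refine ⟨i, Language.mem_mul.2 ⟨x ++ t.map (Ltr.mk i), Language.mem_mul.2
        ⟨x, Set.mem_univ _, t.map (Ltr.mk i), ⟨t, h2, rfl⟩, rfl⟩, z, Set.mem_univ _, h1.symm⟩⟩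
    · rintro ⟨i, hw⟩ hw'
      obtain ⟨y, hy, z, _, hyz⟩ := Language.mem_mul.1 hw
      obtain ⟨x, _, _, ⟨t, ht, rfl⟩, hxt⟩ := Language.mem_mul.1 hy
      exact ht (hw' i t x z (by rw [hxt, hyz]))
  rw [e]
  refine reg_iUnion _ fun i => ?_
  exact reg_mul (reg_mul reg_top (reg_map (mk_inj i) (hreg i).compl)) reg_top

/-- The last letter is not of type `i`. -/
def NoLast (A : ι → Type) (i : ι) (p : List (Ltr A)) : Prop :=
  ∀ (x : List (Ltr A)) (b : A i), p ≠ x ++ [⟨i, b⟩]

omit [∀ i, LinearOrder (A i)] in
theorem exists_dec (i : ι) (u : List (Ltr A)) : ∃ (p : List (Ltr A)) (s : List (A i)),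
    u = p ++ s.map (Ltr.mk i) ∧ NoLast A i p := by
  induction u using List.reverseRecOn with
  | nil =>
    refine ⟨[], [], rfl, ?_⟩
    intro x b h
    simp at h
  | append_singleton u l ih =>
    obtain ⟨j, b⟩ := l
    by_cases hj : j = i
    · subst hj
      obtain ⟨p, s, h1, h2⟩ := ih
      refine ⟨p, s ++ [b], ?_, h2⟩
      rw [h1, List.map_append, List.append_assoc]
      rfl
    · refine ⟨u ++ [⟨j, b⟩], [], ?_, ?_⟩
      · rw [List.map_nil, List.append_nil]
      · intro x c h
        have h3 := (List.append_inj' h rfl).2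
        rw [List.cons.injEq, Ltr.mk.injEq] at h3
        exact hj h3.1.1

omit [∀ i, LinearOrder (A i)] in
theorem reg_noLast (i : ι) : Language.IsRegular {p | NoLast A i p} := by
  refine regular_of_data (S := Prop) _ (fun x => NoLast A i x) Set.univ (Set.toFinite _) ?_ ?_
  · intro x y _
    trivial
  · intro x x' hd y hy
    have hd' : NoLast A i x = NoLast A i x' := hd
    rcases nil_or_snoc y with rfl | ⟨y', l, rfl⟩
    · have h1 : NoLast A i x := by
        have : NoLast A i (x ++ []) := hy
        rwa [List.append_nil] at this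
      show NoLast A i (x' ++ [])
      rw [List.append_nil, ← hd']
      exact h1
    · intro z b h
      rw [← List.append_assoc] at h
      have h1 := (List.append_inj' h rfl).2
      refine hy (x ++ y') b ?_
      rw [List.append_assoc, h1]

variable [LinearOrder (Ltr A)]

theorem fp_glue {i : ι} {p : List (Ltr A)} (hp : p ∈ fpL π) (hn : NoLast A i p) {s : List (A i)}
    (hs : s ∈ leastLang (π i)) : p ++ s.map (Ltr.mk i) ∈ fpL π := by
  intro j t x z h
  rcases nil_or_snoc t with rfl | ⟨t', b, rfl⟩
  · exact nil_least π j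
  set t : List (A j) := t' ++ [b] with ht
  -- the prefix case
  have hsub : ∀ c : List (Ltr A), c ++ t.map (Ltr.mk j) ++ z = s.map (Ltr.mk i) →
      t ∈ leastLang (π j) := by
    intro c hc
    have hj : j = i := by
      have h1 : (⟨j, b⟩ : Ltr A) ∈ s.map (Ltr.mk i) := by
        rw [← hc, ht]
        simp
      obtain ⟨a, _, ha⟩ := List.mem_map.1 h1
      rw [Ltr.mk.injEq] at ha
      exact ha.1.symm
    subst hj
    obtain ⟨s1, s2, h1, h2, h3⟩ := List.append_eq_map_iff.1 hc
    obtain ⟨s3, s4, h4, h5, h6⟩ := List.append_eq_map_iff.1 h2.symm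
    have h7 : s4 = t := List.map_injective_iff.2 (mk_inj j) h6
    rw [h1, h4, h7] at hs
    exact least_suffix (π j) (least_prefix (π j) hs)
  rcases List.append_eq_append_iff.1 h with ⟨a', h1, h2⟩ | ⟨c', h1, h2⟩
  · -- `x ++ T = p ++ a'`, `S = a' ++ z`
    rcases List.append_eq_append_iff.1 h1 with ⟨c, h3, h4⟩ | ⟨c, h3, h4⟩
    · -- `p = x ++ c`, `T = c ++ a'`
      rcases nil_or_snoc a' with rfl | ⟨a'', l, rfl⟩
      · rw [List.append_nil] at h4
        refine hp j t x [] ?_
        rw [h3, List.append_nil, h4]
      · have hj : j = i := by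
          have h5 : l ∈ s.map (Ltr.mk i) := by
            rw [h2]
            simp
          have h6 : l ∈ t.map (Ltr.mk j) := by
            rw [h4]
            simp
          obtain ⟨a, _, ha⟩ := List.mem_map.1 h5
          obtain ⟨a1, _, ha1⟩ := List.mem_map.1 h6
          rw [← ha, Ltr.mk.injEq] at ha1
          exact ha1.1
        subst hj
        rcases nil_or_snoc c with rfl | ⟨c', l', rfl⟩
        · refine hsub [] ?_
          rw [h4, List.nil_append, List.nil_append, h2]
        · exfalso
          have h6 : l' ∈ t.map (Ltr.mk j) := by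
            rw [h4]
            simp
          obtain ⟨a1, _, ha1⟩ := List.mem_map.1 h6
          refine hn (x ++ c') a1 ?_
          rw [h3, ← ha1, List.append_assoc]
    · -- `x = p ++ c`, `a' = c ++ T`
      refine hsub c ?_
      rw [h2, h4]
  · refine hp j t x c' ?_
    rw [h1]

end

end Pool.Agent.SLA
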