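import Mathlib
import Pool.Agent.SLA.FreeProd2
/-!
# Free products of ShortLex-automatic groups are ShortLex-automatic: conclusion
-/
namespace Pool.Agent.SLA
open Pool.Agent.SLX Monoid Monoid.CoprodI

section
variable {ι : Type} {M : ι → Type} [∀ i, Group (M i)] {A : ι → Type} [∀ i, LinearOrder (A i)]
    (π : ∀ i, A i → M i) [LinearOrder (Ltr A)]

theorem fp_mult (hfin : ∀ i, Finite (A i))
    (hsurj : ∀ i (m : M i), ∃ w, val (π i) w = m)
    (huniq : ∀ u ∈ fpL π, ∀ v ∈ fpL π, val (fpi π) u = val (fpi π) v → u = v)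
    (hL : (fpL π).IsRegular) (i : ι) (a : A i)
    (hK : Language.IsRegular {p : List (Option (A i) × Option (A i)) |
      ∃ u ∈ leastLang (π i), ∃ v ∈ leastLang (π i),
        val (π i) (u ++ [a]) = val (π i) v ∧ p = pad u v}) :
    Language.IsRegular {p : List (Option (Ltr A) × Option (Ltr A)) |
      ∃ u ∈ fpL π, ∃ v ∈ fpL π,
        val (fpi π) (u ++ [⟨i, a⟩]) = val (fpi π) v ∧ p = pad u v} := by
  classical
  have hval : ∀ (p : List (Ltr A)) (s : List (A i)),
      val (fpi π) (p ++ s.map (Ltr.mk i)) = val (fpi π) p * of (val (π i) s) := by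
    intro p s
    rw [val_append, fp_val_map]
  have hval2 : ∀ (p : List (Ltr A)) (s : List (A i)),
      val (fpi π) (p ++ s.map (Ltr.mk i) ++ [⟨i, a⟩]) =
        val (fpi π) p * of (val (π i) (s ++ [a])) := by
    intro p s
    have e : p ++ s.map (Ltr.mk i) ++ [⟨i, a⟩] = p ++ (s ++ [a]).map (Ltr.mk i) := by
      rw [List.map_append, List.append_assoc]
      rfl
    rw [e, hval]
  set P : Language (Ltr A) := fpL π ⊓ ({p | NoLast A i p} : Set (List (Ltr A))) with hP
  have hPreg : P.IsRegular := Language.IsRegular.inf hL (reg_noLast i)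
  set K : Language (Option (A i) × Option (A i)) := {p |
      ∃ u ∈ leastLang (π i), ∃ v ∈ leastLang (π i),
        val (π i) (u ++ [a]) = val (π i) v ∧ p = pad u v} with hKdef
  have hd : Function.Injective (fun b : Ltr A => ((some b, some b) : Option (Ltr A) × Option (Ltr A))) := by
    intro b c h
    have := congrArg Prod.fst h
    exact Option.some_injective _ this
  have hm : Function.Injective (Prod.map (Option.map (Ltr.mk i : A i → Ltr A))
      (Option.map (Ltr.mk i : A i → Ltr A))) :=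
    Function.Injective.prodMap (Option.map_injective (mk_inj i)) (Option.map_injective (mk_inj i))
  have hreg := reg_mul (reg_map hd hPreg) (reg_map hm hK)
  have e : ({p : List (Option (Ltr A) × Option (Ltr A)) |
      ∃ u ∈ fpL π, ∃ v ∈ fpL π,
        val (fpi π) (u ++ [⟨i, a⟩]) = val (fpi π) v ∧ p = pad u v} : Set _) =
      (lmap (fun b : Ltr A => ((some b, some b) : Option (Ltr A) × Option (Ltr A))) P *
        lmap (Prod.map (Option.map (Ltr.mk i)) (Option.map (Ltr.mk i))) K :
        Language (Option (Ltr A) × Option (Ltr A))) := by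
    ext x
    constructor
    · rintro ⟨u, hu, v, hv, huv, rfl⟩
      obtain ⟨p, s, rfl, hn⟩ := exists_dec i u
      have hp : p ∈ fpL π := fpL_prefix π hu
      have hs : s ∈ leastLang (π i) := hu i s p [] (by rw [List.append_nil])
      have := hfin i
      obtain ⟨s', hs', hss⟩ := exists_least (π i) (s ++ [a])
      have hv' : v = p ++ s'.map (Ltr.mk i) := by
        refine huniq v hv _ (fp_glue π hp hn hs') ?_
        rw [← huv, hval, hval2, hss]
      rw [hv', pad_append _ _ _ _ (by simp) (by simp), pad_self, pad_map]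
      exact Language.mem_mul.2 ⟨_, ⟨p, ⟨hp, hn⟩, rfl⟩, _, ⟨pad s s', ⟨s, hs, s', hs', hss.symm, rfl⟩,
        rfl⟩, rfl⟩
    · intro hx
      obtain ⟨_, ⟨p, ⟨hp, hn⟩, rfl⟩, _, ⟨_, ⟨s, hs, s', hs', hss, rfl⟩, rfl⟩, rfl⟩ :=
        Language.mem_mul.1 hx
      refine ⟨p ++ s.map (Ltr.mk i), fp_glue π hp hn hs, p ++ s'.map (Ltr.mk i),
        fp_glue π hp hn hs', ?_, ?_⟩
      · rw [hval2, hval, hss]
      · rw [pad_append _ _ _ _ (by simp) (by simp), pad_self, pad_map]
  rw [e]
  exact hreg

theorem fp_diag (huniq : ∀ u ∈ fpL π, ∀ v ∈ fpL π, val (fpi π) u = val (fpi π) v → u = v)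
    (hL : (fpL π).IsRegular) :
    Language.IsRegular {p : List (Option (Ltr A) × Option (Ltr A)) |
      ∃ u ∈ fpL π, ∃ v ∈ fpL π, val (fpi π) (u ++ []) = val (fpi π) v ∧ p = pad u v} := by
  have hd : Function.Injective (fun b : Ltr A => ((some b, some b) : Option (Ltr A) × Option (Ltr A))) := by
    intro b c h
    have := congrArg Prod.fst h
    exact Option.some_injective _ this
  have e : ({p : List (Option (Ltr A) × Option (Ltr A)) |
      ∃ u ∈ fpL π, ∃ v ∈ fpL π, val (fpi π) (u ++ []) = val (fpi π) v ∧ p = pad u v} : Set _) =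
      lmap (fun b : Ltr A => ((some b, some b) : Option (Ltr A) × Option (Ltr A))) (fpL π) := by
    ext x
    constructor
    · rintro ⟨u, hu, v, hv, huv, rfl⟩
      rw [List.append_nil] at huv
      have := huniq u hu v hv huv
      subst this
      exact ⟨u, hu, pad_self u⟩
    · rintro ⟨u, hu, rfl⟩
      exact ⟨u, hu, u, hu, by rw [List.append_nil], (pad_self u).symm⟩
  rw [e]
  exact reg_map hd hL

end

/-- The free product of finitely many ShortLex-automatic groups is ShortLex-automatic. -/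
theorem freeProd {ι : Type} [Finite ι] (M : ι → Type) [∀ i, Group (M i)]
    (h : ∀ i, ShortLexAutomatic (M i)) : ShortLexAutomatic (CoprodI M) := by
  classical
  choose A hfin hlin π h using h
  have : Fintype ι := Fintype.ofFinite ι
  let _ : LinearOrder ι := LinearOrder.lift' (Fintype.equivFin ι) (Fintype.equivFin ι).injective
  let ψ : Ltr A → (Σₗ i, A i) := fun s => toLex ⟨s.fst, s.snd⟩
  have hψ : Function.Injective ψ := by
    rintro ⟨i, a⟩ ⟨j, b⟩ hab
    have h1 : (⟨i, a⟩ : Σ i, A i) = ⟨j, b⟩ := toLex.injective hab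
    cases h1
    rfl
  let _ : LinearOrder (Ltr A) := LinearOrder.lift' ψ hψ
  have hmono : ∀ (i : ι) (a b : A i), a < b → (⟨i, a⟩ : Ltr A) < ⟨i, b⟩ := by
    intro i a b hab
    show ψ ⟨i, a⟩ < ψ ⟨i, b⟩
    exact Sigma.Lex.right _ _ hab
  have hfinL : Finite (Ltr A) := by
    have : Finite (Σ i, A i) := inferInstance
    exact Finite.of_injective (fun s : Ltr A => (⟨s.fst, s.snd⟩ : Σ i, A i)) hψ
  have hsurj : ∀ i (m : M i), ∃ w, val (π i) w = m := by
    intro i m
    obtain ⟨u, _, hu⟩ := (h i).2.1 m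
    exact ⟨u, hu⟩
  have : Finite (Ltr A) := hfinL
  obtain ⟨h1, huniq⟩ := fp_eq π hmono hfin hsurj
  have hL : (fpL π).IsRegular := fp_regular π fun i => (h i).1
  refine ⟨Ltr A, hfinL, inferInstance, fpi π, ?_⟩
  rw [← h1]
  refine ⟨hL, ?_, ?_⟩
  · intro g
    have hg : ∃ w : List (Ltr A), val (fpi π) w = g := by
      induction g using CoprodI.induction_on with
      | one => exact ⟨[], rfl⟩
      | of i m =>
        obtain ⟨w, hw⟩ := hsurj i m
        exact ⟨w.map (Ltr.mk i), by rw [fp_val_map, hw]⟩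
      | mul x y hx hy =>
        obtain ⟨u, hu⟩ := hx
        obtain ⟨v, hv⟩ := hy
        exact ⟨u ++ v, by rw [val_append, hu, hv]⟩
    obtain ⟨w, hw⟩ := hg
    obtain ⟨u, hu, huw⟩ := exists_least (fpi π) w
    rw [← h1] at hu
    exact ⟨u, hu, by rw [huw, hw]⟩
  · intro a ha
    rcases a with _ | ⟨⟨i, a⟩, l⟩
    · exact fp_diag π huniq hL
    · have hl : l = [] := by
        rw [List.length_cons] at ha
        exact List.length_eq_zero_iff.1 (by omega)
      subst hl
      exact fp_mult π hfin hsurj huniq hL i a ((h i).2.2 [a] le_rfl)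

end Pool.Agent.SLA
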