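import Mathlib
import Pool.Agent.SLA.Main
import Pool.Agent.SLA.FreeProd3
/-!
# Free groups of finite rank are ShortLex-automatic
-/
namespace Pool.Agent.SLA
open Pool.Agent.SLX

/-- Invariance under isomorphisms. -/
theorem sla_equiv {G H : Type} [Group G] [Group H] (e : G ≃* H) (h : ShortLexAutomatic G) :
    ShortLexAutomatic H := by
  obtain ⟨A, hA, hl, π, h1, h2, h3⟩ := h
  refine ⟨A, hA, hl, fun a => e (π a), ?_⟩
  have hval : ∀ w : List A, val (fun a => e (π a)) w = e (val π w) := by
    intro w
    show (w.map fun a => e (π a)).prod = e (w.map π).prod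
    rw [map_list_prod, List.map_map]
    rfl
  have hL : leastLang (fun a => e (π a)) = leastLang π := by
    ext u
    constructor
    · intro hu v hv
      exact hu v (by rw [hval, hval, hv])
    · intro hu v hv
      refine hu v ?_
      rw [hval, hval] at hv
      exact e.injective hv
  rw [hL]
  refine ⟨h1, ?_, ?_⟩
  · intro g
    obtain ⟨u, hu, hug⟩ := h2 (e.symm g)
    exact ⟨u, hu, by rw [hval, hug, e.apply_symm_apply]⟩
  · intro a ha
    have := h3 a ha
    have e1 : ({p : List (Option A × Option A) | ∃ u ∈ leastLang π, ∃ v ∈ leastLang π,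
        val (fun a => e (π a)) (u ++ a) = val (fun a => e (π a)) v ∧ p = pad u v} : Set _) =
        {p : List (Option A × Option A) | ∃ u ∈ leastLang π, ∃ v ∈ leastLang π,
        val π (u ++ a) = val π v ∧ p = pad u v} := by
      ext p
      constructor
      · rintro ⟨u, hu, v, hv, huv, hp⟩
        rw [hval, hval] at huv
        exact ⟨u, hu, v, hv, e.injective huv, hp⟩
      · rintro ⟨u, hu, v, hv, huv, hp⟩
        exact ⟨u, hu, v, hv, by rw [hval, hval, huv], hp⟩
    rw [e1]
    exact this

theorem sla_unit : ShortLexAutomatic (FreeGroup Unit) := by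
  have e : FreeGroup Unit ≃* Multiplicative ℤ := FreeGroup.mulEquivIntOfUnique
  refine sla_equiv e.symm ?_
  refine main ?_ ⊤ inferInstance ?_
  · infer_instance
  · intro a _ b _
    exact mul_comm a b

/-- Free groups of finite rank are ShortLex-automatic. -/
theorem free_sla' (X : Type) [Finite X] : ShortLexAutomatic (FreeGroup X) :=
  sla_equiv (freeGroupEquivCoprodI (ι := X)).symm (freeProd (fun _ : X => FreeGroup Unit)
    fun _ => sla_unit)

theorem free_sla (n : ℕ) : ShortLexAutomatic (FreeGroup (Fin n)) := free_sla' (Fin n)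

end Pool.Agent.SLA
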