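import Pool.Agent.SLA.VProd
import Pool.Agent.SLA.ProdA
import Pool.Agent.VNP.AsFree
import Pool.Agent.VS.FreeQuot
/-!
# Finite direct products: asymptotic dimension and automaticity
-/
namespace Pool.Agent.SLA
open Subgroup Pool.Agent.SLX Pool.Agent.VN

/-- Reindexing a direct product. -/
def piEquiv {α β : Type} (e : α ≃ β) (G : β → Type) [∀ i, Group (G i)] :
    (∀ a, G (e a)) ≃* ∀ b, G b :=
  MulEquiv.symm
    { Equiv.piCongrLeft G e |>.symm with
      map_mul' := fun x y => by
        funext a
        rfl }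

/-- Splitting off a factor. -/
def piOption {α : Type} (G : Option α → Type) [∀ i, Group (G i)] :
    (∀ i, G i) ≃* G none × ∀ i, G (some i) where
  toFun x := (x none, fun i => x (some i))
  invFun y := fun i => match i with
    | none => y.1
    | some i => y.2 i
  left_inv x := by
    funext i
    cases i <;> rfl
  right_inv y := rfl
  map_mul' x y := rfl

/-- A property of groups that passes to isomorphic groups and to direct products of two groups
passes to finite direct products. -/
theorem pi_induction (P : ∀ (G : Type) [Group G], Prop)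
    (hiso : ∀ (G H : Type) [Group G] [Group H], (G ≃* H) → P G → P H)
    (h1 : P Unit) (h2 : ∀ (G H : Type) [Group G] [Group H], P G → P H → P (G × H))
    {κ : Type} [Finite κ] (G : κ → Type) [∀ i, Group (G i)] (h : ∀ i, P (G i)) :
    P (∀ i, G i) := by
  have key : ∀ (κ : Type) [Finite κ], ∀ (G : κ → Type) [∀ i, Group (G i)], (∀ i, P (G i)) →
      P (∀ i, G i) := by
    intro κ _
    induction κ using Finite.induction_empty_option with
    | of_equiv e ih =>
      intro G _ h
      exact hiso _ _ (piEquiv e G) (ih (fun a => G (e a)) fun a => h (e a))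
    | h_empty =>
      intro G _ _
      refine hiso Unit _ ?_ h1
      exact
        { toFun := fun _ i => i.elim
          invFun := fun _ => ()
          left_inv := fun _ => rfl
          right_inv := fun x => by funext i; exact i.elim
          map_mul' := fun _ _ => by funext i; exact i.elim }
    | h_option ih =>
      intro G _ h
      exact hiso _ _ (piOption G).symm (h2 _ _ (h none) (ih (fun i => G (some i)) fun i => h (some i)))
  exact key κ G h

theorem asdimLE_prod {G H : Type} [Group G] [Group H] (hG : ∃ D, VNP.AsdimLE G D)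
    (hH : ∃ D, VNP.AsdimLE H D) : ∃ D, VNP.AsdimLE (G × H) D := by
  obtain ⟨D1, h1⟩ := hG
  obtain ⟨D2, h2⟩ := hH
  have e : (G × H) ⧸ (MonoidHom.fst G H).ker ≃* G :=
    QuotientGroup.quotientKerEquivOfSurjective (MonoidHom.fst G H) Prod.fst_surjective
  refine ⟨_, VNP.asdimLE_ext (MonoidHom.fst G H).ker (D₁ := D2) ?_
    (VNP.asdimLE_of_injective e.toMonoidHom e.injective h1)⟩
  refine VNP.asdimLE_of_injective ((MonoidHom.snd G H).comp (MonoidHom.fst G H).ker.subtype) ?_ h2
  rintro ⟨⟨a, b⟩, ha⟩ ⟨⟨c, d⟩, hc⟩ hab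
  have h3 : a = 1 := ha
  have h4 : c = 1 := hc
  have h5 : b = d := hab
  subst h3 h4 h5
  rfl

theorem asdimLE_pi {κ : Type} [Finite κ] (G : κ → Type) [∀ i, Group (G i)]
    (h : ∀ i, ∃ D, VNP.AsdimLE (G i) D) : ∃ D, VNP.AsdimLE (∀ i, G i) D := by
  refine pi_induction (fun G _ => ∃ D, VNP.AsdimLE G D) ?_ ?_ ?_ G h
  · intro G H _ _ e hG
    obtain ⟨D, hD⟩ := hG
    exact ⟨D, VNP.asdimLE_of_injective e.symm.toMonoidHom e.symm.injective hD⟩
  · exact ⟨0, VNP.asdimLE_finite _⟩
  · intro G H _ _ hG hH
    exact asdimLE_prod hG hH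

/-- Groups that are virtually direct products of free groups. -/
theorem asdimLE_vprod {Q : Type} [Group Q] {κ : Type} [Finite κ] (X : κ → Type)
    [∀ i, Finite (X i)] (Q0 : Subgroup Q) [Q0.FiniteIndex] (e : Q0 ≃* ∀ i, FreeGroup (X i)) :
    ∃ D, VNP.AsdimLE Q D := by
  obtain ⟨D, hD⟩ := asdimLE_pi (fun i => FreeGroup (X i)) fun i => ⟨1, VNP.asdimLE_free (X i)⟩
  exact VNP.asdimLE_of_fi Q0 (VNP.asdimLE_of_injective e.toMonoidHom e.injective hD)

theorem automatic_free (n : ℕ) : Automatic (FreeGroup (Fin n)) := by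
  obtain ⟨A, hA, hl, π, hst⟩ := free_sla n
  exact ⟨A, hA, π, _, hst⟩

theorem automatic_pi {κ : Type} [Finite κ] (G : κ → Type) [∀ i, Group (G i)]
    (h : ∀ i, Automatic (G i)) : Automatic (∀ i, G i) := by
  refine pi_induction (fun G _ => Automatic G) ?_ ?_ ?_ G h
  · intro G H _ _ e hG
    exact automatic_of_equiv e hG
  · have h0 := automatic_free 0
    refine automatic_of_equiv ?_ h0
    exact
      { toFun := fun _ => ()
        invFun := fun _ => 1
        left_inv := fun _ => Subsingleton.elim _ _
        right_inv := fun _ => rfl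
        map_mul' := fun _ _ => rfl }
  · intro G H _ _ hG hH
    exact automatic_prod' hG hH

/-- `ℤ^m × ∏ F_(n i)` is automatic. -/
theorem automatic_zpf (m : ℕ) {κ : Type} [Finite κ] (n : κ → ℕ) :
    Automatic ((Fin m → Multiplicative ℤ) × ∀ i, FreeGroup (Fin (n i))) := by
  have h1 : ShortLexAutomatic (Fin m → Multiplicative ℤ) :=
    SLA.main (inferInstance) ⊤ inferInstance (fun a _ b _ => mul_comm a b)
  exact automatic_prod h1 (automatic_pi _ fun i => automatic_free (n i))

theorem automatic_of_zpf {G : Type} [Group G] (H : Subgroup G) [H.FiniteIndex] {m : ℕ}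
    {κ : Type} [Finite κ] {n : κ → ℕ}
    (e : H ≃* (Fin m → Multiplicative ℤ) × ∀ i, FreeGroup (Fin (n i))) : Automatic G :=
  automatic_of_fi H (automatic_of_equiv e.symm (automatic_zpf m n))

end Pool.Agent.SLA
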