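import Pool.Agent.SLA.VFree
/-!
# Extensions whose quotient is virtually a direct product of free groups
-/
namespace Pool.Agent.SLA
open Subgroup

theorem vp_map {G H : Type} [Group G] [Group H] (f : G →* H) {A B : Subgroup G}
    (h : A.relIndex B ≠ 0) : (A.map f).relIndex (B.map f) ≠ 0 := by
  rw [← relIndex_comap]
  exact fun h0 => h (relIndex_eq_zero_of_le_left (le_comap_map f A) h0)

/-- Commuting with a fixed element modulo a finite set of central commutators. -/
theorem vp_cent {G : Type} [Group G] (B : Subgroup G) (h : G) (T : Set G) (hT : T.Finite)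
    (hc : ∀ z ∈ T, ∀ g, z * g = g * z) (hB : ∀ b ∈ B, b * h * b⁻¹ * h⁻¹ ∈ T) :
    (centralizer ({h} : Set G)).relIndex B ≠ 0 := by
  classical
  have key : ∀ a ∈ B, ∀ b ∈ B, (a * b) * h * (a * b)⁻¹ * h⁻¹ =
      (a * h * a⁻¹ * h⁻¹) * (b * h * b⁻¹ * h⁻¹) := by
    intro a _ b hb
    have h1 := hc _ (hB b hb) a
    calc (a * b) * h * (a * b)⁻¹ * h⁻¹ = a * (b * h * b⁻¹ * h⁻¹) * h * a⁻¹ * h⁻¹ := by group
      _ = (b * h * b⁻¹ * h⁻¹) * a * h * a⁻¹ * h⁻¹ := by rw [← h1]
      _ = (b * h * b⁻¹ * h⁻¹) * (a * h * a⁻¹ * h⁻¹) := by group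
      _ = _ := hc _ (hB b hb) _
  let φ : B →* G :=
    { toFun := fun b => (b : G) * h * (b : G)⁻¹ * h⁻¹
      map_one' := by simp
      map_mul' := fun a b => key a a.2 b b.2 }
  have hfin : Finite φ.range := by
    refine Set.Finite.to_subtype (hT.subset ?_)
    rintro _ ⟨b, rfl⟩
    exact hB b b.2
  have h2 : φ.ker.index ≠ 0 := by
    rw [index_ker]
    exact Nat.card_ne_zero.2 ⟨⟨1⟩, hfin⟩
  have h3 : φ.ker ≤ (centralizer ({h} : Set G)).subgroupOf B := by
    intro b hb
    have h4 : (b : G) * h * (b : G)⁻¹ * h⁻¹ = 1 := hb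
    rw [mem_subgroupOf, mem_centralizer_iff]
    rintro x rfl
    have h5 : (b : G) * x * (b : G)⁻¹ = x := mul_inv_eq_one.1 h4
    exact (mul_inv_eq_iff_eq_mul.1 h5).symm
  intro h0
  apply h2
  exact eq_zero_of_zero_dvd (by
    have := index_dvd_of_le h3
    rwa [show ((centralizer ({h} : Set G)).subgroupOf B).index = 0 from h0] at this)

/-- The central case. -/
theorem central_split {G : Type} [Group G] {κ : Type} [Finite κ] (X : κ → Type)
    [∀ i, Finite (X i)] (p : G →* ∀ i, FreeGroup (X i)) (hp : p.range.FiniteIndex)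
    (hZ : ∀ z, p z = 1 → ∀ g, z * g = g * z)
    (hT : {z : G | p z = 1 ∧ IsOfFinOrder z}.Finite) (hfgN : p.ker.FG)
    (hcom : ∀ a b : G, p (a * b * a⁻¹ * b⁻¹) = 1 → IsOfFinOrder (a * b * a⁻¹ * b⁻¹))
    (A : Subgroup G) (hA : A ≤ p.ker) (hAfi : A.relIndex p.ker ≠ 0) :
    ∃ (n : κ → ℕ) (H : Subgroup G), H.FiniteIndex ∧
      Nonempty (H ≃* (A × ∀ i, FreeGroup (Fin (n i)))) := by
  classical
  have := Fintype.ofFinite κ
  let σ : ∀ i, FreeGroup (X i) →* ∀ i, FreeGroup (X i) := fun i =>
    MonoidHom.mulSingle (fun i => FreeGroup (X i)) i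
  have hσ1 : ∀ i (x : FreeGroup (X i)), σ i x i = x := fun i x =>
    Pi.mulSingle_eq_same (M := fun i => FreeGroup (X i)) i x
  have hσ2 : ∀ i j (x : FreeGroup (X i)), i ≠ j → σ i x j = 1 := fun i j x hij =>
    Pi.mulSingle_eq_of_ne (M := fun i => FreeGroup (X i)) (Ne.symm hij) x
  let π : ∀ i, G →* FreeGroup (X i) := fun i => (Pi.evalMonoidHom _ i).comp p
  let GG : κ → Subgroup G := fun i => (σ i).range.comap p
  have hker : ∀ i, p.ker ≤ GG i := by
    intro i z hz
    refine ⟨1, ?_⟩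
    rw [map_one]
    exact (show p z = 1 from hz).symm
  have hGGp : ∀ i, ∀ g ∈ GG i, p g = σ i (π i g) := by
    rintro i g ⟨x, hx⟩
    have h1 : π i g = x := by
      show p g i = x
      rw [← hx]
      exact hσ1 i x
    rw [h1, hx]
  -- images
  have hGm : ∀ i, ((GG i).map (π i)).FiniteIndex := by
    intro i
    have h1 : (p.range.comap (σ i)).FiniteIndex := by
      rw [finiteIndex_iff, index_comap]
      exact fun h0 => hp.index_ne_zero (eq_zero_of_zero_dvd (by
        have h2 := relIndex_eq_zero_of_le_right (le_top : (σ i).range ≤ ⊤) h0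
        rw [relIndex_top_right] at h2
        rw [h2]))
    refine finiteIndex_of_le (H := p.range.comap (σ i)) ?_
    rintro x ⟨g, hg⟩
    refine ⟨g, ⟨x, hg.symm⟩, ?_⟩
    show p g i = x
    rw [hg]
    exact hσ1 i x
  -- the groups are finitely generated
  have hfg : ∀ i, ∃ S : Finset G, closure (S : Set G) = GG i := by
    intro i
    have h1 : Group.FG (FreeGroup (X i)) := vf_fg (X i)
    have h2 : Group.FG ((GG i).map (π i)) := by
      have := hGm i
      exact fg_of_index_ne_zero _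
    obtain ⟨S1, hS1⟩ := (Group.fg_iff_subgroup_fg _).1 h2
    obtain ⟨S2, hS2⟩ := hfgN
    have h3 : ∀ x : S1, ∃ g ∈ GG i, π i g = x := by
      intro x
      have h4 : (x : FreeGroup (X i)) ∈ (GG i).map (π i) := by
        rw [← hS1]
        exact subset_closure x.2
      exact h4
    choose l hl1 hl2 using h3
    refine ⟨S2 ∪ Finset.univ.image l, ?_⟩
    have h5 : p.ker ≤ closure ((S2 ∪ Finset.univ.image l : Finset G) : Set G) := by
      rw [← hS2]
      exact closure_mono (by rw [Finset.coe_union]; exact Set.subset_union_left)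
    apply le_antisymm
    · rw [closure_le, Finset.coe_union, Set.union_subset_iff]
      constructor
      · intro x hx
        apply hker i
        rw [← hS2]
        exact subset_closure hx
      · intro x hx
        obtain ⟨q, _, rfl⟩ := Finset.mem_image.1 hx
        exact hl1 q
    · intro g hg
      have h6 : π i g ∈ (closure ((S2 ∪ Finset.univ.image l : Finset G) : Set G)).map (π i) ⊓
          (GG i).map (π i) := by
        refine ⟨?_, ⟨g, hg, rfl⟩⟩
        have h7 : π i g ∈ closure (S1 : Set (FreeGroup (X i))) := by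
          rw [hS1]
          exact ⟨g, hg, rfl⟩
        refine (closure_le _).2 ?_ h7
        intro x hx
        refine ⟨l ⟨x, hx⟩, ?_, hl2 ⟨x, hx⟩⟩
        refine subset_closure ?_
        rw [Finset.coe_union]
        exact Or.inr (Finset.mem_coe.2 (Finset.mem_image.2 ⟨⟨x, hx⟩, Finset.mem_univ _, rfl⟩))
      obtain ⟨⟨g', hg', hgg⟩, _⟩ := h6
      have h8 : g' ∈ GG i := by
        refine (closure_le _).2 ?_ hg'
        rw [Finset.coe_union, Set.union_subset_iff]
        constructor
        · intro x hx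
          apply hker i
          rw [← hS2]
          exact subset_closure hx
        · intro x hx
          obtain ⟨q, _, rfl⟩ := Finset.mem_image.1 hx
          exact hl1 q
      have h9 : g'⁻¹ * g ∈ p.ker := by
        show p (g'⁻¹ * g) = 1
        rw [map_mul, map_inv, hGGp i g hg, hGGp i g' h8, hgg, inv_mul_cancel]
      have h10 : g = g' * (g'⁻¹ * g) := by group
      rw [h10]
      exact mul_mem hg' (h5 h9)
  -- centralizers
  have hcen : ∀ i j, i ≠ j → (centralizer (GG j : Set G)).relIndex (GG i) ≠ 0 := by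
    intro i j hij
    obtain ⟨S, hS⟩ := hfg j
    have h1 : ∀ s : S, (centralizer ({(s : G)} : Set G)).relIndex (GG i) ≠ 0 := by
      intro s
      refine vp_cent (GG i) s {z : G | p z = 1 ∧ IsOfFinOrder z} hT (fun z hz => hZ z hz.1) ?_
      intro b hb
      have h2 : (s : G) ∈ GG j := by
        rw [← hS]
        exact subset_closure s.2
      have h3 : p (b * s * b⁻¹ * (s : G)⁻¹) = 1 := by
        rw [map_mul, map_mul, map_mul, map_inv, map_inv, hGGp i b hb, hGGp j s h2]
        have h4 : Commute (σ i (π i b)) (σ j (π j s)) := Pi.mulSingle_commute hij _ _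
        rw [h4.eq]
        group
      exact ⟨h3, hcom b s h3⟩
    have h2 : (⨅ s : S, centralizer ({(s : G)} : Set G)) ≤ centralizer (GG j : Set G) := by
      intro x hx
      rw [← hS, centralizer_closure]
      rw [mem_centralizer_iff]
      intro s hs
      exact mem_centralizer_iff.1 (mem_iInf.1 hx ⟨s, hs⟩) s rfl
    exact fun h0 => relIndex_iInf_ne_zero h1 (relIndex_eq_zero_of_le_left h2 h0)
  let D : κ → Subgroup G := fun i =>
    GG i ⊓ ⨅ j : {j : κ // i ≠ j}, centralizer (GG j : Set G)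
  have hDG : ∀ i, D i ≤ GG i := fun i => inf_le_left
  have hDfi : ∀ i, (D i).relIndex (GG i) ≠ 0 := by
    intro i
    refine relIndex_inf_ne_zero (by rw [relIndex_self]; exact one_ne_zero) ?_
    exact relIndex_iInf_ne_zero (fun j => hcen i j j.2)
  have hDc : ∀ i j, i ≠ j → ∀ x ∈ D i, ∀ y ∈ D j, Commute x y := by
    intro i j hij x hx y hy
    have h1 : x ∈ centralizer (GG j : Set G) := mem_iInf.1 hx.2 ⟨j, hij⟩
    exact (mem_centralizer_iff.1 h1 y (hDG j hy)).symm
  -- the free groups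
  let K : ∀ i, Subgroup (FreeGroup (X i)) := fun i => (D i).map (π i)
  have hK : ∀ i, (K i).FiniteIndex := by
    intro i
    rw [finiteIndex_iff, ← relIndex_mul_index (map_mono (f := π i) (hDG i))]
    exact mul_ne_zero (vp_map (π i) (hDfi i)) (hGm i).index_ne_zero
  have hfgK : ∀ i, Group.FG (K i) := by
    intro i
    have h1 : Group.FG (FreeGroup (X i)) := vf_fg (X i)
    have := hK i
    exact fg_of_index_ne_zero _
  have hfree : ∀ i, IsFreeGroup (K i) := fun i => subgroupIsFreeOfIsFree (K i)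
  let ι : κ → Type := fun i => IsFreeGroup.Generators (K i)
  let ψ : ∀ i, K i ≃* FreeGroup (ι i) := fun i => IsFreeGroup.toFreeGroup (K i)
  have hι : ∀ i, Finite (ι i) := fun i => by
    have := hfgK i
    exact vf_finite_of_fg (Group.fg_of_surjective (f := (ψ i).toMonoidHom) (ψ i).surjective)
  choose g hgD hgq using fun (i : κ) (a : ι i) => ((ψ i).symm (FreeGroup.of a)).2
  let s : ∀ i, FreeGroup (ι i) →* G := fun i => FreeGroup.lift (g i)
  have hsD : ∀ i w, s i w ∈ D i := by
    intro i w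
    induction w using FreeGroup.induction_on with
    | C1 => rw [map_one]; exact (D i).one_mem
    | of a =>
      rw [show s i (FreeGroup.of a) = g i a from FreeGroup.lift_apply_of]
      exact hgD i a
    | inv_of a h => rw [map_inv]; exact (D i).inv_mem h
    | mul x y hx hy => rw [map_mul]; exact (D i).mul_mem hx hy
  have hsπ : ∀ i w, π i (s i w) = ((ψ i).symm w : K i) := by
    intro i w
    have h1 : (π i).comp (s i) = (K i).subtype.comp (ψ i).symm.toMonoidHom := by
      apply FreeGroup.ext_hom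
      intro a
      show π i (s i (FreeGroup.of a)) = ((ψ i).symm (FreeGroup.of a) : K i)
      rw [show s i (FreeGroup.of a) = g i a from FreeGroup.lift_apply_of]
      exact hgq i a
    exact DFunLike.congr_fun h1 w
  have hscomm : Pairwise fun i j => ∀ (x : FreeGroup (ι i)) (y : FreeGroup (ι j)),
      Commute (s i x) (s j y) := fun i j hij x y => hDc i j hij _ (hsD i x) _ (hsD j y)
  let S : (∀ i, FreeGroup (ι i)) →* G := MonoidHom.noncommPiCoprod s hscomm
  have hSp : ∀ (w : ∀ i, FreeGroup (ι i)) (i : κ), p (S w) i = ((ψ i).symm (w i) : K i) := by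
    let R : (∀ i, FreeGroup (ι i)) →* ∀ i, FreeGroup (X i) :=
      { toFun := fun w i => (((ψ i).symm (w i) : K i) : FreeGroup (X i))
        map_one' := by
          funext i
          show (((ψ i).symm 1 : K i) : FreeGroup (X i)) = 1
          rw [map_one]
          rfl
        map_mul' := fun a b => by
          funext i
          show (((ψ i).symm (a i * b i) : K i) : FreeGroup (X i)) = _
          rw [map_mul]
          rfl }
    have h1 : p.comp S = R := by
      apply MonoidHom.pi_ext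
      intro i x
      show p (S (Pi.mulSingle i x)) = R (Pi.mulSingle i x)
      rw [show S (Pi.mulSingle i x) = s i x from
        MonoidHom.noncommPiCoprod_mulSingle s (hcomm := hscomm) i x]
      rw [hGGp i _ (hDG i (hsD i x)), hsπ i x]
      funext j
      by_cases hij : i = j
      · subst hij
        rw [hσ1]
        show _ = (((ψ i).symm ((Pi.mulSingle i x : ∀ i, FreeGroup (ι i)) i) : K i) :
          FreeGroup (X i))
        rw [Pi.mulSingle_eq_same]
      · rw [hσ2 i j _ hij]
        show _ = (((ψ j).symm ((Pi.mulSingle i x : ∀ i, FreeGroup (ι i)) j) : K j) :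
          FreeGroup (X j))
        rw [Pi.mulSingle_eq_of_ne (Ne.symm hij), map_one]
        rfl
    intro w i
    exact congrFun (DFunLike.congr_fun h1 w) i
  -- the product
  let Φ : A × (∀ i, FreeGroup (ι i)) →* G := MonoidHom.noncommCoprod A.subtype S (by
    intro a w
    exact hZ a (hA a.2) (S w))
  have hΦ : ∀ a w, Φ (a, w) = (a : G) * S w := fun a w => rfl
  have hΦi : Function.Injective Φ := by
    rw [injective_iff_map_eq_one]
    rintro ⟨a, w⟩ h1
    rw [hΦ] at h1
    have h2 : p ((a : G) * S w) = 1 := by rw [h1, map_one]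
    rw [map_mul, show p (a : G) = 1 from hA a.2, one_mul] at h2
    have h3 : w = 1 := by
      funext i
      have h4 : p (S w) i = 1 := by rw [h2]; rfl
      rw [hSp] at h4
      have h5 : (ψ i).symm (w i) = 1 := Subtype.ext h4
      exact (map_eq_one_iff _ (ψ i).symm.injective).1 h5
    rw [h3, map_one, mul_one] at h1
    rw [h3]
    exact Prod.ext (Subtype.ext h1) rfl
  refine ⟨fun i => Nat.card (ι i), Φ.range, ?_, ?_⟩
  · -- finite index
    let L : Subgroup G := ⨅ i, (K i).comap (π i)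
    have hL : L.FiniteIndex := by
      have h1 : ∀ i, ((K i).comap (π i)).relIndex ⊤ ≠ 0 := by
        intro i
        rw [relIndex_comap]
        exact fun h0 => (hK i).index_ne_zero (by
          have h2 := relIndex_eq_zero_of_le_right (le_top : Subgroup.map (π i) ⊤ ≤ ⊤) h0
          rwa [relIndex_top_right] at h2)
      have h2 := relIndex_iInf_ne_zero h1
      rw [relIndex_top_right] at h2
      exact ⟨h2⟩
    have hAN' : (A.subgroupOf p.ker).FiniteIndex := ⟨hAfi⟩
    have hfinN : Finite (p.ker ⧸ A.subgroupOf p.ker) := inferInstance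
    have hfinC : Finite (G ⧸ L) := inferInstance
    let θ : (G ⧸ L) × (p.ker ⧸ A.subgroupOf p.ker) → G ⧸ Φ.range :=
      fun q => ((q.1.out * (q.2.out : G) : G) : G ⧸ Φ.range)
    have hθ : Function.Surjective θ := by
      intro z
      obtain ⟨x, rfl⟩ := QuotientGroup.mk_surjective z
      let c : G ⧸ L := (x : G ⧸ L)
      have h1 : c.out⁻¹ * x ∈ L := by
        have h2 : ((c.out : G) : G ⧸ L) = (x : G ⧸ L) := QuotientGroup.out_eq' c
        exact QuotientGroup.eq.1 h2
      have h1' : ∀ i, π i (c.out⁻¹ * x) ∈ K i := fun i => mem_iInf.1 h1 i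
      let w : ∀ i, FreeGroup (ι i) := fun i => ψ i ⟨_, h1' i⟩
      have hw : p (S w) = p (c.out⁻¹ * x) := by
        funext i
        rw [hSp]
        show (((ψ i).symm (ψ i ⟨_, h1' i⟩) : K i) : FreeGroup (X i)) = _
        rw [(ψ i).symm_apply_apply]
        rfl
      have h3 : (c.out⁻¹ * x) * (S w)⁻¹ ∈ p.ker := by
        show p _ = 1
        rw [map_mul, map_inv, hw, mul_inv_cancel]
      let m : p.ker := ⟨_, h3⟩
      let mc : p.ker ⧸ A.subgroupOf p.ker := (m : p.ker ⧸ A.subgroupOf p.ker)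
      have h4 : mc.out⁻¹ * m ∈ A.subgroupOf p.ker := by
        have h5 : ((mc.out : p.ker) : p.ker ⧸ A.subgroupOf p.ker) =
            (m : p.ker ⧸ A.subgroupOf p.ker) := QuotientGroup.out_eq' mc
        exact QuotientGroup.eq.1 h5
      have h6 : ((mc.out : p.ker) : G)⁻¹ * ((c.out⁻¹ * x) * (S w)⁻¹) ∈ A := h4
      refine ⟨(c, mc), ?_⟩
      show ((c.out * (mc.out : G) : G) : G ⧸ Φ.range) = (x : G ⧸ Φ.range)
      rw [QuotientGroup.eq]
      have h7 : (c.out * ((mc.out : p.ker) : G))⁻¹ * x =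
          (((mc.out : p.ker) : G)⁻¹ * ((c.out⁻¹ * x) * (S w)⁻¹)) * S w := by group
      rw [h7]
      exact ⟨(⟨_, h6⟩, w), rfl⟩
    have : Finite (G ⧸ Φ.range) := Finite.of_surjective θ hθ
    exact finiteIndex_of_finite_quotient
  · have e1 : Φ.range ≃* (A × ∀ i, FreeGroup (ι i)) := (MonoidHom.ofInjective hΦi).symm
    have e2 : (∀ i, FreeGroup (ι i)) ≃* ∀ i, FreeGroup (Fin (Nat.card (ι i))) :=
      MulEquiv.piCongrRight (fun i => by
        have := hι i
        exact FreeGroup.freeGroupCongr (Finite.equivFin (ι i)))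
    exact ⟨e1.trans (MulEquiv.prodCongr (MulEquiv.refl A) e2)⟩

/-- Elements centralised by a subgroup of finite index have finitely many conjugates. -/
theorem vp_conj {G : Type} [Group G] (C : Subgroup G) [hC : C.FiniteIndex] (z : G)
    (hz : ∀ c ∈ C, c * z = z * c) : (Set.range (fun g : G => g⁻¹ * z * g)).Finite := by
  classical
  have hfin : Finite (G ⧸ C) := inferInstance
  refine (Set.finite_range (fun c : G ⧸ C => c.out * z * (c.out)⁻¹)).subset ?_
  rintro _ ⟨g, rfl⟩
  refine ⟨(g⁻¹ : G), ?_⟩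
  have h1 : g * (((g⁻¹ : G) : G ⧸ C)).out ∈ C := by
    have h2 : ((((g⁻¹ : G) : G ⧸ C).out : G) : G ⧸ C) = ((g⁻¹ : G) : G ⧸ C) :=
      QuotientGroup.out_eq' _
    have h3 := QuotientGroup.eq.1 h2.symm
    rwa [inv_inv] at h3
  have h4 := hz _ h1
  show ((g⁻¹ : G) : G ⧸ C).out * z * (((g⁻¹ : G) : G ⧸ C).out)⁻¹ = g⁻¹ * z * g
  generalize (((g⁻¹ : G) : G ⧸ C)).out = o at h4
  calc o * z * o⁻¹ = g⁻¹ * ((g * o) * z) * o⁻¹ := by group
    _ = g⁻¹ * (z * (g * o)) * o⁻¹ := by rw [h4]
    _ = _ := by group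

/-- The centraliser of a finite normal subgroup. -/
theorem vp_fin {G : Type} [Group G] (H : Subgroup G) [H.Normal] [Finite H] :
    (centralizer (H : Set G)).FiniteIndex := by
  have h1 : (MulAut.conjNormal (H := H) : G →* MulAut H).ker.FiniteIndex := by
    have : Finite (MulAut H) := inferInstance
    rw [finiteIndex_iff, index_ker]
    exact Nat.card_ne_zero.2 ⟨⟨1⟩, inferInstance⟩
  refine finiteIndex_of_le (H := (MulAut.conjNormal (H := H) : G →* MulAut H).ker) ?_
  intro g hg
  rw [mem_centralizer_iff]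
  intro h hh
  have h2 : MulAut.conjNormal g (⟨h, hh⟩ : H) = ⟨h, hh⟩ := by
    rw [show MulAut.conjNormal g = (1 : MulAut H) from hg]
    rfl
  have h3 := congrArg Subtype.val h2
  rw [MulAut.conjNormal_apply] at h3
  exact (mul_inv_eq_iff_eq_mul.1 h3).symm

/-- **Quotients that are virtually direct products of free groups.** -/
theorem vprod_split {G : Type} [Group G] (N : Subgroup G) [N.Normal] (A : Subgroup G)
    (hAN : A ≤ N) (hAc : ∀ a ∈ A, ∀ b ∈ A, a * b = b * a) (hAfg : A.FG)
    (htf : ∀ a ∈ A, IsOfFinOrder a → a = 1) (hfi : A.relIndex N ≠ 0)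
    (hC : (centralizer (A : Set G)).FiniteIndex)
    (hcf : ∀ x y z : G, z = x * y * x⁻¹ * y⁻¹ → x * z = z * x → y * z = z * y →
      (Set.range (fun g : G => g⁻¹ * z * g)).Finite → IsOfFinOrder z)
    {κ : Type} [Finite κ] (X : κ → Type) [∀ i, Finite (X i)]
    (Q0 : Subgroup (G ⧸ N)) [Q0.FiniteIndex] (e : Q0 ≃* ∀ i, FreeGroup (X i)) :
    ∃ (n : κ → ℕ) (H : Subgroup G), H.FiniteIndex ∧
      Nonempty (H ≃* (A × ∀ i, FreeGroup (Fin (n i)))) := by
  classical
  let q : G →* G ⧸ N := QuotientGroup.mk' N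
  have hqs : Function.Surjective q := QuotientGroup.mk'_surjective N
  have hqN : ∀ g, q g = 1 ↔ g ∈ N := fun g => QuotientGroup.eq_one_iff g
  have hP : (Q0.comap q).FiniteIndex := by
    rw [finiteIndex_iff, index_comap_of_surjective _ hqs]
    exact FiniteIndex.index_ne_zero
  let C1 : Subgroup G := centralizer (A : Set G) ⊓ Q0.comap q
  have hC1 : C1.FiniteIndex := inferInstance
  have hAC1 : A ≤ C1 := by
    intro a ha
    refine ⟨mem_centralizer_iff.2 fun b hb => hAc b hb a ha, ?_⟩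
    show q a ∈ Q0
    rw [(hqN a).2 (hAN ha)]
    exact Q0.one_mem
  have hcA : ∀ g ∈ C1, ∀ a ∈ A, g * a = a * g := fun g hg a ha =>
    (mem_centralizer_iff.1 hg.1 a ha).symm
  -- work in `C1`
  let A1 : Subgroup C1 := A.subgroupOf C1
  have hA1n : A1.Normal := by
    refine ⟨fun a ha g => ?_⟩
    show (g : G) * a * (g : G)⁻¹ ∈ A
    rw [hcA g g.2 a ha, mul_inv_cancel_right]
    exact ha
  let N1 : Subgroup C1 := N.subgroupOf C1
  have hN1n : N1.Normal := inferInstance
  have hA1N1 : A1 ≤ N1 := fun a ha => hAN ha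
  have hA1fi : A1.relIndex N1 ≠ 0 := relIndex_comap_ne_zero C1.subtype hfi
  let r : C1 →* C1 ⧸ A1 := QuotientGroup.mk' A1
  have hrs : Function.Surjective r := QuotientGroup.mk'_surjective A1
  let Nb : Subgroup (C1 ⧸ A1) := N1.map r
  have hNbn : Nb.Normal := hN1n.map r hrs
  have hNbf : Finite Nb := by
    have h1 : (r.ker).relIndex N1 = Nat.card (N1.map r) := relIndex_ker N1 r
    rw [show r.ker = A1 from QuotientGroup.ker_mk' A1] at h1
    exact (Nat.card_ne_zero.1 (h1 ▸ hA1fi)).2
  let C2' : Subgroup C1 := (centralizer (Nb : Set (C1 ⧸ A1))).comap r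
  have hC2' : C2'.FiniteIndex := by
    have h1 := vp_fin Nb
    rw [finiteIndex_iff, index_comap_of_surjective _ hrs]
    exact h1.index_ne_zero
  let C2 : Subgroup G := C2'.map C1.subtype
  have hC2 : C2.FiniteIndex := by
    rw [finiteIndex_iff]
    show (C2'.map C1.subtype).index ≠ 0
    rw [index_map_subtype]
    exact mul_ne_zero hC2'.index_ne_zero hC1.index_ne_zero
  have hC21 : C2 ≤ C1 := map_subtype_le C2'
  have hC2c : ∀ g ∈ C2, ∀ n ∈ C1, n ∈ N → g * n * g⁻¹ * n⁻¹ ∈ A := by
    rintro _ ⟨g, hg, rfl⟩ n hn hnN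
    have h1 : r ⟨n, hn⟩ ∈ Nb := ⟨⟨n, hn⟩, hnN, rfl⟩
    have h2 : r ⟨n, hn⟩ * r g = r g * r ⟨n, hn⟩ := mem_centralizer_iff.1 hg _ h1
    have h3 : r (g * ⟨n, hn⟩ * g⁻¹ * (⟨n, hn⟩ : C1)⁻¹) = 1 := by
      rw [map_mul, map_mul, map_mul, map_inv, map_inv, ← h2]
      group
    have h4 : g * ⟨n, hn⟩ * g⁻¹ * (⟨n, hn⟩ : C1)⁻¹ ∈ A1 := (QuotientGroup.eq_one_iff _).1 h3
    exact h4
  -- `C2` centralises `N ∩ C1`
  have hcent : ∀ g ∈ C2, ∀ n ∈ C1, n ∈ N → g * n = n * g := by
    intro g hg n hn hnN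
    have hc := hC2c g hg n hn hnN
    set c := g * n * g⁻¹ * n⁻¹ with hcdef
    have h1 : g * n * g⁻¹ = c * n := by rw [hcdef]; group
    have h2 : ∀ k : ℕ, g * n ^ k * g⁻¹ = c ^ k * n ^ k := by
      intro k
      have h3 : (g * n * g⁻¹) ^ k = g * n ^ k * g⁻¹ := by
        rw [conj_pow]
      rw [← h3, h1]
      have h4 : Commute c n := (hcA n hn c hc).symm
      exact h4.mul_pow k
    have h5 : ∃ k : ℕ, 0 < k ∧ n ^ k ∈ A := by
      have h6 : Finite (N1 ⧸ A1.subgroupOf N1) := by
        have : (A1.subgroupOf N1).FiniteIndex := ⟨hA1fi⟩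
        infer_instance
      have h7 : (A1.subgroupOf N1).Normal := inferInstance
      obtain ⟨k, hk, hk1⟩ := isOfFinOrder_iff_pow_eq_one.1
        (isOfFinOrder_of_finite (((⟨⟨n, hn⟩, hnN⟩ : N1) : N1 ⧸ A1.subgroupOf N1)))
      refine ⟨k, hk, ?_⟩
      rw [← QuotientGroup.mk_pow, QuotientGroup.eq_one_iff] at hk1
      exact hk1
    obtain ⟨k, hk, hkA⟩ := h5
    have h8 : c ^ k = 1 := by
      have h9 := h2 k
      rw [hcA g (hC21 hg) _ hkA, mul_inv_cancel_right] at h9
      exact (mul_eq_right.1 h9.symm)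
    have h10 : c = 1 := htf c hc (isOfFinOrder_iff_pow_eq_one.2 ⟨k, hk, h8⟩)
    rw [h10, one_mul] at h1
    exact mul_inv_eq_iff_eq_mul.1 h1
  have hAC2 : A ≤ C2 := by
    intro a ha
    refine ⟨⟨a, hAC1 ha⟩, ?_, rfl⟩
    show r ⟨a, hAC1 ha⟩ ∈ centralizer (Nb : Set (C1 ⧸ A1))
    rw [show r ⟨a, hAC1 ha⟩ = 1 from (QuotientGroup.eq_one_iff _).2 ha]
    exact one_mem _
  -- the homomorphism
  have hQ : ∀ g : C2, q g ∈ Q0 := fun g => (hC21 g.2).2
  let p0 : C2 →* Q0 := (q.comp C2.subtype).codRestrict Q0 hQ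
  let p : C2 →* ∀ i, FreeGroup (X i) := e.toMonoidHom.comp p0
  have hpk : ∀ g : C2, p g = 1 ↔ (g : G) ∈ N := by
    intro g
    rw [← hqN]
    constructor
    · intro h
      have h1 : p0 g = 1 := (map_eq_one_iff e e.injective).1 h
      exact congrArg Subtype.val h1
    · intro h
      have h1 : p0 g = 1 := Subtype.ext h
      show e (p0 g) = 1
      rw [h1, map_one]
  have hprange : p.range.FiniteIndex := by
    have h1 : (C2.map q).index ≠ 0 := by
      intro h0
      have h1 := index_map_dvd C2 hqs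
      rw [h0, zero_dvd_iff] at h1
      exact hC2.index_ne_zero h1
    have h2 : p.range = ((C2.map q).subgroupOf Q0).map e.toMonoidHom := by
      ext x
      constructor
      · rintro ⟨g, rfl⟩
        exact ⟨p0 g, ⟨g, g.2, rfl⟩, rfl⟩
      · rintro ⟨y, ⟨g, hg, hgy⟩, rfl⟩
        refine ⟨⟨g, hg⟩, ?_⟩
        show e (p0 ⟨g, hg⟩) = e y
        congr 1
        exact Subtype.ext hgy
    rw [finiteIndex_iff, h2]
    have h3 : ((C2.map q).subgroupOf Q0).index ≠ 0 := by
      intro h0
      have h4 := relIndex_eq_zero_of_le_right (le_top : Q0 ≤ ⊤) h0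
      rw [relIndex_top_right] at h4
      exact h1 h4
    intro h0
    have h4 := index_map_dvd ((C2.map q).subgroupOf Q0) (f := e.toMonoidHom) e.surjective
    rw [show (Subgroup.map e.toMonoidHom ((C2.map q).subgroupOf Q0)).index = 0 from h0,
      zero_dvd_iff] at h4
    exact h3 h4
  have hZ : ∀ z : C2, p z = 1 → ∀ g : C2, z * g = g * z := by
    intro z hz g
    exact Subtype.ext (hcent g g.2 z (hC21 z.2) ((hpk z).1 hz)).symm
  let A2 : Subgroup C2 := A.subgroupOf C2
  have hA2 : A2 ≤ p.ker := fun a ha => (hpk a).2 (hAN ha)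
  have hpker : p.ker = N.subgroupOf C2 := by
    ext g
    exact hpk g
  have hA2fi : A2.relIndex p.ker ≠ 0 := by
    rw [hpker]
    exact relIndex_comap_ne_zero C2.subtype hfi
  have hA2fi' : (A2.subgroupOf p.ker).FiniteIndex := ⟨hA2fi⟩
  have hfinq : Finite (p.ker ⧸ A2.subgroupOf p.ker) := inferInstance
  have hA2fg : A2.FG := by
    have h1 : Group.FG A := (Group.fg_iff_subgroup_fg A).2 hAfg
    have h2 : Group.FG A2 := Group.fg_of_surjective
      (f := (subgroupOfEquivOfLe hAC2).symm.toMonoidHom) (subgroupOfEquivOfLe hAC2).symm.surjective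
    exact (Group.fg_iff_subgroup_fg A2).1 h2
  have hkfg : p.ker.FG := by
    have := Fintype.ofFinite (p.ker ⧸ A2.subgroupOf p.ker)
    obtain ⟨T, hT⟩ := hA2fg
    refine ⟨T ∪ Finset.univ.image
      (fun c : p.ker ⧸ A2.subgroupOf p.ker => ((c.out : p.ker) : C2)), ?_⟩
    apply le_antisymm
    · rw [closure_le, Finset.coe_union, Set.union_subset_iff]
      constructor
      · intro x hx
        apply hA2
        rw [← hT]
        exact subset_closure hx
      · intro x hx
        obtain ⟨c, _, rfl⟩ := Finset.mem_image.1 hx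
        exact (c.out : p.ker).2
    · intro x hx
      set c : p.ker ⧸ A2.subgroupOf p.ker := QuotientGroup.mk (⟨x, hx⟩ : p.ker) with hc
      have h3 : (c.out)⁻¹ * (⟨x, hx⟩ : p.ker) ∈ A2.subgroupOf p.ker := by
        rw [← QuotientGroup.eq, QuotientGroup.out_eq']
      have h4 : ((c.out : p.ker) : C2)⁻¹ * x ∈ A2 := h3
      have h5 : x = ((c.out : p.ker) : C2) * (((c.out : p.ker) : C2)⁻¹ * x) := by group
      rw [h5]
      refine mul_mem (subset_closure ?_) ?_
      · rw [Finset.coe_union]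
        exact Or.inr (Finset.mem_coe.2 (Finset.mem_image.2 ⟨c, Finset.mem_univ _, rfl⟩))
      · refine (closure_mono ?_ : closure (T : Set C2) ≤ _) (hT.ge h4)
        rw [Finset.coe_union]
        exact Set.subset_union_left
  have hTf : {z : C2 | p z = 1 ∧ IsOfFinOrder z}.Finite := by
    refine Set.Finite.of_injOn (f := fun z : C2 =>
      if h : z ∈ p.ker then ((⟨z, h⟩ : p.ker) : p.ker ⧸ A2.subgroupOf p.ker) else
        ((1 : p.ker) : p.ker ⧸ A2.subgroupOf p.ker)) (t := Set.univ) ?_ ?_ Set.finite_univ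
    · intro x _
      exact Set.mem_univ _
    · rintro x ⟨hx1, hx2⟩ y ⟨hy1, hy2⟩ hxy
      have hx : x ∈ p.ker := hx1
      have hy : y ∈ p.ker := hy1
      simp only [dif_pos hx, dif_pos hy] at hxy
      have h0 : (⟨x, hx⟩ : p.ker)⁻¹ * ⟨y, hy⟩ ∈ A2.subgroupOf p.ker := QuotientGroup.eq.1 hxy
      have h1 : x⁻¹ * y ∈ A2 := h0
      have h2 : IsOfFinOrder (x⁻¹ * y) := by
        refine Commute.isOfFinOrder_mul ?_ hx2.inv hy2
        exact ((show Commute x y from hZ x hx1 y)).inv_left
      have h3 : ((x⁻¹ * y : C2) : G) = 1 := by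
        refine htf _ h1 ?_
        exact (Submonoid.isOfFinOrder_coe (H := C2.toSubmonoid)).2 h2
      have h4 : x⁻¹ * y = 1 := Subtype.ext h3
      exact inv_mul_eq_one.1 h4
  have hcom : ∀ a b : C2, p (a * b * a⁻¹ * b⁻¹) = 1 → IsOfFinOrder (a * b * a⁻¹ * b⁻¹) := by
    intro a b hab
    have h1 := hZ _ hab
    have h2 : IsOfFinOrder ((a * b * a⁻¹ * b⁻¹ : C2) : G) := by
      refine hcf a b _ rfl ?_ ?_ ?_
      · exact congrArg Subtype.val (h1 a).symm
      · exact congrArg Subtype.val (h1 b).symm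
      · refine vp_conj C2 _ ?_
        intro c hc
        exact congrArg Subtype.val (h1 ⟨c, hc⟩).symm
    exact (Submonoid.isOfFinOrder_coe (H := C2.toSubmonoid)).1 h2
  obtain ⟨n, H', hH', ⟨f⟩⟩ := central_split X p hprange hZ hTf hkfg hcom A2 hA2 hA2fi
  refine ⟨n, H'.map C2.subtype, ?_, ⟨?_⟩⟩
  · rw [finiteIndex_iff, index_map_subtype]
    exact mul_ne_zero hH'.index_ne_zero hC2.index_ne_zero
  · exact (H'.equivMapOfInjective _ C2.subtype_injective).symm.trans
      (f.trans (MulEquiv.prodCongr (subgroupOfEquivOfLe hAC2) (MulEquiv.refl _)))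

end Pool.Agent.SLA
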