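import Mathlib
import Pool.Agent.SLA.FreeProd3
import Pool.Agent.SLA.Uni
/-!
# Free products of automatic groups are automatic
-/
namespace Pool.Agent.SLA
open Pool.Agent.SLX Monoid Monoid.CoprodI

section
variable {ι : Type} {M : ι → Type} [∀ i, Group (M i)] {A : ι → Type}
    (π : ∀ i, A i → M i) (L : ∀ i, Language (A i))

/-- The first letter is not of type `i`. -/
def NoFirst (A : ι → Type) (i : ι) (z : List (Ltr A)) : Prop :=
  ∀ (x : List (Ltr A)) (b : A i), z ≠ ⟨i, b⟩ :: x

/-- All maximal factors with letters of one type `i` are in `L i`. -/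
def gpL : Language (Ltr A) :=
  {v | ∀ (i : ι) (t : List (A i)) (x z : List (Ltr A)), v = x ++ t.map (Ltr.mk i) ++ z →
    NoLast A i x → NoFirst A i z → t ∈ L i}

theorem noFirst_nil (i : ι) : NoFirst A i [] := by
  intro x b h
  cases h

theorem noLast_nil (i : ι) : NoLast A i [] := by
  intro x b h
  simp at h

theorem noFirst_cons {i j : ι} (a : A j) (l : List (Ltr A)) (h : j ≠ i) :
    NoFirst A i (⟨j, a⟩ :: l) := by
  intro x b hx
  rw [List.cons.injEq, Ltr.mk.injEq] at hx
  exact h hx.1.1

theorem noFirst_map {i j : ι} (s : List (A j)) (h : j ≠ i) :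
    NoFirst A i (s.map (Ltr.mk j)) := by
  cases s with
  | nil => exact noFirst_nil i
  | cons a s => exact noFirst_cons a _ h

theorem noFirst_append {i : ι} {l : Ltr A} {y z : List (Ltr A)} (h : NoFirst A i (l :: y)) :
    NoFirst A i (l :: z) := by
  intro x b hx
  rw [List.cons.injEq] at hx
  exact h y b (by rw [hx.1])

theorem noLast_append {i : ι} {l : Ltr A} {y z : List (Ltr A)} (h : NoLast A i (y ++ [l])) :
    NoLast A i (z ++ [l]) := by
  intro x b hx
  have h1 := (List.append_inj' hx rfl).2
  exact h y b (by rw [h1])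

theorem noLast_map {i j : ι} (s : List (A j)) (h : j ≠ i) :
    NoLast A i (s.map (Ltr.mk j)) := by
  rcases nil_or_snoc s with rfl | ⟨s', b, rfl⟩
  · exact noLast_nil i
  · intro x c hx
    rw [List.map_append] at hx
    have h1 := (List.append_inj' hx rfl).2
    rw [List.map_cons, List.map_nil, List.cons.injEq, Ltr.mk.injEq] at h1
    exact h h1.1.1

/-- A string of letters of type `i` which does not start with type `i` is empty. -/
theorem map_noFirst {i : ι} {s : List (A i)} (h : NoFirst A i (s.map (Ltr.mk i))) : s = [] := by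
  cases s with
  | nil => rfl
  | cons a s => exact absurd rfl (h (s.map (Ltr.mk i)) a)

theorem exists_decF (i : ι) (u : List (Ltr A)) : ∃ (s : List (A i)) (z : List (Ltr A)),
    u = s.map (Ltr.mk i) ++ z ∧ NoFirst A i z := by
  induction u with
  | nil => exact ⟨[], [], rfl, noFirst_nil i⟩
  | cons l u ih =>
    obtain ⟨j, b⟩ := l
    by_cases hj : j = i
    · subst hj
      obtain ⟨s, z, h1, h2⟩ := ih
      exact ⟨b :: s, z, by rw [h1]; rfl, h2⟩
    · exact ⟨[], ⟨j, b⟩ :: u, rfl, noFirst_cons b u hj⟩

theorem reg_noFirst (i : ι) : Language.IsRegular {p | NoFirst A i p} := by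
  refine regular_of_data (S := Prop × Prop) _ (fun x => (x = [], NoFirst A i x)) Set.univ
    (Set.toFinite _) ?_ ?_
  · intro x y _
    trivial
  · intro x x' hd y hy
    have hd1 : (x = []) = (x' = []) := congrArg Prod.fst hd
    have hd2 : NoFirst A i x = NoFirst A i x' := congrArg Prod.snd hd
    cases x with
    | nil =>
      have h1 : x' = [] := by
        rw [← hd1]
      rw [h1]
      exact hy
    | cons a x =>
      have h3 : NoFirst A i (a :: x) := by
        have hy' : NoFirst A i (a :: (x ++ y)) := hy
        exact noFirst_append hy'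
      rw [hd2] at h3
      cases x' with
      | nil =>
        exfalso
        have h4 : ((a :: x) = []) := by rw [hd1]
        cases h4
      | cons a' x' => exact noFirst_append (z := x' ++ y) h3

/-- The strings which do not end with a letter of type `i`. -/
def nlL (A : ι → Type) (i : ι) : Language (Ltr A) := {p | NoLast A i p}

/-- The strings which do not start with a letter of type `i`. -/
def nfL (A : ι → Type) (i : ι) : Language (Ltr A) := {p | NoFirst A i p}

theorem gp_regular [Finite ι] (hreg : ∀ i, (L i).IsRegular) : (gpL L).IsRegular := by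
  apply Language.IsRegular.of_compl
  have e : ((gpL L)ᶜ : Language (Ltr A)) = {w | ∃ i : ι, w ∈
      nlL A i * lmap (Ltr.mk i) ((L i)ᶜ : Language (A i)) * nfL A i} := by
    ext w
    constructor
    · intro hw
      have hw' : ¬ (∀ (i : ι) (t : List (A i)) (x z : List (Ltr A)),
          w = x ++ t.map (Ltr.mk i) ++ z → NoLast A i x → NoFirst A i z → t ∈ L i) := hw
      push Not at hw'
      obtain ⟨i, t, x, z, h1, h2, h3, h4⟩ := hw'
      refine ⟨i, Language.mem_mul.2 ⟨x ++ t.map (Ltr.mk i), Language.mem_mul.2
        ⟨x, h2, t.map (Ltr.mk i), ⟨t, h4, rfl⟩, rfl⟩, z, h3, h1.symm⟩⟩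
    · rintro ⟨i, hw⟩ hw'
      obtain ⟨y, hy, z, hz, hyz⟩ := Language.mem_mul.1 hw
      obtain ⟨x, hx, _, ⟨t, ht, rfl⟩, hxt⟩ := Language.mem_mul.1 hy
      exact ht (hw' i t x z (by rw [hxt, hyz]) hx hz)
  rw [e]
  refine reg_iUnion _ fun i => ?_
  exact reg_mul (reg_mul (reg_noLast i) (reg_map (mk_inj i) (hreg i).compl)) (reg_noFirst i)

variable {L}

theorem gp_last {i : ι} {p : List (Ltr A)} {s : List (A i)} (h : p ++ s.map (Ltr.mk i) ∈ gpL L)
    (hn : NoLast A i p) : s ∈ L i :=
  h i s p [] (by rw [List.append_nil]) hn (noFirst_nil i)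

variable (hnil : ∀ i, [] ∈ L i)
include hnil

theorem gp_nil : ([] : List (Ltr A)) ∈ gpL L := by
  intro i t x z h _ _
  have h1 : t = [] := by
    have h2 : (x ++ t.map (Ltr.mk i) ++ z).length = 0 := by rw [← h]; rfl
    rw [List.length_append, List.length_append, List.length_map] at h2
    exact List.length_eq_zero_iff.1 (by omega)
  rw [h1]
  exact hnil i

theorem gp_prefix {i : ι} {p : List (Ltr A)} {s : List (A i)} (h : p ++ s.map (Ltr.mk i) ∈ gpL L)
    (hn : NoLast A i p) : p ∈ gpL L := by
  intro j t x z hp hx hz
  rcases nil_or_snoc t with rfl | ⟨t', b, rfl⟩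
  · exact hnil j
  cases z with
  | nil =>
    have hj : i ≠ j := by
      rintro rfl
      refine hn (x ++ t'.map (Ltr.mk i)) b ?_
      rw [hp, List.map_append, List.append_nil, List.append_assoc]
      rfl
    refine h j _ x (s.map (Ltr.mk i)) ?_ hx (noFirst_map s hj)
    rw [hp, List.append_nil]
  | cons l z =>
    refine h j _ x (l :: z ++ s.map (Ltr.mk i)) ?_ hx (noFirst_append hz)
    rw [hp]
    simp only [List.append_assoc]

theorem gp_suffix {i : ι} {z : List (Ltr A)} {s : List (A i)} (h : s.map (Ltr.mk i) ++ z ∈ gpL L)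
    (hn : NoFirst A i z) : z ∈ gpL L := by
  intro j t x y hp hx hy
  cases t with
  | nil => exact hnil j
  | cons b t =>
    rcases nil_or_snoc x with rfl | ⟨x', l, rfl⟩
    · have hj : i ≠ j := by
        rintro rfl
        refine hn (t.map (Ltr.mk i) ++ y) b ?_
        rw [hp]
        rfl
      refine h j _ (s.map (Ltr.mk i)) y ?_ (noLast_map s hj) hy
      rw [hp, List.nil_append, List.append_assoc]
    · refine h j _ (s.map (Ltr.mk i) ++ (x' ++ [l])) y ?_ ?_ hy
      · rw [hp]
        simp only [List.append_assoc]
      · rw [← List.append_assoc]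
        exact noLast_append hx

theorem gp_glue {i : ι} {p : List (Ltr A)} (hp : p ∈ gpL L) (hn : NoLast A i p) {s : List (A i)}
    (hs : s ∈ L i) : p ++ s.map (Ltr.mk i) ∈ gpL L := by
  intro j t x z h hx hz
  rcases nil_or_snoc t with rfl | ⟨t', b, rfl⟩
  · exact hnil j
  set t : List (A j) := t' ++ [b] with ht
  -- the prefix case
  have hsub : ∀ c : List (Ltr A), c ++ t.map (Ltr.mk j) ++ z = s.map (Ltr.mk i) →
      x = p ++ c → t ∈ L j := by
    intro c hc hxc
    have hj : j = i := by
      have h1 : (⟨j, b⟩ : Ltr A) ∈ s.map (Ltr.mk i) := by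
        rw [← hc, ht]
        simp
      obtain ⟨a, _, ha⟩ := List.mem_map.1 h1
      rw [Ltr.mk.injEq] at ha
      exact ha.1.symm
    subst hj
    obtain ⟨s1, s2, h1, h2, h3⟩ := List.append_eq_map_iff.1 hc
    obtain ⟨s3, s4, h4, h5, h6⟩ := List.append_eq_map_iff.1 h2.symm
    have h7 : s4 = t := List.map_injective_iff.2 (mk_inj j) h6
    have h8 : s2 = [] := by
      rw [← h3] at hz
      exact map_noFirst hz
    have h9 : s3 = [] := by
      rcases nil_or_snoc s3 with h | ⟨s', b', h⟩
      · exact h
      · exfalso
        refine hx (p ++ s'.map (Ltr.mk j)) b' ?_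
        rw [hxc, ← h5, h, List.map_append, List.append_assoc]
        rfl
    rw [h1, h4, h7, h8, h9, List.append_nil, List.nil_append] at hs
    exact hs
  rcases List.append_eq_append_iff.1 h with ⟨a', h1, h2⟩ | ⟨c', h1, h2⟩
  · -- `x ++ T = p ++ a'`, `S = a' ++ z`
    rcases List.append_eq_append_iff.1 h1 with ⟨c, h3, h4⟩ | ⟨c, h3, h4⟩
    · -- `p = x ++ c`, `T = c ++ a'`
      rcases nil_or_snoc a' with rfl | ⟨a'', l, rfl⟩
      · rw [List.append_nil] at h4
        refine hp j t x [] ?_ hx (noFirst_nil j)
        rw [h3, List.append_nil, h4]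
      · have hj : j = i := by
          have h5 : l ∈ s.map (Ltr.mk i) := by
            rw [h2]
            simp
          have h6 : l ∈ t.map (Ltr.mk j) := by
            rw [h4]
            simp
          obtain ⟨a, _, ha⟩ := List.mem_map.1 h5
          obtain ⟨a1, _, ha1⟩ := List.mem_map.1 h6
          rw [← ha, Ltr.mk.injEq] at ha1
          exact ha1.1
        subst hj
        rcases nil_or_snoc c with rfl | ⟨c', l', rfl⟩
        · refine hsub [] ?_ ?_
          · rw [h4, List.nil_append, List.nil_append, h2]
          · rw [h3, List.append_nil, List.append_nil]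
        · exfalso
          have h6 : l' ∈ t.map (Ltr.mk j) := by
            rw [h4]
            simp
          obtain ⟨a1, _, ha1⟩ := List.mem_map.1 h6
          refine hn (x ++ c') a1 ?_
          rw [h3, ← ha1, List.append_assoc]
    · -- `x = p ++ c`, `a' = c ++ T`
      refine hsub c ?_ h3
      rw [h2, h4]
  · refine hp j t x c' ?_ hx ?_
    · rw [h1]
    · cases c' with
      | nil => exact noFirst_nil j
      | cons l c' =>
        rw [h2] at hz
        exact noFirst_append (y := c' ++ s.map (Ltr.mk i)) hz

variable (hun : ∀ i, ∀ u ∈ L i, ∀ v ∈ L i, val (π i) u = val (π i) v → u = v)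
include hun

/-- Strings of the language are determined by their value. -/
theorem gp_form [DecidableEq ι] [∀ i, DecidableEq (M i)] (nf : ∀ i, M i → List (A i))
    (hnf : ∀ i m, nf i m ∈ L i) (hval : ∀ i m, val (π i) (nf i m) = m)
    (n : ℕ) (v : List (Ltr A)) (hn : v.length = n) (hv : v ∈ gpL L) :
    fpW nf (val (fpi π) v • (Word.empty : Word M)) = v := by
  have hrc : ∀ (i : ι) (p : Word.Pair M i), fpW nf (Word.rcons p) =
      (nf i p.head).map (Ltr.mk i) ++ fpW nf p.tail := by
    intro i p
    by_cases hp : p.head = 1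
    · rw [Word.rcons, dif_pos hp, hp]
      have h1 : nf i 1 = [] := hun i _ (hnf i 1) _ (hnil i) (hval i 1)
      rw [h1]
      rfl
    · rw [Word.rcons, dif_neg hp]
      rfl
  induction n using Nat.strong_induction_on generalizing v with
  | _ n IH =>
    rcases v with _ | ⟨⟨i, a⟩, v'⟩
    · rw [show val (fpi π) ([] : List (Ltr A)) = 1 from rfl, one_smul]
      rfl
    · obtain ⟨t, z, h1, h2⟩ := exists_decF i (⟨i, a⟩ :: v')
      rw [h1] at hv hn ⊢
      have ht : t ≠ [] := by
        rintro rfl
        exact h2 v' a h1.symm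
      have hz : z ∈ gpL L := gp_suffix hnil hv h2
      have htL : t ∈ L i := hv i t [] z rfl (noLast_nil i) h2
      have hlt : z.length < n := by
        rw [← hn, List.length_append, List.length_map]
        have := List.length_pos_of_ne_nil ht
        omega
      have ih := IH z.length hlt z rfl hz
      have e1 : val (fpi π) (t.map (Ltr.mk i) ++ z) = of (val (π i) t) * val (fpi π) z := by
        rw [val_append, fp_val_map]
      rw [e1, mul_smul]
      set w : Word M := val (fpi π) z • (Word.empty : Word M) with hw
      rw [Word.of_smul_def, hrc]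
      have e2 : Word.rcons (Word.equivPair i w) = w := by
        rw [← Word.equivPair_symm, Equiv.symm_apply_apply]
      have e3 : z = (nf i (Word.equivPair i w).head).map (Ltr.mk i) ++
          fpW nf (Word.equivPair i w).tail := by
        rw [← hrc, e2, ih]
      have e4 : nf i (Word.equivPair i w).head = [] := by
        cases hh : nf i (Word.equivPair i w).head with
        | nil => rfl
        | cons b l =>
          exfalso
          rw [hh] at e3
          exact h2 _ b e3
      have e5 : (Word.equivPair i w).head = 1 := by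
        rw [← hval i (Word.equivPair i w).head, e4]
        rfl
      rw [e4, List.map_nil, List.nil_append] at e3
      show (nf i (val (π i) t * (Word.equivPair i w).head)).map (Ltr.mk i) ++
        fpW nf (Word.equivPair i w).tail = _
      rw [e5, mul_one, ← e3]
      have e6 : nf i (val (π i) t) = t := hun i _ (hnf i _) _ htL (hval i _)
      rw [e6]

end

/-- The free product of finitely many automatic groups is automatic: the structure. -/
theorem gp_structure {ι : Type} [Finite ι] (M : ι → Type) [∀ i, Group (M i)] (A : ι → Type)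
    (π : ∀ i, A i → M i) (L : ∀ i, Language (A i)) (h : ∀ i, IsAutomaticStructure (π i) (L i))
    (hnil : ∀ i, [] ∈ L i)
    (hun : ∀ i, ∀ u ∈ L i, ∀ v ∈ L i, val (π i) u = val (π i) v → u = v) :
    IsAutomaticStructure (fpi π) (gpL L) ∧
      (∀ u ∈ gpL L, ∀ v ∈ gpL L, val (fpi π) u = val (fpi π) v → u = v) := by
  classical
  have hex : ∀ i (m : M i), ∃ u ∈ L i, val (π i) u = m := fun i m => (h i).2.1 m
  choose nf hnf hnv using hex
  have hL : (gpL L).IsRegular := gp_regular L fun i => (h i).1
  have huniq : ∀ u ∈ gpL L, ∀ v ∈ gpL L, val (fpi π) u = val (fpi π) v → u = v := by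
    intro u hu v hv huv
    rw [← gp_form π hnil hun nf hnf hnv _ u rfl hu, ← gp_form π hnil hun nf hnf hnv _ v rfl hv, huv]
  have hval : ∀ (i : ι) (p : List (Ltr A)) (s : List (A i)),
      val (fpi π) (p ++ s.map (Ltr.mk i)) = val (fpi π) p * of (val (π i) s) := by
    intro i p s
    rw [val_append, fp_val_map]
  have hd : Function.Injective
      (fun b : Ltr A => ((some b, some b) : Option (Ltr A) × Option (Ltr A))) := by
    intro b c h
    have := congrArg Prod.fst h
    exact Option.some_injective _ this
  refine ⟨⟨hL, ?_, ?_⟩, huniq⟩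
  · have key : ∀ k g : CoprodI M, (∃ u ∈ gpL L, val (fpi π) u = g) →
        ∃ u ∈ gpL L, val (fpi π) u = g * k := by
      intro k
      induction k using CoprodI.induction_on with
      | one =>
        intro g hg
        rw [mul_one]
        exact hg
      | of i m =>
        rintro g ⟨u, hu, rfl⟩
        obtain ⟨p, s, rfl, hn⟩ := exists_dec i u
        refine ⟨p ++ (nf i (val (π i) s * m)).map (Ltr.mk i),
          gp_glue hnil (gp_prefix hnil hu hn) hn (hnf i _), ?_⟩
        rw [hval, hval, hnv, map_mul, mul_assoc]
      | mul x y hx hy =>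
        intro g hg
        rw [← mul_assoc]
        exact hy _ (hx _ hg)
    intro g
    have := key g 1 ⟨[], gp_nil hnil, rfl⟩
    rwa [one_mul] at this
  · intro a ha
    rcases a with _ | ⟨⟨i, a⟩, l⟩
    · have e : ({p : List (Option (Ltr A) × Option (Ltr A)) |
          ∃ u ∈ gpL L, ∃ v ∈ gpL L, val (fpi π) (u ++ []) = val (fpi π) v ∧ p = pad u v} : Set _) =
          lmap (fun b : Ltr A => ((some b, some b) : Option (Ltr A) × Option (Ltr A)))
            (gpL L) := by
        ext x
        constructor
        · rintro ⟨u, hu, v, hv, huv, rfl⟩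
          rw [List.append_nil] at huv
          have := huniq u hu v hv huv
          subst this
          exact ⟨u, hu, pad_self u⟩
        · rintro ⟨u, hu, rfl⟩
          exact ⟨u, hu, u, hu, by rw [List.append_nil], (pad_self u).symm⟩
      rw [e]
      exact reg_map hd hL
    · have hl : l = [] := by
        rw [List.length_cons] at ha
        exact List.length_eq_zero_iff.1 (by omega)
      subst hl
      have hval2 : ∀ (p : List (Ltr A)) (s : List (A i)),
          val (fpi π) (p ++ s.map (Ltr.mk i) ++ [⟨i, a⟩]) =
            val (fpi π) p * of (val (π i) (s ++ [a])) := by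
        intro p s
        have e : p ++ s.map (Ltr.mk i) ++ [⟨i, a⟩] = p ++ (s ++ [a]).map (Ltr.mk i) := by
          rw [List.map_append, List.append_assoc]
          rfl
        rw [e, hval]
      set P : Language (Ltr A) := gpL L ⊓ ({p | NoLast A i p} : Set (List (Ltr A))) with hP
      have hPreg : P.IsRegular := Language.IsRegular.inf hL (reg_noLast i)
      set K : Language (Option (A i) × Option (A i)) := {p |
          ∃ u ∈ L i, ∃ v ∈ L i,
            val (π i) (u ++ [a]) = val (π i) v ∧ p = pad u v} with hKdef
      have hK : K.IsRegular := (h i).2.2 [a] le_rfl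
      have hm : Function.Injective (Prod.map (Option.map (Ltr.mk i : A i → Ltr A))
          (Option.map (Ltr.mk i : A i → Ltr A))) :=
        Function.Injective.prodMap (Option.map_injective (mk_inj i))
          (Option.map_injective (mk_inj i))
      have hreg := reg_mul (reg_map hd hPreg) (reg_map hm hK)
      have e : ({p : List (Option (Ltr A) × Option (Ltr A)) |
          ∃ u ∈ gpL L, ∃ v ∈ gpL L,
            val (fpi π) (u ++ [⟨i, a⟩]) = val (fpi π) v ∧ p = pad u v} : Set _) =
          (lmap (fun b : Ltr A => ((some b, some b) : Option (Ltr A) × Option (Ltr A))) P *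
            lmap (Prod.map (Option.map (Ltr.mk i)) (Option.map (Ltr.mk i))) K :
            Language (Option (Ltr A) × Option (Ltr A))) := by
        ext x
        constructor
        · rintro ⟨u, hu, v, hv, huv, rfl⟩
          obtain ⟨p, s, rfl, hn⟩ := exists_dec i u
          have hp : p ∈ gpL L := gp_prefix hnil hu hn
          have hs : s ∈ L i := gp_last hu hn
          have hv' : v = p ++ (nf i (val (π i) (s ++ [a]))).map (Ltr.mk i) := by
            refine huniq v hv _ (gp_glue hnil hp hn (hnf i _)) ?_
            rw [← huv, hval, hval2, hnv]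
          rw [hv', pad_append _ _ _ _ (by simp) (by simp), pad_self, pad_map]
          exact Language.mem_mul.2 ⟨_, ⟨p, ⟨hp, hn⟩, rfl⟩, _,
            ⟨pad s (nf i (val (π i) (s ++ [a]))), ⟨s, hs, _, hnf i _, (hnv i _).symm, rfl⟩,
            rfl⟩, rfl⟩
        · intro hx
          obtain ⟨_, ⟨p, ⟨hp, hn⟩, rfl⟩, _, ⟨_, ⟨s, hs, s', hs', hss, rfl⟩, rfl⟩, rfl⟩ :=
            Language.mem_mul.1 hx
          refine ⟨p ++ s.map (Ltr.mk i), gp_glue hnil hp hn hs, p ++ s'.map (Ltr.mk i),
            gp_glue hnil hp hn hs', ?_, ?_⟩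
          · rw [hval2, hval, hss]
          · rw [pad_append _ _ _ _ (by simp) (by simp), pad_self, pad_map]
      rw [e]
      exact hreg

/-- The free product of finitely many automatic groups is automatic. -/
theorem automatic_freeProd {ι : Type} [Finite ι] (M : ι → Type) [∀ i, Group (M i)]
    (h : ∀ i, Automatic (M i)) : Automatic (CoprodI M) := by
  choose A hfin π L hL hnil hun using fun i => exists_unique_structure (h i)
  refine ⟨Ltr A, ?_, fpi π, gpL L, (gp_structure M A π L hL hnil hun).1⟩
  have : Finite (Σ i, A i) := inferInstance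
  refine Finite.of_injective (fun s : Ltr A => (⟨s.fst, s.snd⟩ : Σ i, A i)) ?_
  rintro ⟨i, a⟩ ⟨j, b⟩ hab
  cases hab
  rfl

end Pool.Agent.SLA
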