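import Mathlib
import Pool.Agent.SLA.Prod
import Pool.Agent.SLA.Least
/-!
# Direct products of ShortLex-automatic groups
-/
namespace Pool.Agent.SLA
open Pool.Agent.SLX

theorem lex_map {A C : Type} [LinearOrder A] [LinearOrder C] {f : A → C}
    (hf : ∀ a b, a < b → f a < f b) {s t : List A} (h : List.Lex (· < ·) s t) :
    List.Lex (· < ·) (s.map f) (t.map f) := by
  induction h with
  | nil => exact List.Lex.nil
  | cons _ ih => exact List.Lex.cons ih
  | rel h => exact List.Lex.rel (hf _ _ h)

theorem shortlex_map {A C : Type} [LinearOrder A] [LinearOrder C] {f : A → C}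
    (hf : ∀ a b, a < b → f a < f b) {s t : List A} (h : List.Shortlex (· < ·) s t) :
    List.Shortlex (· < ·) (s.map f) (t.map f) := by
  rcases List.shortlex_def.1 h with h | ⟨h1, h2⟩
  · apply List.Shortlex.of_length_lt
    simpa using h
  · apply List.Shortlex.of_lex
    · simpa using h1
    · exact lex_map hf h2

section
variable {A B G K : Type} [Group G] [Group K]

theorem val_split (π : A → G) (ρ : B → K) (w : List (A ⊕ B)) :
    val (prodLet π ρ) w =
      (val π (w.filterMap Sum.getLeft?), val ρ (w.filterMap Sum.getRight?)) := by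
  induction w with
  | nil => rfl
  | cons x w ih =>
    have h1 : val (prodLet π ρ) (x :: w) = prodLet π ρ x * val (prodLet π ρ) w := by simp [val]
    rw [h1, ih]
    cases x with
    | inl a => simp [prodLet, val]
    | inr b => simp [prodLet, val]

theorem length_split (w : List (A ⊕ B)) : ((w.filterMap Sum.getLeft?).map Sum.inl ++
    (w.filterMap Sum.getRight?).map Sum.inr : List (A ⊕ B)).length = w.length := by
  induction w with
  | nil => rfl
  | cons x w ih =>
    rw [List.length_append, List.length_map, List.length_map] at ih ⊢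
    cases x with
    | inl a => simp; omega
    | inr b => simp; omega

theorem sorted_le (r : A ⊕ B → A ⊕ B → Prop) (h3 : ∀ (a : A) (b : B), r (Sum.inl a) (Sum.inr b))
    (w : List (A ⊕ B)) :
    (w.filterMap Sum.getLeft?).map Sum.inl ++ (w.filterMap Sum.getRight?).map Sum.inr = w ∨
      List.Lex r ((w.filterMap Sum.getLeft?).map Sum.inl ++
        (w.filterMap Sum.getRight?).map Sum.inr : List (A ⊕ B)) w := by
  induction w with
  | nil => exact Or.inl rfl
  | cons x w ih =>
    cases x with
    | inl a =>
      simp only [List.filterMap_cons, Sum.getLeft?_inl, Sum.getRight?_inl, List.map_cons,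
        List.cons_append]
      rcases ih with h | h
      · exact Or.inl (by rw [h])
      · exact Or.inr (List.Lex.cons h)
    | inr b =>
      simp only [List.filterMap_cons, Sum.getLeft?_inr, Sum.getRight?_inr, List.map_cons]
      rcases hu : w.filterMap Sum.getLeft? with _ | ⟨a, u⟩
      · rw [hu] at ih
        rw [List.map_nil, List.nil_append] at ih ⊢
        rcases ih with h | h
        · exact Or.inl (by rw [h])
        · exact Or.inr (List.Lex.cons h)
      · rw [List.map_cons, List.cons_append]
        exact Or.inr (List.Lex.rel (h3 a b))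

theorem prod_least [LinearOrder A] [LinearOrder B] [Finite A] [Finite B] (π : A → G) (ρ : B → K)
    (inst : LinearOrder (A ⊕ B))
    (h1 : ∀ a a' : A, a < a' → inst.lt (Sum.inl a) (Sum.inl a'))
    (h2 : ∀ b b' : B, b < b' → inst.lt (Sum.inr b) (Sum.inr b'))
    (h3 : ∀ (a : A) (b : B), inst.lt (Sum.inl a) (Sum.inr b)) :
    @leastLang (A ⊕ B) (G × K) inst _ (prodLet π ρ) = prodLang (leastLang π) (leastLang ρ) := by
  have key : ∀ w ∈ @leastLang (A ⊕ B) (G × K) inst _ (prodLet π ρ),
      w ∈ prodLang (leastLang π) (leastLang ρ) := by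
    intro w hw
    set u := w.filterMap Sum.getLeft? with hu
    set v := w.filterMap Sum.getRight? with hv
    have hval : val (prodLet π ρ) (u.map Sum.inl ++ v.map Sum.inr) = val (prodLet π ρ) w := by
      rw [val_append, val_inl, val_inr, val_split π ρ w]
      simp [hu, hv]
    have hws : u.map Sum.inl ++ v.map Sum.inr = w := by
      rcases sorted_le inst.lt h3 w with h | h
      · exact h
      · exact absurd (List.Shortlex.of_lex (length_split w) h) (hw _ hval)
    refine ⟨u, ?_, v, ?_, hws.symm⟩
    · intro u' hu' hlt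
      refine hw (u'.map Sum.inl ++ v.map Sum.inr) ?_ ?_
      · rw [← hval, val_append, val_append, val_inl, val_inl, hu']
      · rw [← hws]
        exact @shortlex_append_right (A ⊕ B) inst _ _
          (@shortlex_map A (A ⊕ B) _ inst Sum.inl h1 _ _ hlt) _
    · intro v' hv' hlt
      refine hw (u.map Sum.inl ++ v'.map Sum.inr) ?_ ?_
      · rw [← hval, val_append, val_append, val_inr, val_inr, hv']
      · rw [← hws]
        exact List.Shortlex.append_left (@shortlex_map B (A ⊕ B) _ inst Sum.inr h2 _ _ hlt) _
  ext w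
  constructor
  · exact key w
  · rintro ⟨u, hu, v, hv, rfl⟩
    obtain ⟨w0, hw0, hw0v⟩ :=
      @exists_least (A ⊕ B) (G × K) inst _ (prodLet π ρ) _ (u.map Sum.inl ++ v.map Sum.inr)
    obtain ⟨u0, hu0, v0, hv0, rfl⟩ := key w0 hw0
    rw [val_append, val_append, val_inl, val_inl, val_inr, val_inr] at hw0v
    have e1 : val π u0 = val π u := by
      have := congrArg Prod.fst hw0v
      simpa using this
    have e2 : val ρ v0 = val ρ v := by
      have := congrArg Prod.snd hw0v
      simpa using this
    rw [← least_unique π hu0 hu e1, ← least_unique ρ hv0 hv e2]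
    exact hw0

end

/-- The direct product of two ShortLex-automatic groups is ShortLex-automatic. -/
theorem sla_prod {G K : Type} [Group G] [Group K] (hG : ShortLexAutomatic G)
    (hK : ShortLexAutomatic K) : ShortLexAutomatic (G × K) := by
  obtain ⟨A, hA, hl, π, hst⟩ := hG
  obtain ⟨B, hB, hl', ρ, hst'⟩ := hK
  have f1 := ftp_of_structure hst
  have f2 := ftp_of_structure hst'
  obtain ⟨r1, s1, _⟩ := hst
  obtain ⟨r2, s2, _⟩ := hst'
  let inst : LinearOrder (A ⊕ B) :=
    LinearOrder.lift' (toLex : A ⊕ B → A ⊕ₗ B) toLex.injective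
  have e := prod_least π ρ inst (fun a a' h => Sum.Lex.inl_lt_inl_iff.2 h)
    (fun b b' h => Sum.Lex.inr_lt_inr_iff.2 h) (fun a b => Sum.Lex.inl_lt_inr a b)
  refine ⟨A ⊕ B, inferInstance, inst, prodLet π ρ, ?_⟩
  rw [e]
  refine structure_of_ftp (prodLang_regular r1 r2) ?_ (prod_ftp f1 (lbp_least s1) f2)
  rintro ⟨g, k⟩
  obtain ⟨u, hu, hug⟩ := s1 g
  obtain ⟨v, hv, hvk⟩ := s2 k
  refine ⟨u.map Sum.inl ++ v.map Sum.inr, ⟨u, hu, v, hv, rfl⟩, ?_⟩
  rw [val_append, val_inl, val_inr, hug, hvk]
  simp

end Pool.Agent.SLA
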