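import Mathlib
/-!
# Extensions with a virtually free quotient: a finite index subgroup is a direct product
-/
namespace Pool.Agent.SLA

open Classical in
theorem vf_finite_of_fg {α : Type} (h : Group.FG (FreeGroup α)) : Finite α := by
  obtain ⟨S, hS⟩ := Group.fg_def.1 h
  let T : Set α := ⋃ s ∈ S, {a | a ∈ s.toWord.map Prod.fst}
  have hT : T.Finite := by
    apply Set.Finite.biUnion S.finite_toSet
    intro s _
    exact (s.toWord.map Prod.fst).finite_toSet
  have hall : ∀ a, a ∈ T := by
    intro a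
    by_contra ha
    let g : FreeGroup α →* Multiplicative ℤ :=
      FreeGroup.lift (fun b => if b = a then Multiplicative.ofAdd 1 else 1)
    have h1 : ∀ s ∈ S, g s = 1 := by
      intro s hs
      rw [← FreeGroup.mk_toWord (x := s), FreeGroup.lift_mk]
      apply List.prod_eq_one
      intro z hz
      rw [List.mem_map] at hz
      obtain ⟨⟨b, c⟩, hb, rfl⟩ := hz
      have hba : b ≠ a := by
        rintro rfl
        apply ha
        exact Set.mem_biUnion hs (List.mem_map.2 ⟨(b, c), hb, rfl⟩)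
      simp only [if_neg hba, inv_one]
      cases c <;> rfl
    have h2 : (⊤ : Subgroup (FreeGroup α)) ≤ g.ker := by
      rw [← hS, Subgroup.closure_le]
      intro s hs
      exact h1 s hs
    have h3 : g (FreeGroup.of a) = 1 := h2 (Subgroup.mem_top _)
    rw [show g (FreeGroup.of a) = Multiplicative.ofAdd (1 : ℤ) by
      simp only [g, FreeGroup.lift_apply_of, if_true]] at h3
    have h4 : (1 : ℤ) = 0 := congrArg Multiplicative.toAdd h3
    exact absurd h4 (by norm_num)
  have hfin : (Set.univ : Set α).Finite := hT.subset (fun a _ => hall a)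
  exact Set.finite_univ_iff.1 hfin

theorem vf_fg (X : Type) [Finite X] : Group.FG (FreeGroup X) := by
  rw [Group.fg_iff]
  exact ⟨Set.range FreeGroup.of, FreeGroup.closure_range_of X, Set.finite_range _⟩

theorem vfree_split {G : Type} [Group G] (N : Subgroup G) [N.Normal] (A : Subgroup G) [A.Normal]
    (hAN : A ≤ N) (hfi : A.relIndex N ≠ 0) (hC : (Subgroup.centralizer (A : Set G)).FiniteIndex)
    (X : Type) [Finite X] (Q0 : Subgroup (G ⧸ N)) [Q0.FiniteIndex] (e : Q0 ≃* FreeGroup X) :
    ∃ (n : ℕ) (H : Subgroup G), H.FiniteIndex ∧ Nonempty (H ≃* (A × FreeGroup (Fin n))) := by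
  classical
  let q : G →* G ⧸ N := QuotientGroup.mk' N
  have hqs : Function.Surjective q := QuotientGroup.mk'_surjective N
  have hqN : ∀ g, q g = 1 ↔ g ∈ N := fun g => QuotientGroup.eq_one_iff g
  have hP : (Q0.comap q).FiniteIndex := by
    rw [Subgroup.finiteIndex_iff, Subgroup.index_comap_of_surjective _ hqs]
    exact Subgroup.FiniteIndex.index_ne_zero
  let C1 : Subgroup G := Subgroup.centralizer (A : Set G) ⊓ Q0.comap q
  have hC1 : C1.FiniteIndex := inferInstance
  have hM : (C1.map q).FiniteIndex := by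
    rw [Subgroup.finiteIndex_iff]
    intro h0
    have h1 := Subgroup.index_map_dvd C1 hqs
    rw [h0, zero_dvd_iff] at h1
    exact Subgroup.FiniteIndex.index_ne_zero h1
  let F1 : Subgroup Q0 := (C1.map q).subgroupOf Q0
  have hF1 : F1.FiniteIndex := inferInstance
  let K0 : Subgroup (FreeGroup X) := F1.map e.toMonoidHom
  have hK0 : K0.FiniteIndex := by
    rw [Subgroup.finiteIndex_iff]
    intro h0
    have h1 := Subgroup.index_map_dvd F1 (f := e.toMonoidHom) e.surjective
    rw [show (Subgroup.map e.toMonoidHom F1).index = 0 from h0, zero_dvd_iff] at h1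
    exact Subgroup.FiniteIndex.index_ne_zero h1
  have hfgX : Group.FG (FreeGroup X) := vf_fg X
  have hfgK : Group.FG K0 := Subgroup.fg_of_index_ne_zero K0
  have hfree : IsFreeGroup K0 := subgroupIsFreeOfIsFree K0
  let ι : Type := IsFreeGroup.Generators K0
  let ψ : K0 ≃* FreeGroup ι := IsFreeGroup.toFreeGroup K0
  have hι : Finite ι := vf_finite_of_fg (Group.fg_of_surjective (f := ψ.toMonoidHom) ψ.surjective)
  -- the embedding of the free group in the quotient
  let φ : FreeGroup ι →* G ⧸ N :=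
    Q0.subtype.comp (e.symm.toMonoidHom.comp (K0.subtype.comp ψ.symm.toMonoidHom))
  have hφi : Function.Injective φ := by
    intro a b hab
    have h1 : e.symm ((ψ.symm a : K0) : FreeGroup X) = e.symm ((ψ.symm b : K0) : FreeGroup X) :=
      Subtype.ext hab
    exact ψ.symm.injective (Subtype.ext (e.symm.injective h1))
  have hφ1 : ∀ w, φ w ∈ C1.map q := by
    intro w
    obtain ⟨y, hy, hye⟩ := (ψ.symm w).2
    have h1 : φ w = (y : G ⧸ N) := by
      show ((e.symm ((ψ.symm w : K0) : FreeGroup X) : Q0) : G ⧸ N) = y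
      rw [← hye]
      show ((e.symm (e y) : Q0) : G ⧸ N) = y
      rw [e.symm_apply_apply]
    rw [h1]
    exact hy
  have hφ2 : ∀ x ∈ C1, ∃ w, φ w = q x := by
    intro x hx
    have h1 : q x ∈ Q0 := hx.2
    have h2 : (⟨q x, h1⟩ : Q0) ∈ F1 := ⟨x, hx, rfl⟩
    refine ⟨ψ ⟨e ⟨q x, h1⟩, ⟨⟨q x, h1⟩, h2, rfl⟩⟩, ?_⟩
    show ((e.symm ((ψ.symm (ψ _) : K0) : FreeGroup X) : Q0) : G ⧸ N) = q x
    rw [ψ.symm_apply_apply]
    show ((e.symm (e ⟨q x, h1⟩) : Q0) : G ⧸ N) = q x
    rw [e.symm_apply_apply]
  -- the section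
  choose g hgC hgq using fun i : ι => (hφ1 (FreeGroup.of i))
  let s : FreeGroup ι →* G := FreeGroup.lift g
  have hqs' : ∀ w, q (s w) = φ w := by
    intro w
    have h1 : q.comp s = φ := by
      apply FreeGroup.ext_hom
      intro i
      show q (s (FreeGroup.of i)) = φ (FreeGroup.of i)
      rw [show s (FreeGroup.of i) = g i from FreeGroup.lift_apply_of]
      exact hgq i
    exact DFunLike.congr_fun h1 w
  have hsC : ∀ w, s w ∈ C1 := by
    intro w
    induction w using FreeGroup.induction_on with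
    | C1 => rw [map_one]; exact C1.one_mem
    | of i =>
      rw [show s (FreeGroup.of i) = g i from FreeGroup.lift_apply_of]
      exact hgC i
    | inv_of i h => rw [map_inv]; exact C1.inv_mem h
    | mul x y hx hy => rw [map_mul]; exact C1.mul_mem hx hy
  -- the product
  let Φ : A × FreeGroup ι →* G := MonoidHom.noncommCoprod A.subtype s (by
    intro a w
    exact (Subgroup.mem_centralizer_iff.1 (hsC w).1) a a.2)
  have hΦ : ∀ a w, Φ (a, w) = (a : G) * s w := fun a w => rfl
  have hΦi : Function.Injective Φ := by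
    rw [injective_iff_map_eq_one]
    rintro ⟨a, w⟩ h1
    rw [hΦ] at h1
    have h2 : q ((a : G) * s w) = 1 := by rw [h1, map_one]
    rw [map_mul, (hqN a).2 (hAN a.2), one_mul, hqs'] at h2
    have h3 : w = 1 := hφi (by rw [h2, map_one])
    rw [h3, map_one, mul_one] at h1
    rw [h3]
    exact Prod.ext (Subtype.ext h1) rfl
  have hrange : ∀ (a : A) (w : FreeGroup ι), (a : G) * s w ∈ Φ.range := fun a w => ⟨(a, w), rfl⟩
  refine ⟨Nat.card ι, Φ.range, ?_, ?_⟩
  · -- finite index
    have hAN' : (A.subgroupOf N).FiniteIndex := by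
      rw [Subgroup.finiteIndex_iff]
      exact hfi
    have hfinN : Finite (N ⧸ A.subgroupOf N) := inferInstance
    have hfinC : Finite (G ⧸ C1) := inferInstance
    let θ : (G ⧸ C1) × (N ⧸ A.subgroupOf N) → G ⧸ Φ.range :=
      fun p => ((p.1.out * (p.2.out : G) : G) : G ⧸ Φ.range)
    have hθ : Function.Surjective θ := by
      intro z
      obtain ⟨x, rfl⟩ := QuotientGroup.mk_surjective z
      let c : G ⧸ C1 := (x : G ⧸ C1)
      have h1 : c.out⁻¹ * x ∈ C1 := by
        have h2 : ((c.out : G) : G ⧸ C1) = (x : G ⧸ C1) := QuotientGroup.out_eq' c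
        exact QuotientGroup.eq.1 h2
      obtain ⟨w, hw⟩ := hφ2 _ h1
      have h3 : (c.out⁻¹ * x) * (s w)⁻¹ ∈ N := by
        rw [← hqN, map_mul, map_inv, hqs', hw, mul_inv_cancel]
      let m : N := ⟨_, h3⟩
      let mc : N ⧸ A.subgroupOf N := (m : N ⧸ A.subgroupOf N)
      have h4 : mc.out⁻¹ * m ∈ A.subgroupOf N := by
        have h5 : ((mc.out : N) : N ⧸ A.subgroupOf N) = (m : N ⧸ A.subgroupOf N) :=
          QuotientGroup.out_eq' mc
        exact QuotientGroup.eq.1 h5
      have h6 : ((mc.out : N) : G)⁻¹ * ((c.out⁻¹ * x) * (s w)⁻¹) ∈ A := h4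
      refine ⟨(c, mc), ?_⟩
      show ((c.out * (mc.out : G) : G) : G ⧸ Φ.range) = (x : G ⧸ Φ.range)
      rw [QuotientGroup.eq]
      have h7 : (c.out * ((mc.out : N) : G))⁻¹ * x =
          (((mc.out : N) : G)⁻¹ * ((c.out⁻¹ * x) * (s w)⁻¹)) * s w := by group
      rw [h7]
      exact hrange ⟨_, h6⟩ w
    have : Finite (G ⧸ Φ.range) := Finite.of_surjective θ hθ
    exact Subgroup.finiteIndex_of_finite_quotient
  · have e1 : Φ.range ≃* (A × FreeGroup ι) := (MonoidHom.ofInjective hΦi).symm
    have e2 : FreeGroup ι ≃* FreeGroup (Fin (Nat.card ι)) :=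
      FreeGroup.freeGroupCongr (Finite.equivFin ι)
    exact ⟨e1.trans (MulEquiv.prodCongr (MulEquiv.refl A) e2)⟩

end Pool.Agent.SLA
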